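import Mathlib

/-!
# The powers of an integer modulo the powers of a coprime integer
-/

namespace Pool.Agent.H237.Zero

lemma int_dvd_of_prime_pow {a b : ℤ} (h : ∀ ℓ k : ℕ, ℓ.Prime → ((ℓ : ℤ) ^ k) ∣ a →
    ((ℓ : ℤ) ^ k) ∣ b) : a ∣ b := by
  rw [← Int.natAbs_dvd_natAbs, Nat.dvd_iff_prime_pow_dvd_dvd]
  intro ℓ k hℓ hk
  have h1 : ((ℓ : ℤ) ^ k) ∣ a := by
    rw [← Int.natAbs_dvd_natAbs, Int.natAbs_pow, Int.natAbs_natCast]
    exact hk
  have h2 := h ℓ k hℓ h1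
  rw [← Int.natAbs_dvd_natAbs, Int.natAbs_pow, Int.natAbs_natCast] at h2
  exact h2

/-- Lifting the exponent, for a modulus which need not be prime. -/
lemma lte_dvd {p g m d : ℕ} {n : ℤ} (hgp : Nat.Coprime g p)
    (h : ((p : ℤ) ^ m) ∣ n * ((g : ℤ) ^ d - 1)) :
    ((p : ℤ) ^ m) ∣ n * ((g : ℤ) ^ (2 * p.totient) - 1) * d := by
  set G : ℤ := (g : ℤ) ^ (2 * p.totient) with hG
  have h1 : ((p : ℤ) ^ m) ∣ n * (G ^ d - 1) := by
    refine h.trans (mul_dvd_mul_left n ?_)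
    have h2 := sub_dvd_pow_sub_pow ((g : ℤ) ^ d) 1 (2 * p.totient)
    rw [one_pow] at h2
    have h3 : G ^ d = ((g : ℤ) ^ d) ^ (2 * p.totient) := by
      rw [hG, ← pow_mul, ← pow_mul, mul_comm]
    rw [h3]
    exact h2
  have hmod : ((p : ℤ)) ∣ G - 1 := by
    have h2 : g ^ p.totient ≡ 1 [MOD p] := Nat.ModEq.pow_totient hgp
    have h3 : g ^ (2 * p.totient) ≡ 1 [MOD p] := by
      rw [mul_comm, pow_mul]
      have := h2.pow 2
      rwa [one_pow] at this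
    have h4 := (Nat.modEq_iff_dvd.mp h3.symm)
    rw [hG]
    push_cast at h4
    exact h4
  apply int_dvd_of_prime_pow
  intro ℓ k hℓ hk
  rcases Nat.eq_zero_or_pos k with hk0 | hk0
  · subst hk0; simp
  have hℓint : Prime (ℓ : ℤ) := Nat.prime_iff_prime_int.mp hℓ
  have hℓp : (ℓ : ℤ) ∣ p := by
    have h2 : (ℓ : ℤ) ∣ (p : ℤ) ^ m := (dvd_pow_self _ hk0.ne').trans hk
    exact hℓint.dvd_of_dvd_pow h2
  have hℓp' : ℓ ∣ p := by exact_mod_cast hℓp
  have hℓg : ¬ (ℓ : ℤ) ∣ (g : ℤ) := by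
    intro h2
    have h3 : ℓ ∣ g := by exact_mod_cast h2
    have h4 := Nat.dvd_gcd h3 hℓp'
    rw [Nat.Coprime] at hgp
    rw [hgp] at h4
    exact hℓ.one_lt.ne' (Nat.dvd_one.mp h4)
  have hℓG : ¬ (ℓ : ℤ) ∣ G := fun h2 => hℓg (hℓint.dvd_of_dvd_pow h2)
  have hℓG1 : (ℓ : ℤ) ∣ G - 1 := hℓp.trans hmod
  have hmain : emultiplicity (ℓ : ℤ) (G ^ d - 1) = emultiplicity (ℓ : ℤ) (G - 1) +
      emultiplicity (ℓ : ℤ) (d : ℤ) := by
    rcases hℓ.eq_two_or_odd' with h2 | h2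
    · subst h2
      have hodd : Odd (g : ℤ) := by
        rw [← Int.not_even_iff_odd, even_iff_two_dvd]
        exact hℓg
      have h4 : (4 : ℤ) ∣ G - 1 := by
        have h5 : (4 : ℤ) ∣ (g : ℤ) ^ 2 - 1 := by
          obtain ⟨t, ht⟩ := hodd
          rw [ht]
          exact ⟨t ^ 2 + t, by ring⟩
        refine h5.trans ?_
        have h6 := sub_dvd_pow_sub_pow ((g : ℤ) ^ 2) 1 p.totient
        rw [one_pow, ← pow_mul] at h6
        exact h6
      have h5 := Int.two_pow_sub_pow' (x := G) (y := 1) d h4 (by exact_mod_cast hℓG)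
      rw [one_pow] at h5
      exact_mod_cast h5
    · have h5 := Int.emultiplicity_pow_sub_pow hℓ h2 (x := G) (y := 1) hℓG1 hℓG d
      rw [one_pow] at h5
      rw [h5, Int.natCast_emultiplicity]
  have h2 : ((ℓ : ℤ) ^ k) ∣ n * (G ^ d - 1) := hk.trans h1
  rw [pow_dvd_iff_le_emultiplicity, emultiplicity_mul hℓint, hmain] at h2
  rw [pow_dvd_iff_le_emultiplicity, emultiplicity_mul hℓint, emultiplicity_mul hℓint, add_assoc]
  exact h2

/-- Two powers of `g` which are congruent modulo a power of `p` are far apart. -/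
def OrdB (g p W : ℕ) : Prop :=
  ∀ (n : ℤ) (m d : ℕ), n ≠ 0 → 0 < d → ((p : ℤ) ^ m) ∣ n * ((g : ℤ) ^ d - 1) →
    p ^ m ≤ n.natAbs * W * d

lemma OrdB.mono {g p W W' : ℕ} (h : OrdB g p W) (hW : W ≤ W') : OrdB g p W' := by
  intro n m d hn hd hdvd
  refine le_trans (h n m d hn hd hdvd) ?_
  exact Nat.mul_le_mul_right _ (Nat.mul_le_mul_left _ hW)

/-- The bound in terms of the `p`-part of `g ^ (2 φ(p)) - 1`. -/
lemma ordB_of_part {g p U V W : ℕ} (hg : 2 ≤ g) (hp : 2 ≤ p) (hgp : Nat.Coprime g p)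
    (hUV : g ^ (2 * p.totient) - 1 = U * V) (hV : Nat.Coprime V p) (hU : U ≤ W) : OrdB g p W := by
  intro n m d hn hd h
  have h2 := lte_dvd hgp h
  have hφ : 0 < p.totient := Nat.totient_pos.mpr (by omega)
  have hG1 : 1 < g ^ (2 * p.totient) := Nat.one_lt_pow (by omega) (by omega)
  have hcast : (g : ℤ) ^ (2 * p.totient) - 1 = (U : ℤ) * V := by
    have h3 : ((g ^ (2 * p.totient) - 1 : ℕ) : ℤ) = ((U * V : ℕ) : ℤ) := by rw [hUV]
    rw [Nat.cast_sub hG1.le] at h3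
    push_cast at h3
    exact h3
  have hUpos : 0 < U := by
    rcases Nat.eq_zero_or_pos U with h0 | h0
    · subst h0; omega
    · exact h0
  have h3 : ((p : ℤ) ^ m) ∣ (V : ℤ) * (n * U * d) := by
    have e : (V : ℤ) * (n * U * d) = n * ((g : ℤ) ^ (2 * p.totient) - 1) * d := by
      rw [hcast]; ring
    rw [e]
    exact h2
  have h4 : ((p : ℤ) ^ m) ∣ n * U * d := by
    apply IsCoprime.dvd_of_dvd_mul_left _ h3
    apply IsCoprime.pow_left
    exact (Nat.isCoprime_iff_coprime.mpr hV).symm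
  have h5 := Int.natAbs_dvd_natAbs.mpr h4
  have hpos : 0 < (n * (U : ℤ) * (d : ℤ)).natAbs := by
    apply Int.natAbs_pos.mpr
    apply mul_ne_zero (mul_ne_zero hn _)
    · exact_mod_cast hd.ne'
    · exact_mod_cast hUpos.ne'
  have h6 := Nat.le_of_dvd hpos h5
  rw [Int.natAbs_pow, Int.natAbs_natCast, Int.natAbs_mul, Int.natAbs_mul, Int.natAbs_natCast,
    Int.natAbs_natCast] at h6
  refine le_trans h6 ?_
  exact Nat.mul_le_mul_right _ (Nat.mul_le_mul_left _ hU)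

/-- The trivial bound. -/
lemma ordB_trivial {g p : ℕ} (hg : 2 ≤ g) (hp : 2 ≤ p) (hgp : Nat.Coprime g p) :
    OrdB g p (g ^ (2 * p.totient)) :=
  ordB_of_part hg hp hgp (Nat.mul_one _).symm (Nat.coprime_one_left p) (Nat.sub_le _ _)

lemma order_bound {p g m a b W : ℕ} {n : ℤ} (hO : OrdB g p W) (hgp : Nat.Coprime g p)
    (hn : n ≠ 0) (hab : b < a)
    (h : ((p : ℤ) ^ m) ∣ n * ((g : ℤ) ^ a - (g : ℤ) ^ b)) :
    p ^ m ≤ (n.natAbs * W) * (a - b) := by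
  apply hO n m (a - b) hn (by omega)
  have h2 : n * ((g : ℤ) ^ a - (g : ℤ) ^ b) = (g : ℤ) ^ b * (n * ((g : ℤ) ^ (a - b) - 1)) := by
    have h3 : (g : ℤ) ^ a = (g : ℤ) ^ b * (g : ℤ) ^ (a - b) := by
      rw [← pow_add]
      congr 1
      omega
    rw [h3]
    ring
  rw [h2] at h
  apply IsCoprime.dvd_of_dvd_mul_left _ h
  apply IsCoprime.pow
  exact (Nat.isCoprime_iff_coprime.mpr hgp).symm

end Pool.Agent.H237.Zero
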