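import Mathlib
import Pool.Agent.H237.Zero.Order

/-!
# Among a few coprime integers one has large order modulo the powers of most `p`
-/

namespace Pool.Agent.H237.Zero

lemma prod_inj {B : Finset ℕ} (h2 : ∀ a ∈ B, 2 ≤ a) (hco : (B : Set ℕ).Pairwise Nat.Coprime)
    {I J : Finset ℕ} (hI : I ⊆ B) (hJ : J ⊆ B) (h : ∏ a ∈ I, a = ∏ a ∈ J, a) : I = J := by
  have key : ∀ I J : Finset ℕ, I ⊆ B → J ⊆ B → ∏ a ∈ I, a = ∏ a ∈ J, a → I ⊆ J := by
    intro I J hI hJ h a ha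
    by_contra hn
    have h1 : a ∣ ∏ b ∈ J, b := by
      rw [← h]
      exact Finset.dvd_prod_of_mem _ ha
    have h3 : Nat.Coprime a (∏ b ∈ J, b) := Nat.Coprime.prod_right fun b hb =>
      hco (hI ha) (hJ hb) (fun e => hn (e ▸ hb))
    have h4 := Nat.Coprime.eq_one_of_dvd h3 h1
    have h5 := h2 a (hI ha)
    omega
  exact Finset.Subset.antisymm (key I J hI hJ h) (key J I hJ hI h.symm)

/-- At most `σ` of the `a ∈ B` satisfy `a ^ T ≡ 1` modulo a large prime power. -/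
lemma torsion {ℓ v T σ G : ℕ} (hℓ : ℓ.Prime) (hodd : ℓ ≠ 2) (hT : 0 < T) (hσ : T < 2 ^ σ)
    (hG : 1 ≤ G) (hv : G ^ σ < ℓ ^ v) {B : Finset ℕ} (hB2 : ∀ a ∈ B, 2 ≤ a)
    (hBG : ∀ a ∈ B, a ≤ G) (hco : (B : Set ℕ).Pairwise Nat.Coprime)
    (hBℓ : ∀ a ∈ B, Nat.Coprime a ℓ) (hB : ∀ a ∈ B, ℓ ^ v ∣ a ^ T - 1) : B.card < σ := by
  classical
  by_contra hcon
  push Not at hcon
  obtain ⟨B', hB', hcard⟩ := Finset.exists_subset_card_eq hcon
  have hQ0 : 0 < ℓ ^ v := pow_pos hℓ.pos _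
  haveI : NeZero (ℓ ^ v) := ⟨hQ0.ne'⟩
  haveI : IsCyclic (ZMod (ℓ ^ v))ˣ := ZMod.isCyclic_units_of_prime_pow ℓ hℓ hodd v
  have hbound := IsCyclic.card_pow_eq_one_le (α := (ZMod (ℓ ^ v))ˣ) hT
  have hcop : ∀ I : Finset ℕ, I ⊆ B' → Nat.Coprime (∏ a ∈ I, a) (ℓ ^ v) := by
    intro I hI
    apply Nat.Coprime.prod_left
    intro a ha
    exact Nat.Coprime.pow_right _ (hBℓ a (hB' (hI ha)))
  have hlt : ∀ I : Finset ℕ, I ⊆ B' → ∏ a ∈ I, a < ℓ ^ v := by
    intro I hI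
    refine lt_of_le_of_lt ?_ hv
    refine le_trans (Finset.prod_le_pow_card I _ G fun a ha => hBG a (hB' (hI ha))) ?_
    apply Nat.pow_le_pow_right hG
    rw [← hcard]
    exact Finset.card_le_card hI
  set f : Finset ℕ → (ZMod (ℓ ^ v))ˣ := fun I =>
    if h : Nat.Coprime (∏ a ∈ I, a) (ℓ ^ v) then ZMod.unitOfCoprime _ h else 1 with hf
  have hfe : ∀ I : Finset ℕ, I ⊆ B' → ((f I : (ZMod (ℓ ^ v))ˣ) : ZMod (ℓ ^ v)) =
      ((∏ a ∈ I, a : ℕ) : ZMod (ℓ ^ v)) := by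
    intro I hI
    rw [hf]
    dsimp only
    rw [dif_pos (hcop I hI)]
    exact ZMod.coe_unitOfCoprime _ _
  have h1 : B'.powerset.card ≤
      (Finset.univ.filter (fun u : (ZMod (ℓ ^ v))ˣ => u ^ T = 1)).card := by
    apply Finset.card_le_card_of_injOn f
    · intro I hI
      rw [Finset.mem_coe, Finset.mem_powerset] at hI
      rw [Finset.mem_coe, Finset.mem_filter]
      refine ⟨Finset.mem_univ _, ?_⟩
      apply Units.ext
      rw [Units.val_pow_eq_pow_val, hfe I hI, Units.val_one, Nat.cast_prod, ← Finset.prod_pow]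
      apply Finset.prod_eq_one
      intro a ha
      have h3 := hB a (hB' (hI ha))
      have ha1 : 1 ≤ a ^ T := Nat.one_le_pow _ _ (by have := hB2 a (hB' (hI ha)); omega)
      have h4 : a ^ T ≡ 1 [MOD ℓ ^ v] := ((Nat.modEq_iff_dvd' ha1).mpr h3).symm
      have h5 := (ZMod.natCast_eq_natCast_iff _ _ _).mpr h4
      push_cast at h5
      exact h5
    · intro I hI J hJ hIJ
      rw [Finset.mem_coe, Finset.mem_powerset] at hI hJ
      have h3 : ((∏ a ∈ I, a : ℕ) : ZMod (ℓ ^ v)) = ((∏ a ∈ J, a : ℕ) : ZMod (ℓ ^ v)) := by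
        rw [← hfe I hI, ← hfe J hJ, hIJ]
      rw [ZMod.natCast_eq_natCast_iff] at h3
      have h4 := Nat.ModEq.eq_of_lt_of_lt h3 (hlt I hI) (hlt J hJ)
      exact prod_inj hB2 hco (hI.trans hB') (hJ.trans hB') h4
  rw [Finset.card_powerset, hcard] at h1
  omega

/-- At most `σ` of the `a ∈ A` are bad for the prime `ℓ`. -/
lemma few_bad {ℓ T σ G : ℕ} (hℓ : ℓ.Prime) (hodd : ℓ ≠ 2) (hT : 0 < T) (hσ : T < 2 ^ σ)
    (hG : 1 ≤ G) {A : Finset ℕ} (hA2 : ∀ a ∈ A, 2 ≤ a)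
    (hAG : ∀ a ∈ A, a ≤ G) (hco : (A : Set ℕ).Pairwise Nat.Coprime)
    (hAℓ : ∀ a ∈ A, Nat.Coprime a ℓ) :
    (A.filter (fun a => G ^ σ < ℓ ^ ((a ^ T - 1).factorization ℓ))).card ≤ σ := by
  classical
  have hex : ∃ v, G ^ σ < ℓ ^ v := pow_unbounded_of_one_lt _ hℓ.one_lt
  set v := Nat.find hex with hv
  have hv1 : G ^ σ < ℓ ^ v := Nat.find_spec hex
  refine (torsion hℓ hodd hT hσ hG hv1 (fun a ha => hA2 a (Finset.mem_filter.mp ha).1)
    (fun a ha => hAG a (Finset.mem_filter.mp ha).1)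
    (hco.mono (by
      intro a ha
      exact (Finset.mem_filter.mp (Finset.mem_coe.mp ha)).1))
    (fun a ha => hAℓ a (Finset.mem_filter.mp ha).1) ?_).le
  intro a ha
  have h1 := (Finset.mem_filter.mp ha).2
  have h2 : v ≤ (a ^ T - 1).factorization ℓ := Nat.find_min' hex h1
  exact (pow_dvd_pow ℓ h2).trans (Nat.ordProj_dvd _ _)

lemma card_primeFactors_le {p σ : ℕ} (hp : 0 < p) (h : p < 2 ^ σ) : p.primeFactors.card ≤ σ := by
  have h1 : 2 ^ p.primeFactors.card ≤ ∏ ℓ ∈ p.primeFactors, ℓ :=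
    Finset.pow_card_le_prod _ _ _ (fun ℓ hℓ => (Nat.prime_of_mem_primeFactors hℓ).two_le)
  have h2 : ∏ ℓ ∈ p.primeFactors, ℓ ≤ p := Nat.le_of_dvd hp (Nat.prod_primeFactors_dvd p)
  have h3 : 2 ^ p.primeFactors.card < 2 ^ σ := by omega
  exact ((Nat.pow_lt_pow_iff_right (by norm_num)).mp h3).le

/-- The order bound from the prime powers. -/
lemma ordB_of_primes {g p σ H : ℕ} (hg : 2 ≤ g) (hp : 2 ≤ p) (hgp : Nat.Coprime g p) (hH : 1 ≤ H)
    (hσ : p.primeFactors.card ≤ σ)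
    (h : ∀ ℓ ∈ p.primeFactors, ℓ ^ ((g ^ (2 * p.totient) - 1).factorization ℓ) ≤ H) :
    OrdB g p (H ^ σ) := by
  classical
  set N := g ^ (2 * p.totient) - 1 with hN
  have hφ : 0 < p.totient := Nat.totient_pos.mpr (by omega)
  have hG1 : 1 < g ^ (2 * p.totient) := Nat.one_lt_pow (by omega) (by omega)
  have hN0 : N ≠ 0 := by omega
  set U := ∏ ℓ ∈ p.primeFactors, ℓ ^ (N.factorization ℓ) with hU
  have hUN : U ∣ N := by
    apply Finset.prod_dvd_of_isRelPrime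
    · intro a ha b hb hab
      change IsRelPrime (a ^ _) (b ^ _)
      rw [← Nat.coprime_iff_isRelPrime]
      apply Nat.Coprime.pow
      exact (Nat.coprime_primes (Nat.prime_of_mem_primeFactors (Finset.mem_coe.mp ha))
        (Nat.prime_of_mem_primeFactors (Finset.mem_coe.mp hb))).mpr hab
    · intro ℓ _
      exact Nat.ordProj_dvd _ _
  obtain ⟨V, hV⟩ := hUN
  have hVp : Nat.Coprime V p := by
    apply Nat.coprime_of_dvd
    intro ℓ hℓ hℓV hℓp
    have hmem : ℓ ∈ p.primeFactors := Nat.mem_primeFactors.mpr ⟨hℓ, hℓp, by omega⟩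
    have h1 : ℓ ^ (N.factorization ℓ) ∣ U := Finset.dvd_prod_of_mem (fun ℓ => ℓ ^ (N.factorization ℓ)) hmem
    have h2 : ℓ ^ (N.factorization ℓ + 1) ∣ N := by
      rw [pow_succ]
      have h3 := mul_dvd_mul h1 hℓV
      rwa [← hV] at h3
    exact Nat.pow_succ_factorization_not_dvd hN0 hℓ h2
  refine ordB_of_part hg hp hgp hV hVp ?_
  refine le_trans (Finset.prod_le_pow_card _ _ H h) ?_
  exact Nat.pow_le_pow_right hH hσ

/-- Among a few coprime integers one has large order modulo the powers of half of the `p`. -/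
lemma exists_base {A S₀ : Finset ℕ} {σ G : ℕ} (hσ : 0 < σ) (hA2 : ∀ a ∈ A, 2 ≤ a)
    (hAG : ∀ a ∈ A, a ≤ G) (hco : (A : Set ℕ).Pairwise Nat.Coprime)
    (hS : ∀ p ∈ S₀, 2 ≤ p ∧ ¬ 2 ∣ p ∧ 2 * p < 2 ^ σ) (hAS : ∀ a ∈ A, ∀ p ∈ S₀, Nat.Coprime a p)
    (hcard : 2 * σ ^ 2 ≤ A.card) :
    ∃ g ∈ A, ∃ S ⊆ S₀, S₀.card ≤ 2 * S.card ∧ ∀ p ∈ S, OrdB g p ((G ^ σ) ^ σ) := by
  classical
  have hAne : A.Nonempty := by
    rw [← Finset.card_pos]
    have : 0 < σ ^ 2 := by positivity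
    omega
  have hG : 1 ≤ G := by
    obtain ⟨a, ha⟩ := hAne
    have := hA2 a ha
    have := hAG a ha
    omega
  set r : ℕ → ℕ → Prop := fun a p => ∃ ℓ ∈ p.primeFactors,
    G ^ σ < ℓ ^ ((a ^ (2 * p.totient) - 1).factorization ℓ) with hr
  have hbad : ∀ p ∈ S₀, (A.filter (fun a => r a p)).card ≤ σ ^ 2 := by
    intro p hp
    obtain ⟨hp2, hpodd, hpσ⟩ := hS p hp
    have hφ : 0 < p.totient := Nat.totient_pos.mpr (by omega)
    have hφp : p.totient ≤ p := Nat.totient_le p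
    have hω : p.primeFactors.card ≤ σ := card_primeFactors_le (by omega) (by omega)
    have h1 : (A.filter (fun a => r a p)) ⊆ p.primeFactors.biUnion (fun ℓ =>
        A.filter (fun a => G ^ σ < ℓ ^ ((a ^ (2 * p.totient) - 1).factorization ℓ))) := by
      intro a ha
      rw [Finset.mem_filter] at ha
      obtain ⟨haA, ℓ, hℓ, h2⟩ := ha
      rw [Finset.mem_biUnion]
      exact ⟨ℓ, hℓ, Finset.mem_filter.mpr ⟨haA, h2⟩⟩
    refine le_trans (Finset.card_le_card h1) ?_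
    refine le_trans (Finset.card_biUnion_le_card_mul _ _ σ ?_) ?_
    · intro ℓ hℓ
      have hℓp := Nat.prime_of_mem_primeFactors hℓ
      have hℓd := Nat.dvd_of_mem_primeFactors hℓ
      apply few_bad hℓp _ (by omega) (by omega) hG hA2 hAG hco
      · intro a ha
        exact Nat.Coprime.coprime_dvd_right hℓd (hAS a ha p hp)
      · rintro rfl
        exact hpodd hℓd
    · rw [sq]
      exact Nat.mul_le_mul_right _ hω
  have hex : ∃ g ∈ A, 2 * (S₀.filter (fun p => r g p)).card ≤ S₀.card := by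
    by_contra hcon
    push Not at hcon
    have h1 : ∑ a ∈ A, S₀.card < ∑ a ∈ A, 2 * (S₀.filter (fun p => r a p)).card :=
      Finset.sum_lt_sum_of_nonempty hAne hcon
    rw [← Finset.mul_sum, Finset.sum_const, smul_eq_mul] at h1
    have h2 : ∑ a ∈ A, (S₀.filter (fun p => r a p)).card =
        ∑ p ∈ S₀, (A.filter (fun a => r a p)).card :=
      Finset.sum_card_bipartiteAbove_eq_sum_card_bipartiteBelow r
    rw [h2] at h1
    have h3 : ∑ p ∈ S₀, (A.filter (fun a => r a p)).card ≤ S₀.card * σ ^ 2 := by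
      refine le_trans (Finset.sum_le_sum hbad) ?_
      rw [Finset.sum_const, smul_eq_mul]
    have h4 : S₀.card * (2 * σ ^ 2) ≤ S₀.card * A.card := Nat.mul_le_mul_left _ hcard
    have h5 : S₀.card * (2 * σ ^ 2) = 2 * (S₀.card * σ ^ 2) := by ring
    have h6 : A.card * S₀.card = S₀.card * A.card := by ring
    omega
  obtain ⟨g, hgA, hg⟩ := hex
  refine ⟨g, hgA, S₀.filter (fun p => ¬ r g p), Finset.filter_subset _ _, ?_, ?_⟩
  · have := Finset.card_filter_add_card_filter_not (s := S₀) (fun p => r g p)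
    omega
  · intro p hp
    rw [Finset.mem_filter] at hp
    obtain ⟨hp0, hnr⟩ := hp
    obtain ⟨hp2, hpodd, hpσ⟩ := hS p hp0
    apply ordB_of_primes (hA2 g hgA) hp2 (hAS g hgA p hp0) (Nat.one_le_pow _ _ hG)
      (card_primeFactors_le (by omega) (by omega))
    intro ℓ hℓ
    by_contra h1
    push Not at h1
    exact hnr ⟨ℓ, hℓ, h1⟩

end Pool.Agent.H237.Zero
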