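import Mathlib
import Pool.Agent.H237.Zero.Torsion

/-!
# The directions used at one scale
-/

namespace Pool.Agent.H237.Zero

open Set Filter Topology

/-- The number of the elements of `P` up to `x`. -/
noncomputable def cnt (P : Set ℕ) (x : ℝ) : ℝ := ({p ∈ P | (p : ℝ) ≤ x}.ncard : ℝ)

/-- The fee of the directions up to `z`. -/
noncomputable def fee (P : Set ℕ) (z : ℝ) : ℝ :=
  if Real.log z ^ 3 ≤ cnt P z then Real.log z ^ 3 else z

/-- The growth condition. -/
def Crit (P : Set ℕ) : Prop :=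
  ∀ C : ℝ, ∃ᶠ x : ℝ in atTop, ∃ z : ℝ, 2 ≤ z ∧ C * Real.log x ≤
    Real.log (cnt P x) * min (cnt P z ^ (1 / 3 : ℝ)) (Real.log (Real.log x) / fee P z)

lemma fin_upto (P : Set ℕ) (x : ℝ) : {p ∈ P | (p : ℝ) ≤ x}.Finite := by
  apply (Set.finite_Iic ⌊x⌋₊).subset
  intro p hp
  exact Nat.le_floor hp.2

noncomputable def upto (P : Set ℕ) (x : ℝ) : Finset ℕ := (fin_upto P x).toFinset

lemma mem_upto {P : Set ℕ} {x : ℝ} {p : ℕ} : p ∈ upto P x ↔ p ∈ P ∧ (p : ℝ) ≤ x := by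
  unfold upto
  rw [Set.Finite.mem_toFinset]
  rfl

lemma card_upto (P : Set ℕ) (x : ℝ) : ((upto P x).card : ℝ) = cnt P x := by
  unfold cnt upto
  rw [Set.ncard_eq_toFinset_card _ (fin_upto P x)]

lemma cnt_nonneg (P : Set ℕ) (x : ℝ) : 0 ≤ cnt P x := Nat.cast_nonneg _

lemma cnt_mono (P : Set ℕ) {x y : ℝ} (h : x ≤ y) : cnt P x ≤ cnt P y := by
  rw [← card_upto, ← card_upto]
  have : (upto P x).card ≤ (upto P y).card := by
    apply Finset.card_le_card
    intro p hp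
    rw [mem_upto] at hp ⊢
    exact ⟨hp.1, le_trans hp.2 h⟩
  exact_mod_cast this

lemma cnt_le {P : Set ℕ} (hP2 : ∀ p ∈ P, 2 ≤ p) {x : ℝ} (hx : 0 ≤ x) : cnt P x ≤ x := by
  rw [← card_upto]
  have : (upto P x).card ≤ (Finset.Icc 1 ⌊x⌋₊).card := by
    apply Finset.card_le_card
    intro p hp
    rw [mem_upto] at hp
    rw [Finset.mem_Icc]
    exact ⟨by have := hP2 p hp.1; omega, Nat.le_floor hp.2⟩
  rw [Nat.card_Icc, Nat.add_sub_cancel] at this
  calc ((upto P x).card : ℝ) ≤ (⌊x⌋₊ : ℝ) := by exact_mod_cast this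
    _ ≤ x := Nat.floor_le hx

lemma one_le_fee (P : Set ℕ) {z : ℝ} (hz : Real.exp 1 ≤ z) : 1 ≤ fee P z := by
  have hz0 : 0 < z := lt_of_lt_of_le (Real.exp_pos _) hz
  have h1 : 1 ≤ Real.log z := by rwa [Real.le_log_iff_exp_le hz0]
  unfold fee
  split_ifs
  · exact one_le_pow₀ h1
  · have := Real.add_one_le_exp (1 : ℝ)
    linarith

lemma log_le_fee (P : Set ℕ) {z : ℝ} (hz : Real.exp 1 ≤ z) : Real.log z ≤ fee P z := by
  have hz0 : 0 < z := lt_of_lt_of_le (Real.exp_pos _) hz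
  have h1 : 1 ≤ Real.log z := by rwa [Real.le_log_iff_exp_le hz0]
  unfold fee
  split_ifs
  · calc Real.log z = Real.log z ^ 1 := (pow_one _).symm
      _ ≤ Real.log z ^ 3 := pow_le_pow_right₀ h1 (by norm_num)
  · have := Real.log_le_sub_one_of_pos hz0
    linarith

lemma dirs {P : Set ℕ} (hP2 : ∀ p ∈ P, 2 ≤ p) (hco : P.Pairwise Nat.Coprime)
    {p₁ p₂ : ℕ} (h₁ : p₁ ∈ P) (h₂ : p₂ ∈ P) (hne : p₁ ≠ p₂) :
    ∃ C₁ : ℝ, 1 ≤ C₁ ∧ ∃ z₀ : ℝ, ∀ z, z₀ ≤ z → ∃ (g W : ℕ) (S : Finset ℕ), g ∈ P ∧ g ∉ S ∧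
      (S : Set ℕ) ⊆ P ∧ (∀ p ∈ S, (p : ℝ) ≤ z) ∧ (∀ p ∈ S, OrdB g p W) ∧ 1 ≤ W ∧
      cnt P z ≤ 8 * S.card ∧ Real.log g ≤ C₁ * fee P z ∧ Real.log W ≤ C₁ * fee P z := by
  classical
  have hp2 := hP2 p₁ h₁
  have hlg : 0 < Real.log p₁ := Real.log_pos (by exact_mod_cast (by omega : 1 < p₁))
  refine ⟨4 + 2 * Real.log p₁, by linarith, max (Real.exp 11) (max p₁ p₂), ?_⟩
  intro z hz
  have hz11 : Real.exp 11 ≤ z := le_trans (le_max_left _ _) hz
  have hz1 : (p₁ : ℝ) ≤ z := le_trans (le_trans (le_max_left _ _) (le_max_right _ _)) hz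
  have hz2 : (p₂ : ℝ) ≤ z := le_trans (le_trans (le_max_right _ _) (le_max_right _ _)) hz
  have hz0 : 0 < z := lt_of_lt_of_le (Real.exp_pos _) hz11
  have hL : 11 ≤ Real.log z := by rwa [Real.le_log_iff_exp_le hz0]
  have hze : Real.exp 1 ≤ z := le_trans (Real.exp_le_exp.mpr (by norm_num)) hz11
  have hcost1 := one_le_fee P hze
  have hcostl := log_le_fee P hze
  have hz12 : 12 ≤ z := by
    have := Real.add_one_le_exp (11 : ℝ)
    linarith
  by_cases hc : Real.log z ^ 3 ≤ cnt P z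
  · -- many elements
    have hcost : fee P z = Real.log z ^ 3 := by
      unfold fee
      rw [if_pos hc]
    set L := Real.log z with hLdef
    set G := ⌊z⌋₊ with hG
    have hGz : (G : ℝ) ≤ z := Nat.floor_le hz0.le
    have hG1 : 1 ≤ G := by
      rw [hG, Nat.one_le_floor_iff]
      linarith
    set σ := Nat.log 2 (2 * G) + 1 with hσ
    have hσ0 : 0 < σ := by omega
    have hσ2 : 2 * G < 2 ^ σ := Nat.lt_pow_succ_log_self (by norm_num) _
    have hσL : (σ : ℝ) ≤ 2 * L := by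
      have h3 : 2 ^ (Nat.log 2 (2 * G)) ≤ 2 * G := Nat.pow_log_le_self 2 (by omega)
      have h4 : (2 : ℝ) ^ (Nat.log 2 (2 * G)) ≤ 2 * z := by
        calc (2 : ℝ) ^ (Nat.log 2 (2 * G)) ≤ 2 * G := by exact_mod_cast h3
          _ ≤ 2 * z := by linarith
      have h5 : (Nat.log 2 (2 * G) : ℝ) * Real.log 2 ≤ Real.log 2 + L := by
        rw [hLdef, ← Real.log_mul (by norm_num) hz0.ne', ← Real.log_pow]
        exact Real.log_le_log (by positivity) h4
      have hl2 : 0.6931471803 < Real.log 2 := Real.log_two_gt_d9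
      have hl2' : Real.log 2 < 0.6931471808 := Real.log_two_lt_d9
      rw [hσ]
      push_cast
      by_contra hcon
      push Not at hcon
      have h6 : (2 * L - 1) * Real.log 2 < (Nat.log 2 (2 * G) : ℝ) * Real.log 2 :=
        mul_lt_mul_of_pos_right (by linarith) (by linarith)
      nlinarith
    have hσ2L : (σ : ℝ) ^ 2 ≤ 4 * L ^ 2 := by
      calc (σ : ℝ) ^ 2 ≤ (2 * L) ^ 2 := pow_le_pow_left₀ (by positivity) hσL 2
        _ = 4 * L ^ 2 := by ring
    have hcardR : ((2 * σ ^ 2 : ℕ) : ℝ) ≤ (upto P z).card := by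
      rw [card_upto]
      push_cast
      have : 8 * L ^ 2 ≤ L ^ 3 := by nlinarith [sq_nonneg L]
      linarith
    have hcardN : 2 * σ ^ 2 ≤ (upto P z).card := by exact_mod_cast hcardR
    obtain ⟨A, hA1, hA2⟩ := Finset.exists_subset_card_eq hcardN
    set S₀ := (upto P z \ A).filter (fun p => ¬ 2 ∣ p) with hS₀
    have hS₀mem : ∀ p ∈ S₀, p ∈ P ∧ (p : ℝ) ≤ z ∧ p ∉ A ∧ ¬ 2 ∣ p := by
      intro p hp
      rw [hS₀, Finset.mem_filter, Finset.mem_sdiff, mem_upto] at hp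
      exact ⟨hp.1.1.1, hp.1.1.2, hp.1.2, hp.2⟩
    have hAmem : ∀ a ∈ A, a ∈ P ∧ (a : ℝ) ≤ z := fun a ha => mem_upto.mp (hA1 ha)
    have hcardS₀ : (upto P z).card ≤ S₀.card + 1 + 2 * σ ^ 2 := by
      have h3 : ((upto P z \ A).filter (fun p => 2 ∣ p)).card ≤ 1 := by
        rw [Finset.card_le_one]
        intro a ha b hb
        rw [Finset.mem_filter, Finset.mem_sdiff, mem_upto] at ha hb
        by_contra hab
        have h4 := Nat.dvd_gcd ha.2 hb.2
        have h5 : Nat.gcd a b = 1 := hco ha.1.1.1 hb.1.1.1 hab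
        rw [h5] at h4
        omega
      have h4 : ((upto P z \ A).filter (fun p => 2 ∣ p)).card + S₀.card =
          (upto P z \ A).card := by
        rw [hS₀]
        exact Finset.card_filter_add_card_filter_not _
      have h5 := Finset.card_sdiff_of_subset hA1
      have h6 := Finset.card_le_card hA1
      omega
    obtain ⟨g, hgA, S, hSS, hScard, hSO⟩ := exists_base (S₀ := S₀) (σ := σ) (G := G) hσ0
      (fun a ha => hP2 a (hAmem a ha).1) (fun a ha => Nat.le_floor (hAmem a ha).2)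
      (hco.mono (fun a ha => (hAmem a (Finset.mem_coe.mp ha)).1))
      (fun p hp => ⟨hP2 p (hS₀mem p hp).1, (hS₀mem p hp).2.2.2, by
        have h3 : p ≤ G := Nat.le_floor (hS₀mem p hp).2.1
        omega⟩)
      (fun a ha p hp => hco (hAmem a ha).1 (hS₀mem p hp).1 (fun e => (hS₀mem p hp).2.2.1 (e ▸ ha)))
      (by rw [hA2])
    have hgP := (hAmem g hgA)
    have hgpos : (0 : ℝ) < g := by
      have := hP2 g hgP.1
      exact_mod_cast (by omega : 0 < g)
    refine ⟨g, (G ^ σ) ^ σ, S, hgP.1, ?_, ?_, ?_, hSO, ?_, ?_, ?_, ?_⟩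
    · intro h
      exact (hS₀mem g (hSS h)).2.2.1 hgA
    · intro p hp
      exact (hS₀mem p (hSS (Finset.mem_coe.mp hp))).1
    · intro p hp
      exact (hS₀mem p (hSS hp)).2.1
    · exact Nat.one_le_pow _ _ (Nat.one_le_pow _ _ hG1)
    · rw [← card_upto]
      have h3 : ((upto P z).card : ℝ) ≤ S₀.card + 1 + 2 * (σ : ℝ) ^ 2 := by exact_mod_cast hcardS₀
      have h4 : (S₀.card : ℝ) ≤ 2 * S.card := by exact_mod_cast hScard
      have h5 : L ^ 3 ≤ ((upto P z).card : ℝ) := by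
        rw [card_upto]
        exact hc
      have h6 : 4 * (1 + 8 * L ^ 2) ≤ 3 * L ^ 3 := by nlinarith [sq_nonneg L]
      linarith
    · have h3 : Real.log g ≤ Real.log z := Real.log_le_log hgpos hgP.2
      have h4 : (1 : ℝ) * fee P z ≤ (4 + 2 * Real.log p₁) * fee P z :=
        mul_le_mul_of_nonneg_right (by linarith) (by linarith)
      linarith
    · push_cast
      have hGpos : (0 : ℝ) < G := by exact_mod_cast hG1
      rw [Real.log_pow, Real.log_pow]
      have h3 : Real.log G ≤ L := Real.log_le_log hGpos hGz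
      have h3' : 0 ≤ Real.log G := Real.log_nonneg (by exact_mod_cast hG1)
      calc (σ : ℝ) * (σ * Real.log G) = (σ : ℝ) ^ 2 * Real.log G := by ring
        _ ≤ (4 * L ^ 2) * L := mul_le_mul hσ2L h3 h3' (by positivity)
        _ = 4 * fee P z := by rw [hcost]; ring
        _ ≤ (4 + 2 * Real.log p₁) * fee P z :=
            mul_le_mul_of_nonneg_right (by linarith) (by linarith)
  · -- few elements
    have hcost : fee P z = z := by
      unfold fee
      rw [if_neg hc]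
    set G := ⌊z⌋₊ with hG
    have hGz : (G : ℝ) ≤ z := Nat.floor_le hz0.le
    have hp₁mem : p₁ ∈ upto P z := mem_upto.mpr ⟨h₁, hz1⟩
    have hp₂mem : p₂ ∈ (upto P z).erase p₁ := Finset.mem_erase.mpr
      ⟨hne.symm, mem_upto.mpr ⟨h₂, hz2⟩⟩
    have hS : ∀ p ∈ (upto P z).erase p₁, p ∈ P ∧ (p : ℝ) ≤ z ∧ p ≠ p₁ := by
      intro p hp
      rw [Finset.mem_erase, mem_upto] at hp
      exact ⟨hp.2.1, hp.2.2, hp.1⟩
    refine ⟨p₁, p₁ ^ (2 * G), (upto P z).erase p₁, h₁, Finset.notMem_erase _ _, ?_, ?_, ?_, ?_, ?_,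
      ?_, ?_⟩
    · intro p hp
      exact (hS p (Finset.mem_coe.mp hp)).1
    · intro p hp
      exact (hS p hp).2.1
    · intro p hp
      refine (ordB_trivial hp2 (hP2 p (hS p hp).1) (hco h₁ (hS p hp).1 (hS p hp).2.2.symm)).mono ?_
      apply Nat.pow_le_pow_right (by omega)
      have h3 := Nat.totient_le p
      have h4 : p ≤ G := Nat.le_floor (hS p hp).2.1
      omega
    · exact Nat.one_le_pow _ _ (by omega)
    · rw [← card_upto]
      have h3 := Finset.card_erase_of_mem hp₁mem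
      have h4 : 1 ≤ ((upto P z).erase p₁).card := Finset.card_pos.mpr ⟨p₂, hp₂mem⟩
      have h5 : (upto P z).card ≤ 8 * ((upto P z).erase p₁).card := by omega
      exact_mod_cast h5
    · rw [hcost]
      nlinarith
    · push_cast
      rw [Real.log_pow, hcost]
      push_cast
      have h3 : (2 * (G : ℝ)) * Real.log p₁ ≤ (2 * z) * Real.log p₁ :=
        mul_le_mul_of_nonneg_right (by linarith) hlg.le
      nlinarith

end Pool.Agent.H237.Zero
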