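import Mathlib
import Pool.Agent.H237.Zero.Dirs
import Pool.Agent.H237.Gap.Growth
import Pool.Agent.H237.Rare.Semigroup

/-!
# Sufficient conditions for the growth condition
-/

namespace Pool.Agent.H237.Zero

open Set Filter Topology Pool.Agent.H237.Gap Pool.Agent.H237.Rare

lemma tendsto_LL : Tendsto (fun x : ℝ => Real.log (Real.log x)) atTop atTop :=
  Real.tendsto_log_atTop.comp Real.tendsto_log_atTop

lemma tendsto_LLL : Tendsto (fun x : ℝ => Real.log (Real.log (Real.log x))) atTop atTop :=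
  Real.tendsto_log_atTop.comp tendsto_LL

/-- More elements than any power of the logarithm. -/
def Rich (P : Set ℕ) : Prop := ∀ A : ℝ, ∀ᶠ x : ℝ in atTop, Real.log x ^ A ≤ cnt P x

lemma dense3_of_rich {P : Set ℕ} (h : Rich P) : Dense3 P := by
  have h1 : ∀ᶠ t : ℝ in atTop, 1000 * Real.log t ≤ t := by
    have h2 := (Real.isLittleO_log_id_atTop).bound (show (0 : ℝ) < 1 / 1000 by norm_num)
    filter_upwards [h2, eventually_ge_atTop (1 : ℝ)] with t ht ht1
    rw [Real.norm_of_nonneg (Real.log_nonneg ht1)] at ht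
    simp only [id, Real.norm_eq_abs, abs_of_nonneg (show (0 : ℝ) ≤ t by linarith)] at ht
    linarith
  filter_upwards [h 1, tendsto_LL.eventually h1, tendsto_LL.eventually (eventually_ge_atTop 1),
    Real.tendsto_log_atTop.eventually (eventually_ge_atTop 1)] with x hx1 hx2 hx3 hx4
  rw [Real.rpow_one] at hx1
  have h3 : Real.log (Real.log x) ≤ Real.log x := by
    have := Real.log_le_sub_one_of_pos (show 0 < Real.log x by linarith)
    linarith
  unfold cnt at hx1
  linarith

/-- The growth condition from the number of generators at some scales. -/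
lemma crit_of_growth {P : Set ℕ} (hR : Rich P) {c : ℝ} (hc1 : c < 1)
    (h : ∃ᶠ x : ℝ in atTop, Real.exp (Real.log x / Real.log (Real.log x) ^ c) ≤ cnt P x) :
    Crit P := by
  intro C
  set ε : ℝ := (1 - c) / 6 with hε
  have hε0 : 0 < ε := by
    rw [hε]
    linarith
  set z : ℝ → ℝ := fun x => Real.exp (Real.log (Real.log x) ^ ε) with hz
  have hzt : Tendsto z atTop atTop :=
    Real.tendsto_exp_atTop.comp ((tendsto_rpow_atTop hε0).comp tendsto_LL)
  have e1 : ∀ᶠ x : ℝ in atTop, Real.log (z x) ^ (max 3 (3 / ε)) ≤ cnt P (z x) :=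
    hzt.eventually (hR _)
  have e2 : ∀ᶠ x : ℝ in atTop, |C| + 1 ≤ Real.log (Real.log x) ^ ((1 - c) / 2) :=
    ((tendsto_rpow_atTop (show 0 < (1 - c) / 2 by linarith)).comp tendsto_LL).eventually
      (eventually_ge_atTop _)
  have e3 : ∀ᶠ x : ℝ in atTop, 2 ≤ Real.log (Real.log x) :=
    tendsto_LL.eventually (eventually_ge_atTop _)
  refine (h.and_eventually (e1.and (e2.and (e3.and (eventually_ge_atTop (Real.exp 1)))))).mono ?_
  rintro x ⟨hx, h1, h2, h3, h4⟩
  have hx0 : 0 < x := lt_of_lt_of_le (Real.exp_pos _) h4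
  have hℓ1 : 1 ≤ Real.log x := by rwa [Real.le_log_iff_exp_le hx0]
  set L := Real.log (Real.log x) with hL
  have hL0 : 0 < L := by linarith
  have hlogz : Real.log (z x) = L ^ ε := Real.log_exp _
  rw [hlogz] at h1
  have hLε1 : 1 ≤ L ^ ε := Real.one_le_rpow (by linarith) hε0.le
  have hcz3 : (L ^ ε) ^ 3 ≤ cnt P (z x) := by
    refine le_trans ?_ h1
    rw [← Real.rpow_natCast]
    exact Real.rpow_le_rpow_of_exponent_le hLε1 (by
      push_cast
      exact le_max_left _ _)
  have hczL : L ^ 3 ≤ cnt P (z x) := by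
    refine le_trans ?_ h1
    calc L ^ 3 = (L ^ ε) ^ (3 / ε) := by
          rw [← Real.rpow_mul hL0.le, mul_div_cancel₀ _ hε0.ne', ← Real.rpow_natCast]
          norm_num
      _ ≤ (L ^ ε) ^ (max 3 (3 / ε)) := Real.rpow_le_rpow_of_exponent_le hLε1 (le_max_right _ _)
  have hfee : fee P (z x) = L ^ (3 * ε) := by
    unfold fee
    rw [hlogz, if_pos hcz3, ← Real.rpow_natCast, ← Real.rpow_mul hL0.le]
    congr 1
    push_cast
    ring
  refine ⟨z x, ?_, ?_⟩
  · have h5 := Real.add_one_le_exp (L ^ ε)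
    change 2 ≤ Real.exp (L ^ ε)
    linarith
  have hcpos : 0 < cnt P x := lt_of_lt_of_le (Real.exp_pos _) hx
  have hlogc : Real.log x / L ^ c ≤ Real.log (cnt P x) := by
    rwa [Real.le_log_iff_exp_le hcpos]
  have hLc : 0 < L ^ c := Real.rpow_pos_of_pos hL0 _
  have hmin : (|C| + 1) * L ^ c ≤ min (cnt P (z x) ^ (1 / 3 : ℝ)) (L / fee P (z x)) := by
    apply le_min
    · calc (|C| + 1) * L ^ c ≤ L ^ ((1 - c) / 2) * L ^ c := mul_le_mul_of_nonneg_right h2 hLc.le
        _ = L ^ ((1 - c) / 2 + c) := (Real.rpow_add hL0 _ _).symm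
        _ ≤ L ^ (1 : ℝ) := Real.rpow_le_rpow_of_exponent_le (by linarith) (by linarith)
        _ = (L ^ 3) ^ (1 / 3 : ℝ) := by
            rw [← Real.rpow_natCast, ← Real.rpow_mul hL0.le]
            norm_num
        _ ≤ cnt P (z x) ^ (1 / 3 : ℝ) := Real.rpow_le_rpow (by positivity) hczL (by norm_num)
    · rw [hfee]
      calc (|C| + 1) * L ^ c ≤ L ^ ((1 - c) / 2) * L ^ c := mul_le_mul_of_nonneg_right h2 hLc.le
        _ = L ^ ((1 - c) / 2 + c) := (Real.rpow_add hL0 _ _).symm
        _ = L ^ (1 - 3 * ε) := by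
            congr 1
            rw [hε]
            ring
        _ = L / L ^ (3 * ε) := by rw [Real.rpow_sub hL0, Real.rpow_one]
  calc C * Real.log x ≤ (|C| + 1) * Real.log x := by
        apply mul_le_mul_of_nonneg_right _ (by linarith)
        have := le_abs_self C
        linarith
    _ = (Real.log x / L ^ c) * ((|C| + 1) * L ^ c) := by field_simp
    _ ≤ Real.log (cnt P x) * min (cnt P (z x) ^ (1 / 3 : ℝ)) (L / fee P (z x)) := by
        apply mul_le_mul hlogc hmin (by positivity)
        exact le_trans (by positivity) hlogc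

/-- The growth condition for the sets which are dense at arbitrarily large scales. -/
lemma crit_of_dense {P : Set ℕ} {δ : ℝ} (hδ : 0 < δ)
    (h : ∃ᶠ x : ℝ in atTop, x ^ δ ≤ cnt P x) : Crit P := by
  intro C
  -- the auxiliary scale
  have e1 : ∀ᶠ z : ℝ in atTop, (|C| / δ) ^ 3 ≤ z ^ δ :=
    (tendsto_rpow_atTop hδ).eventually (eventually_ge_atTop _)
  obtain ⟨z, hz, hz1, hz2⟩ := (h.and_eventually (e1.and (eventually_ge_atTop 2))).exists
  have hcz : (|C| / δ) ^ 3 ≤ cnt P z := le_trans hz1 hz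
  have hfee0 : 0 ≤ fee P z := by
    unfold fee
    split_ifs
    · exact pow_nonneg (Real.log_nonneg (by linarith)) 3
    · linarith
  have hfee : 0 < fee P z := by
    rcases hfee0.lt_or_eq with h1 | h1
    · exact h1
    · exfalso
      unfold fee at h1
      split_ifs at h1
      · have : 0 < Real.log z ^ 3 := pow_pos (Real.log_pos (by linarith)) 3
        linarith
      · linarith
  have e2 : ∀ᶠ x : ℝ in atTop, |C| / δ * fee P z ≤ Real.log (Real.log x) :=
    tendsto_LL.eventually (eventually_ge_atTop _)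
  refine (h.and_eventually (e2.and (eventually_ge_atTop 1))).mono ?_
  rintro x ⟨hx, h1, h2⟩
  refine ⟨z, hz2, ?_⟩
  have hx0 : 0 < x := by linarith
  have hlog : δ * Real.log x ≤ Real.log (cnt P x) := by
    rw [← Real.log_rpow hx0]
    exact Real.log_le_log (Real.rpow_pos_of_pos hx0 _) hx
  have hlx : 0 ≤ Real.log x := Real.log_nonneg h2
  have hmin : |C| / δ ≤ min (cnt P z ^ (1 / 3 : ℝ)) (Real.log (Real.log x) / fee P z) := by
    apply le_min
    · calc |C| / δ = ((|C| / δ) ^ 3) ^ (1 / 3 : ℝ) := by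
            rw [← Real.rpow_natCast, ← Real.rpow_mul (by positivity)]
            norm_num
        _ ≤ cnt P z ^ (1 / 3 : ℝ) := Real.rpow_le_rpow (by positivity) hcz (by norm_num)
    · rwa [le_div_iff₀ hfee]
  calc C * Real.log x ≤ |C| * Real.log x := mul_le_mul_of_nonneg_right (le_abs_self C) hlx
    _ = (δ * Real.log x) * (|C| / δ) := by field_simp
    _ ≤ _ := by
        apply mul_le_mul hlog hmin (by positivity)
        exact le_trans (by positivity) hlog

end Pool.Agent.H237.Zero
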