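import Mathlib
import Pool.Agent.H237.Gap.Pack

/-!
# Coding the points of the circle by grid cells along a chain of multiplications
-/

namespace Pool.Agent.H237.Zero

open MeasureTheory Set Filter Topology Pool.Agent.H237.Gap

/-- The representative in `[0, 1)`. -/
noncomputable def rep (x : UnitAddCircle) : ℝ := (AddCircle.equivIco 1 0 x : ℝ)

lemma rep_nonneg (x : UnitAddCircle) : 0 ≤ rep x := (AddCircle.equivIco 1 0 x).2.1

lemma rep_lt (x : UnitAddCircle) : rep x < 1 := by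
  have h : rep x < 0 + 1 := (AddCircle.equivIco 1 0 x).2.2
  rwa [zero_add] at h

lemma coe_rep (x : UnitAddCircle) : ((rep x : ℝ) : UnitAddCircle) = x :=
  AddCircle.coe_equivIco (p := (1 : ℝ)) (a := 0)

lemma rep_coe (t : ℝ) : rep (t : UnitAddCircle) = Int.fract t := by
  have := AddCircle.coe_equivIco_mk_apply (p := (1 : ℝ)) t
  rw [div_one, mul_one] at this
  exact this

lemma measurable_rep : Measurable rep :=
  measurable_subtype_coe.comp (AddCircle.measurableEquivIco 1 0).measurable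

/-- The index of the cell of a point in the grid of mesh `1 / m`. -/
noncomputable def cell (m : ℕ) (x : UnitAddCircle) : ℕ := ⌊(m : ℝ) * rep x⌋₊

lemma measurable_cell (m : ℕ) : Measurable (cell m) :=
  Nat.measurable_floor.comp (measurable_rep.const_mul _)

lemma cell_lt {m : ℕ} (hm : 0 < m) (x : UnitAddCircle) : cell m x < m := by
  unfold cell
  have hmR : (0 : ℝ) < m := by exact_mod_cast hm
  rw [Nat.floor_lt (mul_nonneg hmR.le (rep_nonneg x))]
  calc (m : ℝ) * rep x < m * 1 := mul_lt_mul_of_pos_left (rep_lt x) hmR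
    _ = m := mul_one _

lemma cell_nsmul {m : ℕ} (hm : 0 < m) (q : ℕ) (x : UnitAddCircle) :
    cell m (q • x) = cell (q * m) x % m := by
  have hmR : (0 : ℝ) < m := by exact_mod_cast hm
  set r := rep x with hr
  have hr0 : 0 ≤ r := rep_nonneg x
  have hqr : 0 ≤ (q : ℝ) * r := mul_nonneg (Nat.cast_nonneg q) hr0
  have h1 : rep (q • x) = (q : ℝ) * r - (⌊(q : ℝ) * r⌋₊ : ℝ) := by
    have h2 : q • x = (((q : ℝ) * r : ℝ) : UnitAddCircle) := by
      rw [← coe_rep x, ← hr, ← nsmul_eq_mul]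
      rfl
    rw [h2, rep_coe, Int.fract]
    congr 1
    rw [← natCast_floor_eq_intCast_floor hqr]
  have h3 : (((q * m : ℕ) : ℝ)) * r = m * rep (q • x) + ((m * ⌊(q : ℝ) * r⌋₊ : ℕ) : ℝ) := by
    rw [h1]
    push_cast
    ring
  have h4 : cell (q * m) x = cell m (q • x) + m * ⌊(q : ℝ) * r⌋₊ := by
    unfold cell
    rw [← hr, h3, Nat.floor_add_natCast (mul_nonneg hmR.le (rep_nonneg _))]
  rw [h4, Nat.add_mul_mod_self_left, Nat.mod_eq_of_lt (cell_lt hm _)]

lemma norm_coe_le (t : ℝ) : ‖(t : UnitAddCircle)‖ ≤ |t| := by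
  rw [UnitAddCircle.norm_eq]
  exact round_le t 0 |>.trans (by simp)

lemma dist_cell {m : ℕ} (hm : 0 < m) (x : UnitAddCircle) :
    ‖x - (((cell m x : ℝ) / m : ℝ) : UnitAddCircle)‖ ≤ 1 / m := by
  have hmR : (0 : ℝ) < m := by exact_mod_cast hm
  have h0 : 0 ≤ (m : ℝ) * rep x := mul_nonneg hmR.le (rep_nonneg x)
  have h1 : ((cell m x : ℕ) : ℝ) ≤ m * rep x := Nat.floor_le h0
  have h2 : (m : ℝ) * rep x < cell m x + 1 := Nat.lt_floor_add_one _
  have h5 : x - (((cell m x : ℝ) / m : ℝ) : UnitAddCircle) =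
      ((rep x - (cell m x : ℝ) / m : ℝ) : UnitAddCircle) := by
    rw [AddCircle.coe_sub, coe_rep]
  rw [h5]
  refine le_trans (norm_coe_le _) ?_
  rw [abs_of_nonneg]
  · rw [sub_le_iff_le_add, ← add_div, le_div_iff₀ hmR]
    linarith
  · rw [sub_nonneg, div_le_iff₀ hmR]
    linarith

lemma same_cell {m : ℕ} (hm : 0 < m) {x y : UnitAddCircle} (h : cell m x = cell m y) :
    ‖x - y‖ < 1 / m := by
  have hmR : (0 : ℝ) < m := by exact_mod_cast hm
  have h0 : 0 ≤ (m : ℝ) * rep x := mul_nonneg hmR.le (rep_nonneg x)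
  have h0' : 0 ≤ (m : ℝ) * rep y := mul_nonneg hmR.le (rep_nonneg y)
  have h1 : ((cell m x : ℕ) : ℝ) ≤ m * rep x := Nat.floor_le h0
  have h2 : (m : ℝ) * rep x < cell m x + 1 := Nat.lt_floor_add_one _
  have h3 : ((cell m y : ℕ) : ℝ) ≤ m * rep y := Nat.floor_le h0'
  have h4 : (m : ℝ) * rep y < cell m y + 1 := Nat.lt_floor_add_one _
  rw [h] at h1 h2
  have h5 : x - y = ((rep x - rep y : ℝ) : UnitAddCircle) := by
    rw [AddCircle.coe_sub, coe_rep, coe_rep]
  rw [h5]
  refine lt_of_le_of_lt (norm_coe_le _) ?_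
  rw [abs_lt]
  have h6 : rep x - rep y < 1 / m := by
    rw [lt_div_iff₀ hmR]
    nlinarith
  have h7 : rep y - rep x < 1 / m := by
    rw [lt_div_iff₀ hmR]
    nlinarith
  constructor <;> linarith

/-- A step of a chain: the multiplier and the control function. -/
abbrev Step := ℕ × (UnitAddCircle → ℂ)

/-- The product of the multipliers. -/
def pq (ps : List Step) : ℕ := (ps.map Prod.fst).prod

@[simp] lemma pq_nil : pq [] = 1 := rfl

@[simp] lemma pq_cons (q : ℕ) (ψ : UnitAddCircle → ℂ) (ps : List Step) :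
    pq ((q, ψ) :: ps) = q * pq ps := by
  simp [pq]

/-- The weight of a point: the product of `q ^ (-1/2)` over the steps with small control. -/
noncomputable def HF (δ : ℝ) : List Step → UnitAddCircle → ℝ
  | [], _ => 1
  | s :: ps, x => (if δ ≤ ‖s.2 x‖ then 1 else (Real.sqrt s.1)⁻¹) * HF δ ps (s.1 • x)

/-- The weight of a cell. -/
noncomputable def hf (δ : ℝ) (J : ℕ) : List Step → ℕ → ℝ
  | [], _ => 1
  | s :: ps, a => (if δ / 2 ≤ ‖s.2 (((a : ℝ) / ((s.1 * (J * pq ps) : ℕ) : ℝ) : ℝ) : UnitAddCircle)‖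
      then 1 else (Real.sqrt s.1)⁻¹) * hf δ J ps (a % (J * pq ps))

lemma HF_cons (δ : ℝ) (q : ℕ) (ψ : UnitAddCircle → ℂ) (ps : List Step) (x : UnitAddCircle) :
    HF δ ((q, ψ) :: ps) x = (if δ ≤ ‖ψ x‖ then 1 else (Real.sqrt q)⁻¹) * HF δ ps (q • x) := rfl

lemma hf_cons (δ : ℝ) (J : ℕ) (q : ℕ) (ψ : UnitAddCircle → ℂ) (ps : List Step) (a : ℕ) :
    hf δ J ((q, ψ) :: ps) a =
      (if δ / 2 ≤ ‖ψ (((a : ℝ) / ((q * (J * pq ps) : ℕ) : ℝ) : ℝ) : UnitAddCircle)‖
      then 1 else (Real.sqrt q)⁻¹) * hf δ J ps (a % (J * pq ps)) := rfl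

/-- The fibre bound: the sum of the squares over each fibre of `x ↦ q x` is at most `C`. -/
def Fib (q : ℕ) (C : ℝ) (f : UnitAddCircle → ℂ) : Prop :=
  ∀ x : UnitAddCircle, ∑ j ∈ Finset.range q, ‖f (x + (((j : ℝ) / q : ℝ) : UnitAddCircle))‖ ^ 2 ≤ C

/-- The assumptions on the steps of a chain. -/
def OK (δ C : ℝ) (J : ℕ) : List Step → Prop
  | [] => True
  | s :: ps => 1 ≤ s.1 ∧ Continuous s.2 ∧ Fib s.1 C s.2 ∧
      (∀ x y : UnitAddCircle, ‖x - y‖ ≤ 1 / ((s.1 * (J * pq ps) : ℕ) : ℝ) →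
        ‖s.2 x - s.2 y‖ ≤ δ / 2) ∧ OK δ C J ps

variable {δ C : ℝ} {J : ℕ}

lemma pq_pos : ∀ {ps : List Step}, OK δ C J ps → 0 < pq ps
  | [], _ => by simp
  | (q, ψ) :: ps, h => by
    rw [pq_cons]
    exact Nat.mul_pos (by have := h.1; exact this) (pq_pos h.2.2.2.2)

lemma inv_sqrt_le_one {q : ℕ} (hq : 1 ≤ q) : (Real.sqrt q)⁻¹ ≤ 1 := by
  apply inv_le_one_of_one_le₀
  rw [Real.one_le_sqrt]
  exact_mod_cast hq

lemma HF_nonneg (δ : ℝ) : ∀ (ps : List Step) (x : UnitAddCircle), 0 ≤ HF δ ps x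
  | [], _ => zero_le_one
  | s :: ps, x => by
    unfold HF
    apply mul_nonneg _ (HF_nonneg δ ps _)
    split_ifs
    · exact zero_le_one
    · positivity

lemma hf_nonneg (δ : ℝ) (J : ℕ) : ∀ (ps : List Step) (a : ℕ), 0 ≤ hf δ J ps a
  | [], _ => zero_le_one
  | s :: ps, a => by
    unfold hf
    apply mul_nonneg _ (hf_nonneg δ J ps _)
    split_ifs
    · exact zero_le_one
    · positivity

/-- The weight of a point is at most the weight of its cell. -/
lemma HF_le_hf (hJ : 0 < J) : ∀ (ps : List Step), OK δ C J ps → ∀ x : UnitAddCircle,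
    HF δ ps x ≤ hf δ J ps (cell (J * pq ps) x)
  | [], _, _ => le_rfl
  | (q, ψ) :: ps, h, x => by
    obtain ⟨hq, _, _, hosc, hps⟩ := h
    have hm : 0 < J * pq ps := Nat.mul_pos hJ (pq_pos hps)
    have hqm : 0 < q * (J * pq ps) := Nat.mul_pos hq hm
    have e : J * pq ((q, ψ) :: ps) = q * (J * pq ps) := by rw [pq_cons]; ring
    rw [e, HF_cons, hf_cons, ← cell_nsmul hm]
    apply mul_le_mul _ (HF_le_hf hJ ps hps _) (HF_nonneg _ _ _)
    · split_ifs
      · exact zero_le_one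
      · positivity
    · have h1 := hosc x _ (dist_cell hqm x)
      dsimp only at h1 ⊢
      split_ifs with h2 h3 h3
      · exact le_rfl
      · exfalso
        apply h3
        have := norm_sub_norm_le (ψ x) (ψ (((cell (q * (J * pq ps)) x : ℝ) /
          ((q * (J * pq ps) : ℕ) : ℝ) : ℝ) : UnitAddCircle))
        linarith
      · exact inv_sqrt_le_one hq
      · exact le_rfl

lemma sum_range_mul (f : ℕ → ℝ) (m : ℕ) : ∀ q : ℕ, ∑ a ∈ Finset.range (q * m), f a =
    ∑ b ∈ Finset.range m, ∑ j ∈ Finset.range q, f (j * m + b)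
  | 0 => by simp
  | q + 1 => by
    rw [add_mul, one_mul, Finset.sum_range_add, sum_range_mul f m q, ← Finset.sum_add_distrib]
    apply Finset.sum_congr rfl
    intro b _
    rw [Finset.sum_range_succ]

/-- The sum of the squares of the weights of the cells. -/
lemma sum_hf (hδ : 0 < δ) (hC : 0 ≤ C) (hJ : 0 < J) : ∀ (ps : List Step), OK δ C J ps →
    ∑ a ∈ Finset.range (J * pq ps), hf δ J ps a ^ 2 ≤ J * (4 * C / δ ^ 2 + 1) ^ ps.length
  | [], _ => by simp [hf]
  | (q, ψ) :: ps, h => by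
    obtain ⟨hq, _, hfib, _, hps⟩ := h
    dsimp only at hq hfib
    have hm : 0 < J * pq ps := Nat.mul_pos hJ (pq_pos hps)
    have hqR : (0 : ℝ) < q := by exact_mod_cast hq
    have hmR : (0 : ℝ) < ((J * pq ps : ℕ) : ℝ) := by exact_mod_cast hm
    have e : J * pq ((q, ψ) :: ps) = q * (J * pq ps) := by rw [pq_cons]; ring
    rw [e, sum_range_mul, List.length_cons, pow_succ, ← mul_assoc]
    have ih := sum_hf hδ hC hJ ps hps
    have hC' : 0 ≤ 4 * C / δ ^ 2 + 1 := by positivity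
    refine le_trans ?_ (mul_le_mul_of_nonneg_right ih hC')
    rw [Finset.sum_mul]
    apply Finset.sum_le_sum
    intro b hb
    rw [Finset.mem_range] at hb
    set g : ℕ → ℝ := fun j => ‖ψ ((((b : ℝ) / ((q * (J * pq ps) : ℕ) : ℝ) : ℝ) : UnitAddCircle) +
      (((j : ℝ) / q : ℝ) : UnitAddCircle))‖ with hg
    have h1 : ∀ j ∈ Finset.range q, hf δ J ((q, ψ) :: ps) (j * (J * pq ps) + b) ^ 2 =
        hf δ J ps b ^ 2 * (if δ / 2 ≤ g j then 1 else ((q : ℝ))⁻¹) := by
      intro j _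
      rw [hf_cons]
      have e1 : ((j * (J * pq ps) + b) % (J * pq ps)) = b := by
        rw [add_comm, Nat.add_mul_mod_self_right, Nat.mod_eq_of_lt hb]
      have e2 : ((((j * (J * pq ps) + b : ℕ) : ℝ) / ((q * (J * pq ps) : ℕ) : ℝ) : ℝ) :
          UnitAddCircle) = (((b : ℝ) / ((q * (J * pq ps) : ℕ) : ℝ) : ℝ) : UnitAddCircle) +
            (((j : ℝ) / q : ℝ) : UnitAddCircle) := by
        rw [← AddCircle.coe_add]
        congr 1
        rw [Nat.cast_add, Nat.cast_mul j, Nat.cast_mul q]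
        field_simp
        ring
      rw [e1, e2, mul_pow, mul_comm]
      congr 1
      have e3 : ‖ψ ((((b : ℝ) / ((q * (J * pq ps) : ℕ) : ℝ) : ℝ) : UnitAddCircle) +
        (((j : ℝ) / q : ℝ) : UnitAddCircle))‖ = g j := rfl
      rw [e3]
      split_ifs
      · norm_num
      · rw [inv_pow, Real.sq_sqrt hqR.le]
    rw [Finset.sum_congr rfl h1, ← Finset.mul_sum]
    apply mul_le_mul_of_nonneg_left _ (sq_nonneg _)
    have h2 : ∀ j ∈ Finset.range q, (if δ / 2 ≤ g j then (1 : ℝ) else ((q : ℝ))⁻¹) ≤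
        4 / δ ^ 2 * g j ^ 2 + (q : ℝ)⁻¹ := by
      intro j _
      have hq' : (0 : ℝ) < (q : ℝ)⁻¹ := by positivity
      split_ifs with h3
      · have h4 : (δ / 2) ^ 2 ≤ g j ^ 2 := pow_le_pow_left₀ (by positivity) h3 2
        have h5 : 4 / δ ^ 2 * (δ / 2) ^ 2 = 1 := by
          field_simp
          norm_num
        have h6 : 4 / δ ^ 2 * (δ / 2) ^ 2 ≤ 4 / δ ^ 2 * g j ^ 2 :=
          mul_le_mul_of_nonneg_left h4 (by positivity)
        linarith
      · have : 0 ≤ 4 / δ ^ 2 * g j ^ 2 := by positivity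
        linarith
    refine le_trans (Finset.sum_le_sum h2) ?_
    rw [Finset.sum_add_distrib, ← Finset.mul_sum, Finset.sum_const, Finset.card_range,
      nsmul_eq_mul, mul_inv_cancel₀ hqR.ne']
    have h7 : ∑ j ∈ Finset.range q, g j ^ 2 ≤ C := hfib _
    have h8 : 4 / δ ^ 2 * ∑ j ∈ Finset.range q, g j ^ 2 ≤ 4 / δ ^ 2 * C :=
      mul_le_mul_of_nonneg_left h7 (by positivity)
    have h9 : 4 / δ ^ 2 * C = 4 * C / δ ^ 2 := by ring
    linarith

lemma measurable_HF : ∀ (ps : List Step), OK δ C J ps → Measurable (HF δ ps)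
  | [], _ => measurable_const
  | (q, ψ) :: ps, h => by
    obtain ⟨_, hψ, _, _, hps⟩ := h
    have h1 : Measurable fun x : UnitAddCircle => q • x := (continuous_nsmul q).measurable
    have e : HF δ ((q, ψ) :: ps) = fun x => (if δ ≤ ‖ψ x‖ then 1 else (Real.sqrt q)⁻¹) *
        HF δ ps (q • x) := rfl
    rw [e]
    apply Measurable.mul _ ((measurable_HF ps hps).comp h1)
    apply Measurable.ite _ measurable_const measurable_const
    exact measurableSet_le measurable_const hψ.measurable.norm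

lemma HF_le_one : ∀ (ps : List Step), OK δ C J ps → ∀ x, HF δ ps x ≤ 1
  | [], _, _ => le_rfl
  | (q, ψ) :: ps, h, x => by
    obtain ⟨hq, _, _, _, hps⟩ := h
    rw [HF_cons]
    apply mul_le_one₀ _ (HF_nonneg _ _ _) (HF_le_one ps hps _)
    split_ifs
    · exact le_rfl
    · exact inv_sqrt_le_one hq

/-- The sum of the squares of the masses of the cells. -/
lemma sum_cell_sq (μ : Measure UnitAddCircle) [IsProbabilityMeasure μ] {m : ℕ} (hm : 0 < m) :
    ∑ a ∈ Finset.range m, μ.real (cell m ⁻¹' {a}) ^ 2 ≤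
      (μ.prod μ).real {z | ‖z.1 - z.2‖ < 1 / m} := by
  have hms : ∀ a, MeasurableSet (cell m ⁻¹' {a}) := fun a =>
    measurable_cell m (measurableSet_singleton a)
  have h1 : ∀ a ∈ Finset.range m, μ.real (cell m ⁻¹' {a}) ^ 2 =
      (μ.prod μ).real ((cell m ⁻¹' {a}) ×ˢ (cell m ⁻¹' {a})) := by
    intro a _
    rw [measureReal_prod_prod, sq]
  rw [Finset.sum_congr rfl h1, ← measureReal_biUnion_finset]
  · refine measureReal_mono ?_ (measure_ne_top _ _)
    intro z hz
    simp only [mem_iUnion] at hz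
    obtain ⟨a, _, ha⟩ := hz
    rw [mem_prod] at ha
    exact same_cell hm (ha.1.trans ha.2.symm)
  · intro a _ b _ hab
    rw [Function.onFun, Set.disjoint_left]
    rintro z ⟨hz, _⟩ ⟨hz', _⟩
    exact hab (hz.symm.trans hz')
  · intro a _
    exact (hms a).prod (hms a)

/-- **The correlation bound.** -/
theorem corr_lower (μ : Measure UnitAddCircle) [IsProbabilityMeasure μ] (hδ : 0 < δ) (hC : 0 ≤ C)
    (hJ : 0 < J) (ps : List Step) (h : OK δ C J ps) :
    (∫ x, HF δ ps x ∂μ) ^ 2 ≤ (μ.prod μ).real {z | ‖z.1 - z.2‖ < 1 / ((J * pq ps : ℕ) : ℝ)} *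
      (J * (4 * C / δ ^ 2 + 1) ^ ps.length) := by
  set m := J * pq ps with hm'
  have hm : 0 < m := Nat.mul_pos hJ (pq_pos h)
  have hms : ∀ a, MeasurableSet (cell m ⁻¹' {a}) := fun a =>
    measurable_cell m (measurableSet_singleton a)
  have h1 : ∫ x, HF δ ps x ∂μ ≤ ∑ a ∈ Finset.range m, μ.real (cell m ⁻¹' {a}) * hf δ J ps a := by
    have h2 : ∀ x, HF δ ps x ≤ ∑ a ∈ Finset.range m,
        (cell m ⁻¹' {a}).indicator (fun _ => hf δ J ps a) x := by
      intro x
      have h3 := Finset.single_le_sum (f := fun a => (cell m ⁻¹' {a}).indicator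
        (fun _ => hf δ J ps a) x) (fun a _ => Set.indicator_nonneg
          (fun _ _ => hf_nonneg δ J ps a) x) (Finset.mem_range.mpr (cell_lt hm x))
      refine le_trans (HF_le_hf hJ ps h x) (le_trans ?_ h3)
      rw [Set.indicator_of_mem (show x ∈ cell m ⁻¹' {cell m x} from rfl)]
    have hi : ∀ a, Integrable ((cell m ⁻¹' {a}).indicator (fun _ => hf δ J ps a)) μ := fun a =>
      (integrable_const _).indicator (hms a)
    have h4 : Integrable (HF δ ps) μ := by
      refine Integrable.of_bound (C := 1) (measurable_HF ps h).aestronglyMeasurable ?_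
      refine Eventually.of_forall fun x => ?_
      rw [Real.norm_of_nonneg (HF_nonneg _ _ _)]
      exact HF_le_one ps h x
    refine le_trans (integral_mono h4 (integrable_finsetSum _ fun a _ => hi a) h2) ?_
    rw [integral_finsetSum _ fun a _ => hi a]
    apply Finset.sum_le_sum
    intro a _
    rw [integral_indicator_const _ (hms a), smul_eq_mul]
  have h0 : 0 ≤ ∫ x, HF δ ps x ∂μ := integral_nonneg fun x => HF_nonneg _ _ _
  calc (∫ x, HF δ ps x ∂μ) ^ 2 ≤ (∑ a ∈ Finset.range m, μ.real (cell m ⁻¹' {a}) * hf δ J ps a) ^ 2 :=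
        pow_le_pow_left₀ h0 h1 2
    _ ≤ (∑ a ∈ Finset.range m, μ.real (cell m ⁻¹' {a}) ^ 2) * ∑ a ∈ Finset.range m, hf δ J ps a ^ 2 :=
        Finset.sum_mul_sq_le_sq_mul_sq _ _ _
    _ ≤ _ := mul_le_mul (sum_cell_sq μ hm) (sum_hf hδ hC hJ ps h)
        (Finset.sum_nonneg fun _ _ => sq_nonneg _) measureReal_nonneg

end Pool.Agent.H237.Zero
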