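import Mathlib
import Pool.Agent.H237.Zero.Cells

/-!
# The lower bound for the mean weight
-/

namespace Pool.Agent.H237.Zero

open MeasureTheory Set Filter Topology Pool.Agent.H237.Gap

variable {δ C : ℝ} {J : ℕ}

/-- The total logarithmic size of the steps with small control. -/
noncomputable def BS (δ : ℝ) : List Step → UnitAddCircle → ℝ
  | [], _ => 0
  | s :: ps, x => (if δ ≤ ‖s.2 x‖ then 0 else Real.log s.1) + BS δ ps (s.1 • x)

lemma BS_cons (δ : ℝ) (q : ℕ) (ψ : UnitAddCircle → ℂ) (ps : List Step) (x : UnitAddCircle) :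
    BS δ ((q, ψ) :: ps) x = (if δ ≤ ‖ψ x‖ then 0 else Real.log q) + BS δ ps (q • x) := rfl

/-- The cost of a chain: the mean square distances between the controls and the final value. -/
noncomputable def CS (μ : Measure UnitAddCircle) (φ : UnitAddCircle → ℂ) : List Step → ℝ
  | [] => 0
  | s :: ps => Real.log s.1 * (∫ x, ‖φ ((s.1 * pq ps) • x) - s.2 x‖ ^ 2 ∂μ) + CS μ φ ps

lemma CS_cons (μ : Measure UnitAddCircle) (φ : UnitAddCircle → ℂ) (q : ℕ)
    (ψ : UnitAddCircle → ℂ) (ps : List Step) :
    CS μ φ ((q, ψ) :: ps) = Real.log q * (∫ x, ‖φ ((q * pq ps) • x) - ψ x‖ ^ 2 ∂μ) +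
      CS μ φ ps := rfl

lemma HF_eq : ∀ (ps : List Step), OK δ C J ps → ∀ x, HF δ ps x = Real.exp (-(BS δ ps x) / 2)
  | [], _, x => by simp [HF, BS]
  | (q, ψ) :: ps, h, x => by
    obtain ⟨hq, _, _, _, hps⟩ := h
    dsimp only at hq
    have hqR : (0 : ℝ) < q := by exact_mod_cast hq
    rw [HF_cons, BS_cons, HF_eq ps hps]
    split_ifs with h1
    · rw [one_mul, zero_add]
    · have e : (Real.sqrt q)⁻¹ = Real.exp (-Real.log q / 2) := by
        rw [Real.sqrt_eq_rpow, Real.rpow_def_of_pos hqR, ← Real.exp_neg]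
        congr 1
        ring
      rw [e, ← Real.exp_add]
      congr 1
      ring

lemma BS_nonneg : ∀ (ps : List Step), OK δ C J ps → ∀ x, 0 ≤ BS δ ps x
  | [], _, _ => le_rfl
  | (q, ψ) :: ps, h, x => by
    obtain ⟨hq, _, _, _, hps⟩ := h
    rw [BS_cons]
    apply add_nonneg _ (BS_nonneg ps hps _)
    split_ifs
    · exact le_rfl
    · exact Real.log_natCast_nonneg q

lemma BS_le : ∀ (ps : List Step), OK δ C J ps → ∀ x, BS δ ps x ≤ Real.log (pq ps)
  | [], _, _ => by simp [BS]
  | (q, ψ) :: ps, h, x => by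
    have h' := h
    obtain ⟨hq, _, _, _, hps⟩ := h
    dsimp only at hq
    have hqR : (0 : ℝ) < q := by exact_mod_cast hq
    have hp : (0 : ℝ) < pq ps := by exact_mod_cast pq_pos hps
    rw [BS_cons, pq_cons, Nat.cast_mul, Real.log_mul hqR.ne' hp.ne']
    apply add_le_add _ (BS_le ps hps _)
    split_ifs
    · exact Real.log_natCast_nonneg q
    · exact le_rfl

lemma measurable_BS : ∀ (ps : List Step), OK δ C J ps → Measurable (BS δ ps)
  | [], _ => measurable_const
  | (q, ψ) :: ps, h => by
    obtain ⟨_, hψ, _, _, hps⟩ := h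
    have h1 : Measurable fun x : UnitAddCircle => q • x := (continuous_nsmul q).measurable
    have e : BS δ ((q, ψ) :: ps) = fun x => (if δ ≤ ‖ψ x‖ then 0 else Real.log q) +
        BS δ ps (q • x) := rfl
    rw [e]
    apply Measurable.add _ ((measurable_BS ps hps).comp h1)
    apply Measurable.ite _ measurable_const measurable_const
    exact measurableSet_le measurable_const hψ.measurable.norm

lemma inv_integral {μ : Measure UnitAddCircle} {q : ℕ} (h : Inv μ q) {F : UnitAddCircle → ℝ}
    (hF : Measurable F) : ∫ x, F (q • x) ∂μ = ∫ x, F x ∂μ := by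
  have h1 := integral_map (μ := μ) h.measurable.aemeasurable (f := F)
    (by rw [h.map_eq]; exact hF.aestronglyMeasurable)
  rw [h.map_eq] at h1
  exact h1.symm

lemma contR_integrable (μ : Measure UnitAddCircle) [IsFiniteMeasure μ] {f : UnitAddCircle → ℝ}
    (hf : Continuous f) : Integrable f μ :=
  (BoundedContinuousFunction.mkOfCompact ⟨f, hf⟩).integrable μ

/-- The set of the points with large final value. -/
def GG (φ : UnitAddCircle → ℂ) (δ : ℝ) (ps : List Step) : Set UnitAddCircle :=
  {x | 2 * δ ≤ ‖φ (pq ps • x)‖}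

lemma measurableSet_GG {φ : UnitAddCircle → ℂ} (hφ : Continuous φ) (δ : ℝ) (ps : List Step) :
    MeasurableSet (GG φ δ ps) :=
  (isClosed_le continuous_const (hφ.comp (continuous_nsmul _)).norm).measurableSet

lemma cost (μ : Measure UnitAddCircle) [IsProbabilityMeasure μ] {φ : UnitAddCircle → ℂ}
    (hφ : Continuous φ) (hδ : 0 < δ) : ∀ (ps : List Step), OK δ C J ps →
    (∀ s ∈ ps, Inv μ s.1) →
    δ ^ 2 * ∫ x, (GG φ δ ps).indicator (BS δ ps) x ∂μ ≤ CS μ φ ps
  | [], _, _ => by
    have e : (fun x => (GG φ δ []).indicator (BS δ []) x) = fun _ => (0 : ℝ) := by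
      ext x
      apply Set.indicator_apply_eq_zero.mpr
      intro _
      rfl
    rw [e]
    simp [CS]
  | (q, ψ) :: ps, h, hinv => by
    have h' := h
    obtain ⟨hq, hψ, _, _, hps⟩ := h
    dsimp only at hq hψ
    have hiq : Inv μ q := hinv (q, ψ) List.mem_cons_self
    have ih := cost μ hφ hδ ps hps (fun s hs => hinv s (List.mem_cons_of_mem _ hs))
    have hmG := measurableSet_GG hφ δ ps
    have hlq : 0 ≤ Real.log q := Real.log_natCast_nonneg q
    rw [CS_cons]
    have hFm : Measurable ((GG φ δ ps).indicator (BS δ ps)) := (measurable_BS ps hps).indicator hmG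
    have hint : ∀ (ps : List Step), OK δ C J ps →
        Integrable (fun x => (GG φ δ ps).indicator (BS δ ps) x) μ := by
      intro ps hps
      refine Integrable.of_bound (C := Real.log (pq ps))
        ((measurable_BS ps hps).indicator (measurableSet_GG hφ δ ps)).aestronglyMeasurable ?_
      refine Eventually.of_forall fun x => ?_
      rw [Real.norm_of_nonneg (Set.indicator_nonneg (fun x _ => BS_nonneg ps hps x) x)]
      by_cases hx : x ∈ GG φ δ ps
      · rw [Set.indicator_of_mem hx]
        exact BS_le ps hps x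
      · rw [Set.indicator_of_notMem hx]
        exact Real.log_natCast_nonneg _
    have hcont : Continuous fun x => ‖φ ((q * pq ps) • x) - ψ x‖ ^ 2 := by
      have : Continuous fun x : UnitAddCircle => (q * pq ps) • x := continuous_nsmul _
      fun_prop
    have hpt : ∀ x, δ ^ 2 * (GG φ δ ((q, ψ) :: ps)).indicator (BS δ ((q, ψ) :: ps)) x ≤
        Real.log q * ‖φ ((q * pq ps) • x) - ψ x‖ ^ 2 +
          δ ^ 2 * (GG φ δ ps).indicator (BS δ ps) (q • x) := by
      intro x
      have e : (q * pq ps) • x = pq ps • q • x := by rw [mul_comm, mul_smul]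
      have e2 : x ∈ GG φ δ ((q, ψ) :: ps) ↔ q • x ∈ GG φ δ ps := by
        unfold GG
        rw [mem_ofPred_eq, mem_ofPred_eq, pq_cons, e]
      by_cases hx : q • x ∈ GG φ δ ps
      · rw [Set.indicator_of_mem (e2.mpr hx), Set.indicator_of_mem hx, BS_cons, mul_add]
        have hx' : 2 * δ ≤ ‖φ ((q * pq ps) • x)‖ := by rw [e]; exact hx
        split_ifs with h1
        · rw [mul_zero]
          have : 0 ≤ Real.log q * ‖φ ((q * pq ps) • x) - ψ x‖ ^ 2 := by positivity
          linarith
        · have h2 : δ ≤ ‖φ ((q * pq ps) • x) - ψ x‖ := by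
            have := norm_sub_norm_le (φ ((q * pq ps) • x)) (ψ x)
            linarith
          have h3 : δ ^ 2 ≤ ‖φ ((q * pq ps) • x) - ψ x‖ ^ 2 := pow_le_pow_left₀ hδ.le h2 2
          have h4 : δ ^ 2 * Real.log q ≤ Real.log q * ‖φ ((q * pq ps) • x) - ψ x‖ ^ 2 := by
            rw [mul_comm]
            exact mul_le_mul_of_nonneg_left h3 hlq
          linarith
      · rw [Set.indicator_of_notMem (fun hh => hx (e2.mp hh)), Set.indicator_of_notMem hx, mul_zero,
          add_zero]
        positivity
    have hi2 : Integrable (fun x => (GG φ δ ps).indicator (BS δ ps) (q • x)) μ := by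
      have := hint ps hps
      have h5 := hiq.integrable_comp (g := (GG φ δ ps).indicator (BS δ ps))
        hFm.aestronglyMeasurable
      exact h5.mpr this
    calc δ ^ 2 * ∫ x, (GG φ δ ((q, ψ) :: ps)).indicator (BS δ ((q, ψ) :: ps)) x ∂μ
        = ∫ x, δ ^ 2 * (GG φ δ ((q, ψ) :: ps)).indicator (BS δ ((q, ψ) :: ps)) x ∂μ :=
          (integral_const_mul _ _).symm
      _ ≤ ∫ x, (Real.log q * ‖φ ((q * pq ps) • x) - ψ x‖ ^ 2 +
          δ ^ 2 * (GG φ δ ps).indicator (BS δ ps) (q • x)) ∂μ :=
          integral_mono ((hint _ h').const_mul _)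
            (((contR_integrable μ hcont).const_mul _).add (hi2.const_mul _)) hpt
      _ = Real.log q * (∫ x, ‖φ ((q * pq ps) • x) - ψ x‖ ^ 2 ∂μ) +
          δ ^ 2 * ∫ x, (GG φ δ ps).indicator (BS δ ps) (q • x) ∂μ := by
          rw [integral_add ((contR_integrable μ hcont).const_mul _) (hi2.const_mul _),
            integral_const_mul, integral_const_mul]
      _ ≤ _ := by
          rw [inv_integral hiq hFm]
          linarith

/-- **The correlation of an invariant measure with a nonzero mean value `φ`.** -/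
theorem corr_cost (μ : Measure UnitAddCircle) [IsProbabilityMeasure μ] {φ : UnitAddCircle → ℂ}
    (hφ : Continuous φ) (hφ1 : ∀ x, ‖φ x‖ ≤ 1) (hδ : 0 < δ) (hC : 0 ≤ C) (hJ : 0 < J)
    (ps : List Step) (h : OK δ C J ps) (hinv : ∀ s ∈ ps, Inv μ s.1)
    (hc : 4 * δ ≤ ‖∫ x, φ (pq ps • x) ∂μ‖) :
    4 * δ ^ 2 * Real.exp (-(CS μ φ ps) / (2 * δ ^ 3)) ≤
      (μ.prod μ).real {z | ‖z.1 - z.2‖ < 1 / ((J * pq ps : ℕ) : ℝ)} *
      (J * (4 * C / δ ^ 2 + 1) ^ ps.length) := by
  refine le_trans ?_ (corr_lower μ hδ hC hJ ps h)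
  have hcost := cost μ hφ hδ ps h hinv
  have hmG := measurableSet_GG hφ δ ps
  set G := GG φ δ ps with hG
  have hCS0 : 0 ≤ CS μ φ ps := by
    refine le_trans ?_ hcost
    apply mul_nonneg (sq_nonneg _)
    exact integral_nonneg fun x => Set.indicator_nonneg (fun x _ => BS_nonneg ps h x) x
  -- the mass of `G`
  have hμG : 2 * δ ≤ μ.real G := by
    have h1 : ‖∫ x, φ (pq ps • x) ∂μ‖ ≤ ∫ x, ‖φ (pq ps • x)‖ ∂μ := norm_integral_le_integral_norm _
    have hcont : Continuous fun x => ‖φ (pq ps • x)‖ := by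
      have : Continuous fun x : UnitAddCircle => pq ps • x := continuous_nsmul _
      fun_prop
    have h2 : ∫ x, ‖φ (pq ps • x)‖ ∂μ ≤ ∫ x, (2 * δ + G.indicator (fun _ => (1 : ℝ)) x) ∂μ := by
      apply integral_mono (contR_integrable μ hcont)
        ((integrable_const _).add ((integrable_const _).indicator hmG))
      intro x
      change ‖φ (pq ps • x)‖ ≤ 2 * δ + G.indicator (fun _ => (1 : ℝ)) x
      by_cases hx : x ∈ G
      · rw [Set.indicator_of_mem hx]
        have := hφ1 (pq ps • x)
        linarith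
      · rw [Set.indicator_of_notMem hx]
        have : ¬ 2 * δ ≤ ‖φ (pq ps • x)‖ := hx
        linarith
    rw [integral_add (integrable_const _) ((integrable_const _).indicator hmG), integral_const,
      integral_indicator_const _ hmG, probReal_univ, one_smul, smul_eq_mul, mul_one] at h2
    linarith
  set a := CS μ φ ps / (4 * δ ^ 3) with ha
  have ha0 : 0 ≤ a := by positivity
  have hHi : Integrable (HF δ ps) μ := by
    refine Integrable.of_bound (C := 1) (measurable_HF ps h).aestronglyMeasurable ?_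
    refine Eventually.of_forall fun x => ?_
    rw [Real.norm_of_nonneg (HF_nonneg _ _ _)]
    exact HF_le_one ps h x
  have hBi : Integrable (fun x => G.indicator (BS δ ps) x) μ := by
    refine Integrable.of_bound (C := Real.log (pq ps))
      ((measurable_BS ps h).indicator hmG).aestronglyMeasurable ?_
    refine Eventually.of_forall fun x => ?_
    rw [Real.norm_of_nonneg (Set.indicator_nonneg (fun x _ => BS_nonneg ps h x) x)]
    by_cases hx : x ∈ G
    · rw [Set.indicator_of_mem hx]
      exact BS_le ps h x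
    · rw [Set.indicator_of_notMem hx]
      exact Real.log_natCast_nonneg _
  have h1 : ∫ x, (Real.exp (-a) * ((1 + a) * G.indicator (fun _ => (1 : ℝ)) x -
      1 / 2 * G.indicator (BS δ ps) x)) ∂μ ≤ ∫ x, HF δ ps x ∂μ := by
    refine integral_mono ?_ hHi ?_
    · exact ((((integrable_const _).indicator hmG).const_mul _).sub (hBi.const_mul _)).const_mul _
    · intro x
      dsimp only
      by_cases hx : x ∈ G
      · rw [Set.indicator_of_mem hx, Set.indicator_of_mem hx, HF_eq ps h]
        have h3 : Real.exp (-(BS δ ps x) / 2) = Real.exp (-a) * Real.exp (a - BS δ ps x / 2) := by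
          rw [← Real.exp_add]
          congr 1
          ring
        rw [h3]
        apply mul_le_mul_of_nonneg_left _ (Real.exp_pos _).le
        have := Real.add_one_le_exp (a - BS δ ps x / 2)
        linarith
      · rw [Set.indicator_of_notMem hx, Set.indicator_of_notMem hx, mul_zero, mul_zero, sub_zero,
          mul_zero]
        exact HF_nonneg _ _ _
  rw [integral_const_mul, integral_sub (((integrable_const _).indicator hmG).const_mul _)
    (hBi.const_mul _), integral_const_mul, integral_const_mul, integral_indicator_const _ hmG,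
    smul_eq_mul, mul_one] at h1
  have h2 : 1 / 2 * ∫ x, G.indicator (BS δ ps) x ∂μ ≤ a * (2 * δ) := by
    have h3 : ∫ x, G.indicator (BS δ ps) x ∂μ ≤ CS μ φ ps / δ ^ 2 := by
      rw [le_div_iff₀ (by positivity), mul_comm]
      exact hcost
    have h4 : a * (2 * δ) = 1 / 2 * (CS μ φ ps / δ ^ 2) := by
      rw [ha]
      field_simp
      ring
    rw [h4]
    linarith
  have h3 : Real.exp (-a) * (2 * δ) ≤ ∫ x, HF δ ps x ∂μ := by
    refine le_trans ?_ h1
    apply mul_le_mul_of_nonneg_left _ (Real.exp_pos _).le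
    have : a * (2 * δ) ≤ a * μ.real G := mul_le_mul_of_nonneg_left hμG ha0
    linarith
  have h4 : 4 * δ ^ 2 * Real.exp (-(CS μ φ ps) / (2 * δ ^ 3)) = (Real.exp (-a) * (2 * δ)) ^ 2 := by
    have h5 : -(CS μ φ ps) / (2 * δ ^ 3) = -a + -a := by
      rw [ha]
      field_simp
      ring
    rw [h5, Real.exp_add]
    ring
  rw [h4]
  exact pow_le_pow_left₀ (by positivity) h3 2

end Pool.Agent.H237.Zero
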