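import Mathlib
import Pool.Agent.H237.Zero.Bad

/-!
# Averages in many directions: removing one direction costs little on average
-/

namespace Pool.Agent.H237.Zero

open MeasureTheory Set Filter Topology Pool.Agent.H237.Gap

/-- The average of `f` over the first `H` powers of `x ↦ q x`. -/
noncomputable def Av (q H : ℕ) (f : UnitAddCircle → ℂ) (x : UnitAddCircle) : ℂ :=
  (H : ℂ)⁻¹ * ∑ t ∈ Finset.range H, f (q ^ t • x)

/-- The successive averages. -/
noncomputable def avs (H : ℕ) : List ℕ → (UnitAddCircle → ℂ) → UnitAddCircle → ℂ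
  | [], f => f
  | q :: L, f => Av q H (avs H L f)

@[simp] lemma avs_nil (H : ℕ) (f : UnitAddCircle → ℂ) : avs H [] f = f := rfl

@[simp] lemma avs_cons (H q : ℕ) (L : List ℕ) (f : UnitAddCircle → ℂ) :
    avs H (q :: L) f = Av q H (avs H L f) := rfl

lemma Av_comm (a b H : ℕ) (f : UnitAddCircle → ℂ) : Av a H (Av b H f) = Av b H (Av a H f) := by
  ext x
  unfold Av
  simp_rw [Finset.mul_sum]
  rw [Finset.sum_comm]
  apply Finset.sum_congr rfl
  intro s _
  apply Finset.sum_congr rfl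
  intro t _
  rw [smul_comm]

lemma avs_perm {H : ℕ} {f : UnitAddCircle → ℂ} {L L' : List ℕ} (h : L.Perm L') :
    avs H L f = avs H L' f := by
  induction h with
  | nil => rfl
  | cons a _ ih => rw [avs_cons, avs_cons, ih]
  | swap a b L => rw [avs_cons, avs_cons, avs_cons, avs_cons, Av_comm]
  | trans _ _ ih1 ih2 => exact ih1.trans ih2

lemma avs_append (H : ℕ) (L L' : List ℕ) (f : UnitAddCircle → ℂ) :
    avs H (L ++ L') f = avs H L (avs H L' f) := by
  induction L with
  | nil => rfl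
  | cons a L ih => rw [List.cons_append, avs_cons, avs_cons, ih]

lemma continuous_Av {q H : ℕ} {f : UnitAddCircle → ℂ} (hf : Continuous f) :
    Continuous (Av q H f) := by
  unfold Av
  apply Continuous.mul continuous_const
  apply continuous_finsetSum
  intro t _
  exact hf.comp (continuous_nsmul _)

lemma continuous_avs {H : ℕ} {f : UnitAddCircle → ℂ} (hf : Continuous f) (L : List ℕ) :
    Continuous (avs H L f) := by
  induction L with
  | nil => exact hf
  | cons a L ih => exact continuous_Av ih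

lemma norm_Av_le {q H : ℕ} {f : UnitAddCircle → ℂ} (hf : ∀ x, ‖f x‖ ≤ 1) (x : UnitAddCircle) :
    ‖Av q H f x‖ ≤ 1 := by
  unfold Av
  rw [norm_mul, norm_inv, Complex.norm_natCast]
  rcases Nat.eq_zero_or_pos H with h | h
  · subst h; simp
  · have hL : (0 : ℝ) < H := by exact_mod_cast h
    rw [inv_mul_le_iff₀ hL, mul_one]
    refine le_trans (norm_sum_le _ _) (le_trans (Finset.sum_le_sum fun t _ => hf _) ?_)
    simp

lemma norm_avs_le {H : ℕ} {f : UnitAddCircle → ℂ} (hf : ∀ x, ‖f x‖ ≤ 1) (L : List ℕ) :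
    ∀ x, ‖avs H L f x‖ ≤ 1 := by
  induction L with
  | nil => exact hf
  | cons a L ih => exact norm_Av_le ih

/-- The mean square. -/
noncomputable def N2 (μ : Measure UnitAddCircle) (f : UnitAddCircle → ℂ) : ℝ :=
  ∫ x, ‖f x‖ ^ 2 ∂μ

variable {μ : Measure UnitAddCircle}

lemma int_sq [IsProbabilityMeasure μ] {f : UnitAddCircle → ℂ} (hf : Continuous f) : Integrable (fun x => ‖f x‖ ^ 2) μ :=
  contR_integrable μ (by fun_prop)

lemma N2_nonneg (f : UnitAddCircle → ℂ) : 0 ≤ N2 μ f := integral_nonneg fun _ => sq_nonneg _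

lemma N2_inv {q : ℕ} (h : Inv μ q) {f : UnitAddCircle → ℂ} (hf : Continuous f) :
    N2 μ (fun x => f (q • x)) = N2 μ f :=
  inv_integral h (F := fun x => ‖f x‖ ^ 2) (by fun_prop)

variable [IsProbabilityMeasure μ]

lemma normSq_sum_le {ι : Type*} (s : Finset ι) (z : ι → ℂ) :
    ‖∑ i ∈ s, z i‖ ^ 2 ≤ s.card * ∑ i ∈ s, ‖z i‖ ^ 2 := by
  refine le_trans (pow_le_pow_left₀ (norm_nonneg _) (norm_sum_le _ _) 2) ?_
  exact sq_sum_le_card_mul_sum_sq

lemma sum_sum_normSq (H : ℕ) (a : ℕ → ℂ) :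
    ∑ s ∈ Finset.range H, ∑ t ∈ Finset.range H, ‖a s - a t‖ ^ 2 =
      2 * H * ∑ s ∈ Finset.range H, ‖a s‖ ^ 2 - 2 * ‖∑ s ∈ Finset.range H, a s‖ ^ 2 := by
  have h1 : ∀ s t, ‖a s - a t‖ ^ 2 = ‖a s‖ ^ 2 - 2 * inner ℝ (a s) (a t) + ‖a t‖ ^ 2 := fun s t =>
    norm_sub_sq_real _ _
  have h2 : ∑ s ∈ Finset.range H, ∑ t ∈ Finset.range H, inner ℝ (a s) (a t) =
      ‖∑ s ∈ Finset.range H, a s‖ ^ 2 := by
    rw [← real_inner_self_eq_norm_sq, sum_inner]
    apply Finset.sum_congr rfl
    intro s _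
    rw [inner_sum]
  simp_rw [h1, Finset.sum_add_distrib, Finset.sum_sub_distrib, ← Finset.mul_sum]
  rw [h2]
  simp only [Finset.sum_const, Finset.card_range, nsmul_eq_mul]
  rw [← Finset.mul_sum]
  ring

/-- The loss of the mean square under averaging. -/
noncomputable def Qe (μ : Measure UnitAddCircle) (q H : ℕ) (f : UnitAddCircle → ℂ) : ℝ :=
  N2 μ f - N2 μ (Av q H f)

lemma Qe_eq {q H : ℕ} (hq : Inv μ q) (hH : 0 < H) {f : UnitAddCircle → ℂ} (hf : Continuous f) :
    2 * (H : ℝ) ^ 2 * Qe μ q H f =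
      ∑ s ∈ Finset.range H, ∑ t ∈ Finset.range H, ∫ x, ‖f (q ^ s • x) - f (q ^ t • x)‖ ^ 2 ∂μ := by
  have hHR : (0 : ℝ) < H := by exact_mod_cast hH
  have hc : ∀ s : ℕ, Continuous fun x : UnitAddCircle => f (q ^ s • x) := fun s =>
    hf.comp (continuous_nsmul _)
  have h1 : ∀ s t : ℕ, Integrable (fun x => ‖f (q ^ s • x) - f (q ^ t • x)‖ ^ 2) μ := fun s t =>
    int_sq ((hc s).sub (hc t))
  have h2 : ∑ s ∈ Finset.range H, ∑ t ∈ Finset.range H, ∫ x, ‖f (q ^ s • x) - f (q ^ t • x)‖ ^ 2 ∂μ =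
      ∫ x, ∑ s ∈ Finset.range H, ∑ t ∈ Finset.range H, ‖f (q ^ s • x) - f (q ^ t • x)‖ ^ 2 ∂μ := by
    rw [integral_finsetSum _ fun s _ => integrable_finsetSum _ fun t _ => h1 s t]
    apply Finset.sum_congr rfl
    intro s _
    rw [integral_finsetSum _ fun t _ => h1 s t]
  rw [h2]
  have h3 : ∀ x, ∑ s ∈ Finset.range H, ∑ t ∈ Finset.range H, ‖f (q ^ s • x) - f (q ^ t • x)‖ ^ 2 =
      2 * H * ∑ s ∈ Finset.range H, ‖f (q ^ s • x)‖ ^ 2 - 2 * H ^ 2 * ‖Av q H f x‖ ^ 2 := by
    intro x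
    rw [sum_sum_normSq]
    congr 1
    unfold Av
    rw [norm_mul, norm_inv, Complex.norm_natCast, mul_pow, inv_pow, ← mul_assoc]
    congr 1
    field_simp
  simp_rw [h3]
  rw [integral_sub, integral_const_mul, integral_const_mul,
    integral_finsetSum _ fun s _ => int_sq (hc s)]
  · have h4 : ∀ s ∈ Finset.range H, ∫ x, ‖f (q ^ s • x)‖ ^ 2 ∂μ = N2 μ f := fun s _ =>
      N2_inv (hq.pow s) hf
    rw [Finset.sum_congr rfl h4, Finset.sum_const, Finset.card_range, nsmul_eq_mul]
    unfold Qe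
    have : ∫ x, ‖Av q H f x‖ ^ 2 ∂μ = N2 μ (Av q H f) := rfl
    rw [this]
    ring
  · exact (integrable_finsetSum _ fun s _ => int_sq (hc s)).const_mul _
  · exact (int_sq (continuous_Av hf)).const_mul _

lemma N2_Av_le {q H : ℕ} (hq : Inv μ q) {f : UnitAddCircle → ℂ} (hf : Continuous f) :
    N2 μ (Av q H f) ≤ N2 μ f := by
  rcases Nat.eq_zero_or_pos H with h | h
  · subst h
    have : N2 μ (Av q 0 f) = 0 := by
      unfold N2 Av
      simp
    rw [this]
    exact N2_nonneg _
  · have h1 := Qe_eq hq h hf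
    have h2 : 0 ≤ 2 * (H : ℝ) ^ 2 * Qe μ q H f := by
      rw [h1]
      exact Finset.sum_nonneg fun s _ => Finset.sum_nonneg fun t _ =>
        integral_nonneg fun x => sq_nonneg _
    have hHR : (0 : ℝ) < H := by exact_mod_cast h
    have h3 : 0 ≤ Qe μ q H f := by
      by_contra h4
      push Not at h4
      have : 2 * (H : ℝ) ^ 2 * Qe μ q H f < 0 := mul_neg_of_pos_of_neg (by positivity) h4
      linarith
    unfold Qe at h3
    linarith

lemma Qe_Av_le {q b H : ℕ} (hq : Inv μ q) (hb : Inv μ b) (hH : 0 < H) {f : UnitAddCircle → ℂ}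
    (hf : Continuous f) : Qe μ q H (Av b H f) ≤ Qe μ q H f := by
  have hHR : (0 : ℝ) < H := by exact_mod_cast hH
  have h1 : 2 * (H : ℝ) ^ 2 * Qe μ q H (Av b H f) ≤ 2 * (H : ℝ) ^ 2 * Qe μ q H f := by
    rw [Qe_eq hq hH hf, Qe_eq hq hH (continuous_Av hf)]
    apply Finset.sum_le_sum
    intro s _
    apply Finset.sum_le_sum
    intro t _
    have hc : Continuous fun x : UnitAddCircle => f (q ^ s • x) - f (q ^ t • x) :=
      (hf.comp (continuous_nsmul _)).sub (hf.comp (continuous_nsmul _))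
    have h2 := N2_Av_le (μ := μ) hb (H := H) hc
    have h3 : Av b H (fun x => f (q ^ s • x) - f (q ^ t • x)) =
        fun x => Av b H f (q ^ s • x) - Av b H f (q ^ t • x) := by
      ext x
      unfold Av
      rw [← mul_sub, ← Finset.sum_sub_distrib]
      congr 1
      apply Finset.sum_congr rfl
      intro u _
      dsimp only
      rw [smul_comm (q ^ s) (b ^ u), smul_comm (q ^ t) (b ^ u)]
    rw [h3] at h2
    exact h2
  exact le_of_mul_le_mul_left h1 (by positivity)

lemma Qe_avs_le {q H : ℕ} (hq : Inv μ q) (hH : 0 < H) {f : UnitAddCircle → ℂ}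
    (hf : Continuous f) : ∀ L : List ℕ, (∀ b ∈ L, Inv μ b) → Qe μ q H (avs H L f) ≤ Qe μ q H f
  | [], _ => le_rfl
  | b :: L, h => by
    rw [avs_cons]
    exact le_trans (Qe_Av_le hq (h b List.mem_cons_self) hH (continuous_avs hf L))
      (Qe_avs_le hq hH hf L fun c hc => h c (List.mem_cons_of_mem _ hc))

/-- The sum of the losses over all directions, each with the others averaged out. -/
noncomputable def esum (μ : Measure UnitAddCircle) (H : ℕ) (f : UnitAddCircle → ℂ) :
    List ℕ → List ℕ → ℝ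
  | _, [] => 0
  | pre, q :: rest => Qe μ q H (avs H (pre ++ rest) f) + esum μ H f (q :: pre) rest

lemma esum_le {H : ℕ} (hH : 0 < H) {f : UnitAddCircle → ℂ} (hf : Continuous f) :
    ∀ (suf pre : List ℕ), (∀ b ∈ pre, Inv μ b) → (∀ b ∈ suf, Inv μ b) →
      esum μ H f pre suf ≤ N2 μ (avs H pre f) - N2 μ (avs H (pre ++ suf) f)
  | [], pre, _, _ => by
    unfold esum
    rw [List.append_nil, sub_self]
  | q :: rest, pre, hp, hs => by
    unfold esum
    have hq : Inv μ q := hs q List.mem_cons_self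
    have hr : ∀ b ∈ rest, Inv μ b := fun b hb => hs b (List.mem_cons_of_mem _ hb)
    have ih := esum_le hH hf rest (q :: pre) (by
      intro b hb
      rcases List.mem_cons.mp hb with h | h
      · rw [h]; exact hq
      · exact hp b h) hr
    have h1 : avs H (pre ++ rest) f = avs H rest (avs H pre f) := by
      rw [← avs_append]
      exact avs_perm List.perm_append_comm
    have h2 : Qe μ q H (avs H (pre ++ rest) f) ≤ N2 μ (avs H pre f) - N2 μ (avs H (q :: pre) f) := by
      rw [h1]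
      exact Qe_avs_le hq hH (continuous_avs hf pre) rest hr
    have h3 : avs H (q :: pre ++ rest) f = avs H (pre ++ q :: rest) f :=
      avs_perm List.perm_middle.symm
    rw [h3] at ih
    linarith

/-- **Removing the average in one direction.** -/
lemma remove {q h : ℕ} (hq : Inv μ q) (hh : 0 < h) {f : UnitAddCircle → ℂ} (hf : Continuous f)
    (v : ℕ) : ∫ x, ‖Av q (4 * h) f (q ^ v • x) - f x‖ ^ 2 ∂μ ≤
      64 * ((v / h : ℕ) + 5 : ℝ) ^ 2 * Qe μ q (4 * h) f := by
  have hhR : (0 : ℝ) < h := by exact_mod_cast hh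
  set Q := Qe μ q (4 * h) f with hQ
  set d : ℕ → ℝ := fun u => ∫ x, ‖f (q ^ u • x) - f x‖ ^ 2 ∂μ with hd
  have hc : ∀ s : ℕ, Continuous fun x : UnitAddCircle => f (q ^ s • x) := fun s =>
    hf.comp (continuous_nsmul _)
  have hd0 : ∀ u, 0 ≤ d u := fun u => integral_nonneg fun x => sq_nonneg _
  have hi0 : ∀ u : ℕ, Integrable (fun x => ‖f (q ^ u • x) - f x‖ ^ 2) μ := fun u =>
    int_sq ((hc u).sub hf)
  have hi1 : ∀ u w : ℕ, Integrable (fun x => ‖f (q ^ u • x) - f (q ^ w • x)‖ ^ 2) μ := fun u w =>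
    int_sq ((hc u).sub (hc w))
  have hshift : ∀ s j : ℕ, ∫ x, ‖f (q ^ (s + j) • x) - f (q ^ s • x)‖ ^ 2 ∂μ = d j := by
    intro s j
    have h1 := inv_integral (hq.pow s) (F := fun x => ‖f (q ^ j • x) - f x‖ ^ 2)
      (((hc j).sub hf).norm.pow 2).measurable
    refine Eq.trans ?_ h1
    apply integral_congr_ae
    refine Eventually.of_forall fun x => ?_
    dsimp only
    rw [pow_add, mul_comm, mul_smul]
  -- the sum of the first distances
  have hsum : ∑ j ∈ Finset.range (2 * h), d j ≤ 16 * h * Q := by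
    have h1 := Qe_eq hq (show 0 < 4 * h by omega) hf
    have h2 : ∑ s ∈ Finset.range (2 * h), ∑ j ∈ Finset.range (2 * h), d j ≤
        ∑ s ∈ Finset.range (4 * h), ∑ t ∈ Finset.range (4 * h),
          ∫ x, ‖f (q ^ s • x) - f (q ^ t • x)‖ ^ 2 ∂μ := by
      have hnn : ∀ s t : ℕ, 0 ≤ ∫ x, ‖f (q ^ s • x) - f (q ^ t • x)‖ ^ 2 ∂μ := fun s t =>
        integral_nonneg fun x => sq_nonneg _
      refine le_trans ?_ (Finset.sum_le_sum_of_subset_of_nonneg
        (Finset.range_mono (show 2 * h ≤ 4 * h by omega))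
        (fun s _ _ => Finset.sum_nonneg fun t _ => hnn s t))
      apply Finset.sum_le_sum
      intro s hs
      rw [Finset.mem_range] at hs
      have h3 : ∑ j ∈ Finset.range (2 * h), d j = ∑ t ∈ (Finset.range (2 * h)).map
          (addLeftEmbedding s), ∫ x, ‖f (q ^ s • x) - f (q ^ t • x)‖ ^ 2 ∂μ := by
        rw [Finset.sum_map]
        apply Finset.sum_congr rfl
        intro j _
        rw [addLeftEmbedding_apply, ← hshift s j]
        apply integral_congr_ae
        refine Eventually.of_forall fun x => ?_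
        dsimp only
        rw [norm_sub_rev]
      rw [h3]
      apply Finset.sum_le_sum_of_subset_of_nonneg
      · intro t ht
        rw [Finset.mem_map] at ht
        obtain ⟨j, hj, rfl⟩ := ht
        rw [Finset.mem_range] at hj ⊢
        rw [addLeftEmbedding_apply]
        omega
      · intro t _ _
        exact hnn s t
    rw [Finset.sum_const, Finset.card_range, nsmul_eq_mul, ← h1] at h2
    push_cast at h2
    have h3 : (2 * (h : ℝ)) * ∑ j ∈ Finset.range (2 * h), d j ≤ (2 * h) * (16 * h * Q) := by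
      calc (2 * (h : ℝ)) * ∑ j ∈ Finset.range (2 * h), d j ≤ 2 * (4 * (h : ℝ)) ^ 2 * Q := h2
        _ = (2 * h) * (16 * h * Q) := by ring
    exact le_of_mul_le_mul_left h3 (by positivity)
  have hQ0 : 0 ≤ Q := by
    have := N2_Av_le (μ := μ) hq (H := 4 * h) hf
    rw [hQ]
    unfold Qe
    linarith
  -- small distances
  have hsmall : ∀ b, b ≤ h → d b ≤ 64 * Q := by
    intro b hb
    have h1 : ∀ j ∈ Finset.range h, d b ≤ 2 * (d (b + j) + d j) := by
      intro j _
      have h3 : d b = ∫ x, ‖f (q ^ (j + b) • x) - f (q ^ j • x)‖ ^ 2 ∂μ := (hshift j b).symm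
      rw [h3, hd]
      dsimp only
      rw [← integral_add (hi0 _) (hi0 _), ← integral_const_mul]
      refine integral_mono (hi1 _ _) (((hi0 _).add (hi0 _)).const_mul _) ?_
      intro x
      change ‖f (q ^ (j + b) • x) - f (q ^ j • x)‖ ^ 2 ≤
        2 * (‖f (q ^ (b + j) • x) - f x‖ ^ 2 + ‖f (q ^ j • x) - f x‖ ^ 2)
      rw [add_comm j b]
      have h4 : ‖f (q ^ (b + j) • x) - f (q ^ j • x)‖ ≤
          ‖f (q ^ (b + j) • x) - f x‖ + ‖f (q ^ j • x) - f x‖ := by
        calc ‖f (q ^ (b + j) • x) - f (q ^ j • x)‖ =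
            ‖(f (q ^ (b + j) • x) - f x) - (f (q ^ j • x) - f x)‖ := by
              congr 1; ring
          _ ≤ _ := norm_sub_le _ _
      calc ‖f (q ^ (b + j) • x) - f (q ^ j • x)‖ ^ 2 ≤
          (‖f (q ^ (b + j) • x) - f x‖ + ‖f (q ^ j • x) - f x‖) ^ 2 :=
            pow_le_pow_left₀ (norm_nonneg _) h4 2
        _ ≤ _ := by nlinarith [sq_nonneg (‖f (q ^ (b + j) • x) - f x‖ - ‖f (q ^ j • x) - f x‖)]
    have h2 : (h : ℝ) * d b ≤ ∑ j ∈ Finset.range h, 2 * (d (b + j) + d j) := by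
      have h3 := Finset.sum_le_sum h1
      rwa [Finset.sum_const, Finset.card_range, nsmul_eq_mul] at h3
    rw [← Finset.mul_sum, Finset.sum_add_distrib] at h2
    have h3 : ∑ j ∈ Finset.range h, d (b + j) ≤ ∑ j ∈ Finset.range (2 * h), d j := by
      have h4 : ∑ j ∈ Finset.range h, d (b + j) = ∑ t ∈ (Finset.range h).map
          (addLeftEmbedding b), d t := by
        rw [Finset.sum_map]
        rfl
      rw [h4]
      apply Finset.sum_le_sum_of_subset_of_nonneg
      · intro t ht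
        rw [Finset.mem_map] at ht
        obtain ⟨j, hj, rfl⟩ := ht
        rw [Finset.mem_range] at hj ⊢
        rw [addLeftEmbedding_apply]
        omega
      · intro t _ _
        exact hd0 t
    have h4 : ∑ j ∈ Finset.range h, d j ≤ ∑ j ∈ Finset.range (2 * h), d j :=
      Finset.sum_le_sum_of_subset_of_nonneg (Finset.range_mono (by omega)) (fun t _ _ => hd0 t)
    have h5 : (h : ℝ) * d b ≤ h * (64 * Q) := by nlinarith
    exact le_of_mul_le_mul_left h5 hhR
  -- all distances
  have hall : ∀ u, d u ≤ 64 * Q * ((u / h : ℕ) + 1 : ℝ) ^ 2 := by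
    intro u
    set a := u / h with ha
    set b := u % h with hb
    have hu : u = a * h + b := by
      rw [ha, hb, mul_comm]
      exact (Nat.div_add_mod u h).symm
    have hbh : b ≤ h := (Nat.mod_lt u hh).le
    have h1 : ∀ x, ‖f (q ^ u • x) - f x‖ ^ 2 ≤ (a + 1) *
        ((∑ i ∈ Finset.range a, ‖f (q ^ ((i * h + b) + h) • x) - f (q ^ (i * h + b) • x)‖ ^ 2) +
          ‖f (q ^ b • x) - f x‖ ^ 2) := by
      intro x
      set z : ℕ → ℂ := fun i => if i < a then f (q ^ ((i * h + b) + h) • x) -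
        f (q ^ (i * h + b) • x) else f (q ^ b • x) - f x with hz
      have h2 : ∑ i ∈ Finset.range (a + 1), z i = f (q ^ u • x) - f x := by
        rw [Finset.sum_range_succ]
        have h3 : ∑ i ∈ Finset.range a, z i = ∑ i ∈ Finset.range a,
            (f (q ^ ((i + 1) * h + b) • x) - f (q ^ (i * h + b) • x)) := by
          apply Finset.sum_congr rfl
          intro i hi
          rw [Finset.mem_range] at hi
          rw [hz]
          dsimp only
          rw [if_pos hi, show i * h + b + h = (i + 1) * h + b by ring]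
        rw [h3, Finset.sum_range_sub (fun i => f (q ^ (i * h + b) • x))]
        have h4 : z a = f (q ^ b • x) - f x := by
          rw [hz]
          dsimp only
          rw [if_neg (lt_irrefl a)]
        rw [h4, zero_mul, zero_add, ← hu]
        ring
      have h5 := normSq_sum_le (Finset.range (a + 1)) z
      rw [h2, Finset.card_range, Finset.sum_range_succ] at h5
      have h6 : ∑ i ∈ Finset.range a, ‖z i‖ ^ 2 = ∑ i ∈ Finset.range a,
          ‖f (q ^ ((i * h + b) + h) • x) - f (q ^ (i * h + b) • x)‖ ^ 2 := by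
        apply Finset.sum_congr rfl
        intro i hi
        rw [Finset.mem_range] at hi
        rw [hz]
        dsimp only
        rw [if_pos hi]
      have h7 : z a = f (q ^ b • x) - f x := by
        rw [hz]
        dsimp only
        rw [if_neg (lt_irrefl a)]
      rw [h6, h7] at h5
      push_cast at h5
      exact h5
    have hi : ∀ i, Integrable (fun x => ‖f (q ^ ((i * h + b) + h) • x) -
        f (q ^ (i * h + b) • x)‖ ^ 2) μ := fun i => int_sq ((hc _).sub (hc _))
    have h2 : d u ≤ (a + 1) * ((∑ i ∈ Finset.range a, d h) + d b) := by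
      have his : Integrable (fun x => ∑ i ∈ Finset.range a, ‖f (q ^ ((i * h + b) + h) • x) -
        f (q ^ (i * h + b) • x)‖ ^ 2) μ := integrable_finsetSum _ fun i _ => hi i
      have h3 : d u ≤ ∫ x, ((a : ℝ) + 1) *
        ((∑ i ∈ Finset.range a, ‖f (q ^ ((i * h + b) + h) • x) - f (q ^ (i * h + b) • x)‖ ^ 2) +
          ‖f (q ^ b • x) - f x‖ ^ 2) ∂μ :=
        integral_mono (hi0 u) ((his.add (hi0 b)).const_mul _) h1
      rw [integral_const_mul, integral_add his (hi0 b), integral_finsetSum _ fun i _ => hi i] at h3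
      have h4 : ∑ i ∈ Finset.range a, ∫ x, ‖f (q ^ ((i * h + b) + h) • x) -
        f (q ^ (i * h + b) • x)‖ ^ 2 ∂μ = ∑ i ∈ Finset.range a, d h := by
        apply Finset.sum_congr rfl
        intro i _
        exact hshift _ _
      rw [h4] at h3
      exact h3
    rw [Finset.sum_const, Finset.card_range, nsmul_eq_mul] at h2
    have h3 := hsmall h le_rfl
    have h4 := hsmall b hbh
    have ha0 : (0 : ℝ) ≤ a := Nat.cast_nonneg a
    calc d u ≤ (a + 1) * (a * d h + d b) := h2
      _ ≤ (a + 1) * (a * (64 * Q) + 64 * Q) := by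
          apply mul_le_mul_of_nonneg_left _ (by positivity)
          exact add_le_add (mul_le_mul_of_nonneg_left h3 ha0) h4
      _ = 64 * Q * (a + 1) ^ 2 := by ring
  -- the average
  have hH : (0 : ℝ) < ((4 * h : ℕ) : ℝ) := by exact_mod_cast (by omega : 0 < 4 * h)
  have h1 : ∀ x, ‖Av q (4 * h) f (q ^ v • x) - f x‖ ^ 2 ≤
      ((4 * h : ℕ) : ℝ)⁻¹ * ∑ t ∈ Finset.range (4 * h), ‖f (q ^ (v + t) • x) - f x‖ ^ 2 := by
    intro x
    have h2 : Av q (4 * h) f (q ^ v • x) - f x = ((4 * h : ℕ) : ℂ)⁻¹ *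
        ∑ t ∈ Finset.range (4 * h), (f (q ^ (v + t) • x) - f x) := by
      rw [Finset.sum_sub_distrib, Finset.sum_const, Finset.card_range, nsmul_eq_mul, mul_sub,
        ← mul_assoc, inv_mul_cancel₀ (by exact_mod_cast hH.ne'), one_mul]
      congr 1
      unfold Av
      congr 1
      apply Finset.sum_congr rfl
      intro t _
      rw [pow_add, mul_comm, mul_smul]
    rw [h2, norm_mul, norm_inv, Complex.norm_natCast, mul_pow]
    have h3 := normSq_sum_le (Finset.range (4 * h)) (fun t => f (q ^ (v + t) • x) - f x)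
    rw [Finset.card_range] at h3
    calc (((4 * h : ℕ) : ℝ)⁻¹) ^ 2 * ‖∑ t ∈ Finset.range (4 * h), (f (q ^ (v + t) • x) - f x)‖ ^ 2 ≤
        (((4 * h : ℕ) : ℝ)⁻¹) ^ 2 * (((4 * h : ℕ) : ℝ) *
          ∑ t ∈ Finset.range (4 * h), ‖f (q ^ (v + t) • x) - f x‖ ^ 2) :=
          mul_le_mul_of_nonneg_left h3 (by positivity)
      _ = _ := by
          rw [← mul_assoc]
          congr 1
          field_simp
  have hi : ∀ t, Integrable (fun x => ‖f (q ^ (v + t) • x) - f x‖ ^ 2) μ := fun t =>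
    int_sq ((hc _).sub hf)
  have hcv : Continuous fun x => Av q (4 * h) f (q ^ v • x) - f x :=
    ((continuous_Av hf).comp (continuous_nsmul _)).sub hf
  refine le_trans (integral_mono (int_sq hcv)
    ((integrable_finsetSum _ fun t _ => hi t).const_mul _) h1) ?_
  rw [integral_const_mul, integral_finsetSum _ fun t _ => hi t]
  have h2 : ∀ t ∈ Finset.range (4 * h), ∫ x, ‖f (q ^ (v + t) • x) - f x‖ ^ 2 ∂μ ≤
      64 * Q * ((v / h : ℕ) + 5 : ℝ) ^ 2 := by
    intro t ht
    rw [Finset.mem_range] at ht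
    refine le_trans (hall (v + t)) ?_
    apply mul_le_mul_of_nonneg_left _ (by positivity)
    apply pow_le_pow_left₀ (by positivity)
    have h3 : (v + t) / h ≤ v / h + 4 := by
      calc (v + t) / h ≤ (v + 4 * h) / h := Nat.div_le_div_right (by omega)
        _ = v / h + 4 := Nat.add_mul_div_right _ _ hh
    have h4 : (((v + t) / h : ℕ) : ℝ) ≤ ((v / h : ℕ) : ℝ) + 4 := by exact_mod_cast h3
    linarith
  have h3 := Finset.sum_le_sum h2
  rw [Finset.sum_const, Finset.card_range, nsmul_eq_mul] at h3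
  calc (((4 * h : ℕ) : ℝ))⁻¹ * ∑ t ∈ Finset.range (4 * h), ∫ x, ‖f (q ^ (v + t) • x) - f x‖ ^ 2 ∂μ ≤
      (((4 * h : ℕ) : ℝ))⁻¹ * (((4 * h : ℕ) : ℝ) * (64 * Q * ((v / h : ℕ) + 5 : ℝ) ^ 2)) :=
        mul_le_mul_of_nonneg_left h3 (by positivity)
    _ = 64 * Q * ((v / h : ℕ) + 5 : ℝ) ^ 2 := by
        rw [← mul_assoc, inv_mul_cancel₀ hH.ne', one_mul]
    _ = _ := by ring

end Pool.Agent.H237.Zero
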