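import Mathlib
import Pool.Agent.H237.Zero.Avg

/-!
# The chain which multiplies by all directions
-/

namespace Pool.Agent.H237.Zero

open MeasureTheory Set Filter Topology Pool.Agent.H237.Gap

variable {μ : Measure UnitAddCircle}

lemma Fib.smul {q s : ℕ} {C : ℝ} {f : UnitAddCircle → ℂ} (hq : 0 < q) (hf : Fib q C f)
    (hs : Nat.Coprime s q) : Fib q C (fun x => f (s • x)) := by
  intro x
  have hqR : (q : ℝ) ≠ 0 := by exact_mod_cast hq.ne'
  have h1 := hf (s • x)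
  have h2 : ∑ j ∈ Finset.range q, ‖f (s • (x + (((j : ℝ) / q : ℝ) : UnitAddCircle)))‖ ^ 2 =
      ∑ j ∈ Finset.range q, ‖f (s • x + (((j : ℝ) / q : ℝ) : UnitAddCircle))‖ ^ 2 := by
    have hmap : ∀ j ∈ Finset.range q, (s * j) % q ∈ Finset.range q := fun j _ =>
      Finset.mem_range.mpr (Nat.mod_lt _ hq)
    have hinj : Set.InjOn (fun j => (s * j) % q) (Finset.range q : Set ℕ) := by
      intro i hi j hj hij
      rw [Finset.mem_coe, Finset.mem_range] at hi hj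
      have h3 : s * i ≡ s * j [MOD q] := hij
      have h4 := Nat.ModEq.cancel_left_of_coprime (by rwa [Nat.coprime_comm] at hs) h3
      rwa [Nat.ModEq, Nat.mod_eq_of_lt hi, Nat.mod_eq_of_lt hj] at h4
    apply Finset.sum_nbij (fun j => (s * j) % q) hmap hinj
      (Finset.surjOn_of_injOn_of_card_le _ hmap hinj le_rfl)
    intro j _
    congr 3
    rw [smul_add]
    congr 1
    have h3 : s • (((j : ℝ) / q : ℝ) : UnitAddCircle) = (((s * j : ℝ) / q : ℝ) : UnitAddCircle) := by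
      rw [mul_div_assoc, ← nsmul_eq_mul]
      rfl
    rw [h3]
    have h4 : ((s * j : ℕ) : ℝ) = q * ((s * j / q : ℕ) : ℝ) + ((s * j % q : ℕ) : ℝ) := by
      exact_mod_cast (Nat.div_add_mod (s * j) q).symm
    have h5 : (s * j : ℝ) / q = ((s * j / q : ℕ) : ℝ) + (((s * j) % q : ℕ) : ℝ) / q := by
      push_cast at h4 ⊢
      rw [h4]
      field_simp
    rw [h5, AddCircle.coe_add]
    have h6 : ∀ k : ℕ, (((k : ℕ) : ℝ) : UnitAddCircle) = 0 := fun k => by
      rw [AddCircle.coe_eq_zero_iff]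
      exact ⟨k, by simp⟩
    rw [h6, zero_add]
  rw [h2]
  exact h1

lemma Fib.av {q a H : ℕ} {C : ℝ} {f : UnitAddCircle → ℂ} (hq : 0 < q) (hH : 0 < H)
    (hf : Fib q C f) (ha : Nat.Coprime a q) : Fib q C (Av a H f) := by
  intro x
  have hHR : (0 : ℝ) < H := by exact_mod_cast hH
  have h1 : ∀ j ∈ Finset.range q, ‖Av a H f (x + (((j : ℝ) / q : ℝ) : UnitAddCircle))‖ ^ 2 ≤
      (H : ℝ)⁻¹ * ∑ t ∈ Finset.range H,
        ‖f (a ^ t • (x + (((j : ℝ) / q : ℝ) : UnitAddCircle)))‖ ^ 2 := by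
    intro j _
    unfold Av
    rw [norm_mul, norm_inv, Complex.norm_natCast, mul_pow]
    have h2 := normSq_sum_le (Finset.range H)
      (fun t => f (a ^ t • (x + (((j : ℝ) / q : ℝ) : UnitAddCircle))))
    rw [Finset.card_range] at h2
    calc ((H : ℝ)⁻¹) ^ 2 * ‖∑ t ∈ Finset.range H,
          f (a ^ t • (x + (((j : ℝ) / q : ℝ) : UnitAddCircle)))‖ ^ 2 ≤
        ((H : ℝ)⁻¹) ^ 2 * (H * ∑ t ∈ Finset.range H,
          ‖f (a ^ t • (x + (((j : ℝ) / q : ℝ) : UnitAddCircle)))‖ ^ 2) :=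
          mul_le_mul_of_nonneg_left h2 (by positivity)
      _ = _ := by
          rw [← mul_assoc]
          congr 1
          field_simp
  refine le_trans (Finset.sum_le_sum h1) ?_
  rw [← Finset.mul_sum, Finset.sum_comm]
  have h2 : ∀ t ∈ Finset.range H, ∑ j ∈ Finset.range q,
      ‖f (a ^ t • (x + (((j : ℝ) / q : ℝ) : UnitAddCircle)))‖ ^ 2 ≤ C := fun t _ =>
    hf.smul hq (Nat.Coprime.pow_left t ha) x
  have h3 := Finset.sum_le_sum h2
  rw [Finset.sum_const, Finset.card_range, nsmul_eq_mul] at h3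
  calc (H : ℝ)⁻¹ * ∑ t ∈ Finset.range H, ∑ j ∈ Finset.range q,
        ‖f (a ^ t • (x + (((j : ℝ) / q : ℝ) : UnitAddCircle)))‖ ^ 2 ≤ (H : ℝ)⁻¹ * (H * C) :=
        mul_le_mul_of_nonneg_left h3 (by positivity)
    _ = C := by rw [← mul_assoc, inv_mul_cancel₀ hHR.ne', one_mul]

lemma Fib.avs {q H : ℕ} {C : ℝ} {f : UnitAddCircle → ℂ} (hq : 0 < q) (hH : 0 < H)
    (hf : Fib q C f) : ∀ L : List ℕ, (∀ a ∈ L, Nat.Coprime a q) → Fib q C (avs H L f)
  | [], _ => hf
  | a :: L, h => by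
    rw [avs_cons]
    exact (Fib.avs hq hH hf L fun b hb => h b (List.mem_cons_of_mem _ hb)).av hq hH
      (h a List.mem_cons_self)

/-- Lipschitz functions. -/
def Osc (Λ : ℝ) (f : UnitAddCircle → ℂ) : Prop := ∀ x y, ‖f x - f y‖ ≤ Λ * ‖x - y‖

lemma norm_nsmul_sub (s : ℕ) (x y : UnitAddCircle) : ‖s • x - s • y‖ ≤ s * ‖x - y‖ := by
  rw [← smul_sub]
  exact norm_nsmul_le

lemma Osc.smul {Λ : ℝ} (hΛ : 0 ≤ Λ) {f : UnitAddCircle → ℂ} (hf : Osc Λ f) (s : ℕ) :
    Osc (s * Λ) (fun x => f (s • x)) := by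
  intro x y
  calc ‖f (s • x) - f (s • y)‖ ≤ Λ * ‖s • x - s • y‖ := hf _ _
    _ ≤ Λ * (s * ‖x - y‖) := mul_le_mul_of_nonneg_left (norm_nsmul_sub s x y) hΛ
    _ = s * Λ * ‖x - y‖ := by ring

lemma Osc.av {Λ : ℝ} (hΛ : 0 ≤ Λ) {f : UnitAddCircle → ℂ} (hf : Osc Λ f) {a H : ℕ} (ha : 1 ≤ a) :
    Osc ((a : ℝ) ^ H * Λ) (Av a H f) := by
  intro x y
  have haR : (1 : ℝ) ≤ a := by exact_mod_cast ha
  unfold Av
  rw [← mul_sub, ← Finset.sum_sub_distrib, norm_mul, norm_inv, Complex.norm_natCast]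
  rcases Nat.eq_zero_or_pos H with h | h
  · subst h
    simp
    positivity
  have hHR : (0 : ℝ) < H := by exact_mod_cast h
  rw [inv_mul_le_iff₀ hHR]
  refine le_trans (norm_sum_le _ _) ?_
  have h1 : ∀ t ∈ Finset.range H, ‖f (a ^ t • x) - f (a ^ t • y)‖ ≤
      (a : ℝ) ^ H * Λ * ‖x - y‖ := by
    intro t ht
    rw [Finset.mem_range] at ht
    refine le_trans (hf.smul hΛ (a ^ t) x y) ?_
    apply mul_le_mul_of_nonneg_right _ (norm_nonneg _)
    apply mul_le_mul_of_nonneg_right _ hΛ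
    push_cast
    exact pow_le_pow_right₀ haR ht.le
  refine le_trans (Finset.sum_le_sum h1) ?_
  rw [Finset.sum_const, Finset.card_range, nsmul_eq_mul]

lemma Osc.avs {Λ : ℝ} (hΛ : 0 ≤ Λ) {f : UnitAddCircle → ℂ} (hf : Osc Λ f) {H : ℕ} :
    ∀ L : List ℕ, (∀ a ∈ L, 1 ≤ a) → Osc ((L.prod : ℝ) ^ H * Λ) (avs H L f)
  | [], _ => by simpa using hf
  | a :: L, h => by
    rw [avs_cons, List.prod_cons]
    have h0 : Osc ((L.prod : ℝ) ^ H * Λ) (Zero.avs H L f) :=
      Osc.avs hΛ hf L fun b hb => h b (List.mem_cons_of_mem _ hb)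
    have h1 := h0.av (by positivity) (H := H) (h a List.mem_cons_self)
    have e : ((a * L.prod : ℕ) : ℝ) ^ H * Λ = (a : ℝ) ^ H * ((L.prod : ℝ) ^ H * Λ) := by
      push_cast
      ring
    rw [e]
    exact h1

/-- The control function in the direction `q`. -/
noncomputable def ctrl (N H : ℕ) (ξ : UnitAddCircle → ℂ) (pre rest : List ℕ) :
    UnitAddCircle → ℂ :=
  fun x => avs H (pre ++ rest) ξ (rest.prod ^ N • x)

/-- The chain. -/
noncomputable def path (N H : ℕ) (ξ : UnitAddCircle → ℂ) : List ℕ → List ℕ → List Step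
  | _, [] => []
  | pre, q :: rest => List.replicate N (q, ctrl N H ξ pre rest) ++ path N H ξ (q :: pre) rest

lemma pq_append (ps ps' : List Step) : pq (ps ++ ps') = pq ps * pq ps' := by
  simp [pq]

lemma pq_replicate (v q : ℕ) (ψ : UnitAddCircle → ℂ) : pq (List.replicate v (q, ψ)) = q ^ v := by
  simp [pq]

lemma pq_path {N H : ℕ} {ξ : UnitAddCircle → ℂ} : ∀ suf pre : List ℕ,
    pq (path N H ξ pre suf) = suf.prod ^ N
  | [], _ => by simp [path]
  | q :: rest, pre => by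
    unfold path
    rw [pq_append, pq_replicate, pq_path rest, List.prod_cons, mul_pow]

lemma length_path {N H : ℕ} {ξ : UnitAddCircle → ℂ} : ∀ suf pre : List ℕ,
    (path N H ξ pre suf).length = N * suf.length
  | [], _ => by simp [path]
  | q :: rest, pre => by
    unfold path
    rw [List.length_append, List.length_replicate, length_path rest, List.length_cons]
    ring

lemma inv_path {N H : ℕ} {ξ : UnitAddCircle → ℂ} : ∀ suf pre : List ℕ,
    (∀ b ∈ suf, Inv μ b) → ∀ s ∈ path N H ξ pre suf, Inv μ s.1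
  | [], _, _, s, hs => by simp [path] at hs
  | q :: rest, pre, h, s, hs => by
    unfold path at hs
    rcases List.mem_append.mp hs with h1 | h1
    · rw [List.eq_of_mem_replicate h1]
      exact h q List.mem_cons_self
    · exact inv_path rest (q :: pre) (fun b hb => h b (List.mem_cons_of_mem _ hb)) s h1

lemma ok_replicate {δ C : ℝ} {J q : ℕ} (hJ : 0 < J) {ψ : UnitAddCircle → ℂ} {ps : List Step}
    (hq : 1 ≤ q) (hc : Continuous ψ) (hfib : Fib q C ψ) {Λ : ℝ} (hΛ0 : 0 ≤ Λ)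
    (hosc : Osc Λ ψ) (hΛ : Λ ≤ δ / 2 * (J * pq ps : ℕ)) (hps : OK δ C J ps) :
    ∀ v : ℕ, OK δ C J (List.replicate v (q, ψ) ++ ps)
  | 0 => hps
  | v + 1 => by
    have ih := ok_replicate hJ hq hc hfib hΛ0 hosc hΛ hps v
    rw [List.replicate_succ, List.cons_append]
    refine ⟨hq, hc, hfib, ?_, ih⟩
    intro x y hxy
    dsimp only at hxy ⊢
    have hm : 0 < J * pq ps := Nat.mul_pos hJ (pq_pos hps)
    have hmR : (0 : ℝ) < ((J * pq ps : ℕ) : ℝ) := by exact_mod_cast hm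
    have h1 : J * pq ps ≤ q * (J * pq (List.replicate v (q, ψ) ++ ps)) := by
      rw [pq_append, pq_replicate]
      calc J * pq ps = 1 * (J * (1 * pq ps)) := by ring
        _ ≤ q * (J * (q ^ v * pq ps)) := by
          apply Nat.mul_le_mul hq
          apply Nat.mul_le_mul_left
          exact Nat.mul_le_mul_right _ (Nat.one_le_pow _ _ hq)
    have h2 : ((J * pq ps : ℕ) : ℝ) ≤ ((q * (J * pq (List.replicate v (q, ψ) ++ ps)) : ℕ) : ℝ) := by
      exact_mod_cast h1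
    have h3 : ‖x - y‖ ≤ 1 / ((J * pq ps : ℕ) : ℝ) :=
      le_trans hxy (one_div_le_one_div_of_le hmR h2)
    calc ‖ψ x - ψ y‖ ≤ Λ * ‖x - y‖ := hosc x y
        _ ≤ Λ * (1 / ((J * pq ps : ℕ) : ℝ)) := mul_le_mul_of_nonneg_left h3 hΛ0
        _ ≤ (δ / 2 * ((J * pq ps : ℕ) : ℝ)) * (1 / ((J * pq ps : ℕ) : ℝ)) :=
            mul_le_mul_of_nonneg_right hΛ (by positivity)
        _ = δ / 2 := by field_simp

end Pool.Agent.H237.Zero
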