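import Mathlib
import Pool.Agent.H237.Zero.Path

/-!
# The correlation of a measure invariant under many coprime multipliers
-/

namespace Pool.Agent.H237.Zero

open MeasureTheory Set Filter Topology Pool.Agent.H237.Gap

variable {μ : Measure UnitAddCircle}

lemma coprime_prod_list {q : ℕ} : ∀ L : List ℕ, (∀ a ∈ L, Nat.Coprime a q) →
    Nat.Coprime L.prod q
  | [], _ => by simp
  | a :: L, h => by
    rw [List.prod_cons]
    exact Nat.Coprime.mul_left (h a List.mem_cons_self)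
      (coprime_prod_list L fun b hb => h b (List.mem_cons_of_mem _ hb))

lemma prod_pos_list : ∀ L : List ℕ, (∀ a ∈ L, 1 ≤ a) → 0 < L.prod
  | [], _ => by simp
  | a :: L, h => by
    rw [List.prod_cons]
    exact Nat.mul_pos (h a List.mem_cons_self)
      (prod_pos_list L fun b hb => h b (List.mem_cons_of_mem _ hb))

lemma inv_prod_list : ∀ L : List ℕ, (∀ a ∈ L, Inv μ a) → Inv μ L.prod
  | [], _ => by simpa using Inv.one μ
  | a :: L, h => by
    rw [List.prod_cons]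
    exact (h a List.mem_cons_self).mul
      (inv_prod_list L fun b hb => h b (List.mem_cons_of_mem _ hb))

lemma ok_path {δ C : ℝ} {J H N : ℕ} (hJ : 0 < J) (hH : 0 < H) {ξ : UnitAddCircle → ℂ}
    (hξ : Continuous ξ) {Λ : ℝ} (hΛ : 0 ≤ Λ) (hosc : Osc Λ ξ) : ∀ suf pre : List ℕ,
    (∀ b ∈ pre ++ suf, 1 ≤ b) → (pre ++ suf).Pairwise Nat.Coprime → (∀ q ∈ suf, Fib q C ξ) →
    ((pre ++ suf).prod : ℝ) ^ H * Λ ≤ δ / 2 * J → OK δ C J (path N H ξ pre suf)
  | [], _, _, _, _, _ => trivial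
  | q :: rest, pre, h1, hco, hfib, hbd => by
    have hperm : (pre ++ q :: rest).Perm (q :: (pre ++ rest)) := List.perm_middle
    have hco' : (q :: (pre ++ rest)).Pairwise Nat.Coprime :=
      (hperm.pairwise_iff (fun h => Nat.Coprime.symm h)).mp hco
    have hprod : (pre ++ q :: rest).prod = q * (pre ++ rest).prod := by
      rw [hperm.prod_eq, List.prod_cons]
    have h1' : ∀ b ∈ q :: (pre ++ rest), 1 ≤ b := fun b hb => h1 b (hperm.mem_iff.mpr hb)
    have hq1 : 1 ≤ q := h1' q List.mem_cons_self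
    have hqco : ∀ a ∈ pre ++ rest, Nat.Coprime a q := fun a ha =>
      ((List.pairwise_cons.mp hco').1 a ha).symm
    have hps : OK δ C J (path N H ξ (q :: pre) rest) := by
      apply ok_path hJ hH hξ hΛ hosc rest (q :: pre)
      · exact h1'
      · exact hco'
      · exact fun b hb => hfib b (List.mem_cons_of_mem _ hb)
      · rw [List.cons_append, List.prod_cons, ← hprod]
        exact hbd
    unfold path
    have hC1 : ∀ a ∈ rest, Nat.Coprime a q := fun a ha => hqco a (List.mem_append_right _ ha)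
    have hL1 : ∀ a ∈ pre ++ rest, 1 ≤ a := fun a ha => h1' a (List.mem_cons_of_mem _ ha)
    have hF : Osc (((pre ++ rest).prod : ℝ) ^ H * Λ) (avs H (pre ++ rest) ξ) :=
      Osc.avs hΛ hosc _ hL1
    have hF' := hF.smul (by positivity) (rest.prod ^ N)
    refine ok_replicate hJ hq1 ?_ ?_ (Λ := ((rest.prod ^ N : ℕ) : ℝ) *
      (((pre ++ rest).prod : ℝ) ^ H * Λ)) (by positivity) hF' ?_ hps N
    · exact (continuous_avs hξ _).comp (continuous_nsmul _)
    · exact ((hfib q List.mem_cons_self).avs hq1 hH _ hqco).smul hq1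
        (Nat.Coprime.pow_left _ (coprime_prod_list rest hC1))
    · rw [pq_path, Nat.cast_mul, Nat.cast_pow]
      have h2 : ((pre ++ rest).prod : ℝ) ^ H * Λ ≤ δ / 2 * J := by
        refine le_trans ?_ hbd
        apply mul_le_mul_of_nonneg_right _ hΛ
        apply pow_le_pow_left₀ (by positivity)
        rw [hprod]
        exact_mod_cast Nat.le_mul_of_pos_left _ hq1
      calc (rest.prod : ℝ) ^ N * (((pre ++ rest).prod : ℝ) ^ H * Λ) ≤
          (rest.prod : ℝ) ^ N * (δ / 2 * J) := mul_le_mul_of_nonneg_left h2 (by positivity)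
        _ = δ / 2 * (J * (rest.prod : ℝ) ^ N) := by ring

variable [IsProbabilityMeasure μ]

omit [IsProbabilityMeasure μ] in
lemma CS_replicate {φ ψ : UnitAddCircle → ℂ} {q : ℕ} {ps : List Step} {N : ℕ} {ℓ B : ℝ}
    (hℓ : Real.log q ≤ ℓ)
    (hB : ∀ i, i ≤ N → ∫ x, ‖φ ((q ^ i * pq ps) • x) - ψ x‖ ^ 2 ∂μ ≤ B) : ∀ v : ℕ, v ≤ N →
    CS μ φ (List.replicate v (q, ψ) ++ ps) ≤ v * (ℓ * B) + CS μ φ ps
  | 0, _ => by simp
  | v + 1, hv => by
    have ih := CS_replicate hℓ hB v (by omega)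
    rw [List.replicate_succ, List.cons_append, CS_cons, pq_append, pq_replicate, ← mul_assoc,
      ← pow_succ']
    have h1 := hB (v + 1) hv
    have h0 : 0 ≤ ∫ x, ‖φ ((q ^ (v + 1) * pq ps) • x) - ψ x‖ ^ 2 ∂μ :=
      integral_nonneg fun x => sq_nonneg _
    have hlq : 0 ≤ Real.log q := Real.log_natCast_nonneg q
    have h2 : Real.log q * ∫ x, ‖φ ((q ^ (v + 1) * pq ps) • x) - ψ x‖ ^ 2 ∂μ ≤ ℓ * B :=
      mul_le_mul hℓ h1 h0 (le_trans hlq hℓ)
    push_cast
    linarith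

lemma CS_path {h N : ℕ} (hh : 0 < h) {ξ : UnitAddCircle → ℂ} (hξ : Continuous ξ) {ℓ : ℝ}
    (φ : UnitAddCircle → ℂ) : ∀ suf pre : List ℕ,
    (∀ b ∈ pre ++ suf, Inv μ b) → (∀ q ∈ suf, Real.log q ≤ ℓ) →
    φ = avs (4 * h) (pre ++ suf) ξ →
    CS μ φ (path N (4 * h) ξ pre suf) ≤
      64 * N * ℓ * ((N / h : ℕ) + 5 : ℝ) ^ 2 * esum μ (4 * h) ξ pre suf
  | [], _, _, _, _ => by
    simp [path, CS, esum]
  | q :: rest, pre, hinv, hlog, hφ => by
    have hperm : (pre ++ q :: rest).Perm (q :: (pre ++ rest)) := List.perm_middle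
    have hinv' : ∀ b ∈ q :: (pre ++ rest), Inv μ b := fun b hb => hinv b (hperm.mem_iff.mpr hb)
    have hq : Inv μ q := hinv' q List.mem_cons_self
    have hlq : 0 ≤ Real.log q := Real.log_natCast_nonneg q
    have hℓ : Real.log q ≤ ℓ := hlog q List.mem_cons_self
    have ih := CS_path hh hξ φ rest (q :: pre) (N := N) (ℓ := ℓ) hinv'
      (fun b hb => hlog b (List.mem_cons_of_mem _ hb)) (by
        rw [hφ]
        exact avs_perm hperm)
    have hφ2 : φ = Av q (4 * h) (avs (4 * h) (pre ++ rest) ξ) := by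
      rw [hφ, avs_perm hperm, avs_cons]
    set F := avs (4 * h) (pre ++ rest) ξ with hF
    have hFc : Continuous F := continuous_avs hξ _
    have hrest : Inv μ (rest.prod ^ N) :=
      (inv_prod_list rest fun a ha => hinv' a (List.mem_cons_of_mem _
        (List.mem_append_right _ ha))).pow N
    unfold path esum
    have hQ0 : 0 ≤ Qe μ q (4 * h) F := by
      have := N2_Av_le (μ := μ) hq (H := 4 * h) hFc
      unfold Qe
      linarith
    have hB : ∀ i, i ≤ N → ∫ x, ‖φ ((q ^ i * pq (path N (4 * h) ξ (q :: pre) rest)) • x) -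
        ctrl N (4 * h) ξ pre rest x‖ ^ 2 ∂μ ≤
        64 * ((N / h : ℕ) + 5 : ℝ) ^ 2 * Qe μ q (4 * h) F := by
      intro i hi
      rw [pq_path]
      have h1 : ∫ x, ‖φ ((q ^ i * rest.prod ^ N) • x) - ctrl N (4 * h) ξ pre rest x‖ ^ 2 ∂μ =
          ∫ x, ‖Av q (4 * h) F (q ^ i • x) - F x‖ ^ 2 ∂μ := by
        have hc : Continuous fun x => Av q (4 * h) F (q ^ i • x) - F x :=
          ((continuous_Av hFc).comp (continuous_nsmul _)).sub hFc
        rw [← inv_integral hrest (F := fun x => ‖Av q (4 * h) F (q ^ i • x) - F x‖ ^ 2)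
          (hc.norm.pow 2).measurable]
        apply integral_congr_ae
        refine Eventually.of_forall fun x => ?_
        dsimp only
        rw [hφ2, mul_smul]
        rfl
      rw [h1]
      refine le_trans (remove hq hh hFc i) ?_
      apply mul_le_mul_of_nonneg_right _ hQ0
      apply mul_le_mul_of_nonneg_left _ (by norm_num)
      apply pow_le_pow_left₀ (by positivity)
      have h2 : i / h ≤ N / h := Nat.div_le_div_right hi
      have h3 : ((i / h : ℕ) : ℝ) ≤ ((N / h : ℕ) : ℝ) := by exact_mod_cast h2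
      linarith
    refine le_trans (CS_replicate hℓ hB N le_rfl) ?_
    have e : (N : ℝ) * (ℓ * (64 * ((N / h : ℕ) + 5 : ℝ) ^ 2 * Qe μ q (4 * h) F)) =
      64 * N * ℓ * ((N / h : ℕ) + 5 : ℝ) ^ 2 * Qe μ q (4 * h) F := by ring
    rw [e, mul_add]
    linarith

lemma N2_le_one {ξ : UnitAddCircle → ℂ} (hξ : Continuous ξ) (h1 : ∀ x, ‖ξ x‖ ≤ 1) :
    N2 μ ξ ≤ 1 := by
  have h2 : N2 μ ξ ≤ ∫ _, (1 : ℝ) ∂μ := by
    apply integral_mono (int_sq hξ) (integrable_const _)
    intro x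
    exact pow_le_one₀ (norm_nonneg _) (h1 x)
  simpa using h2

lemma contC_integrable {f : UnitAddCircle → ℂ} (hf : Continuous f) : Integrable f μ :=
  (BoundedContinuousFunction.mkOfCompact ⟨f, hf⟩).integrable μ

omit [IsProbabilityMeasure μ] in
lemma inv_integralC {q : ℕ} (h : Inv μ q) {F : UnitAddCircle → ℂ}
    (hF : Continuous F) : ∫ x, F (q • x) ∂μ = ∫ x, F x ∂μ := by
  have h1 := integral_map (μ := μ) h.measurable.aemeasurable (f := F)
    (by rw [h.map_eq]; exact hF.aestronglyMeasurable)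
  rw [h.map_eq] at h1
  exact h1.symm

lemma integral_Av {q H : ℕ} (hq : Inv μ q) (hH : 0 < H) {f : UnitAddCircle → ℂ}
    (hf : Continuous f) : ∫ x, Av q H f x ∂μ = ∫ x, f x ∂μ := by
  have hH0 : (H : ℂ) ≠ 0 := by exact_mod_cast hH.ne'
  have hi : ∀ t ∈ Finset.range H, Integrable (fun x => f (q ^ t • x)) μ := fun t _ =>
    contC_integrable (hf.comp (continuous_nsmul _))
  unfold Av
  rw [integral_const_mul, integral_finsetSum _ hi]
  have h1 : ∀ t ∈ Finset.range H, ∫ x, f (q ^ t • x) ∂μ = ∫ x, f x ∂μ := fun t _ =>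
    inv_integralC (hq.pow t) hf
  rw [Finset.sum_congr rfl h1, Finset.sum_const, Finset.card_range, nsmul_eq_mul, ← mul_assoc,
    inv_mul_cancel₀ hH0, one_mul]

lemma integral_avs {H : ℕ} (hH : 0 < H) {f : UnitAddCircle → ℂ} (hf : Continuous f) :
    ∀ L : List ℕ, (∀ a ∈ L, Inv μ a) → ∫ x, avs H L f x ∂μ = ∫ x, f x ∂μ
  | [], _ => rfl
  | a :: L, h => by
    rw [avs_cons, integral_Av (h a List.mem_cons_self) hH (continuous_avs hf L)]
    exact integral_avs hH hf L fun b hb => h b (List.mem_cons_of_mem _ hb)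

/-- **The correlation bound for many coprime directions.** -/
theorem corr_dirs {δ C : ℝ} (hδ : 0 < δ) (hC : 0 ≤ C) {J h N : ℕ} (hJ : 0 < J) (hh : 0 < h)
    {ξ : UnitAddCircle → ℂ} (hξ : Continuous ξ) (hξ1 : ∀ x, ‖ξ x‖ ≤ 1) {Λ : ℝ} (hΛ : 0 ≤ Λ)
    (hosc : Osc Λ ξ) (L : List ℕ) (hL1 : ∀ q ∈ L, 1 ≤ q) (hco : L.Pairwise Nat.Coprime)
    (hinv : ∀ q ∈ L, Inv μ q) (hfib : ∀ q ∈ L, Fib q C ξ) {ℓ : ℝ} (hℓ0 : 0 ≤ ℓ)
    (hℓ : ∀ q ∈ L, Real.log q ≤ ℓ) (hbd : (L.prod : ℝ) ^ (4 * h) * Λ ≤ δ / 2 * J)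
    (hc : 4 * δ ≤ ‖∫ x, ξ x ∂μ‖) :
    4 * δ ^ 2 * Real.exp (-(32 * N * ℓ * ((N / h : ℕ) + 5 : ℝ) ^ 2) / δ ^ 3) ≤
      (μ.prod μ).real {z | ‖z.1 - z.2‖ < 1 / ((J * L.prod ^ N : ℕ) : ℝ)} *
      (J * (4 * C / δ ^ 2 + 1) ^ (N * L.length)) := by
  set ps := path N (4 * h) ξ [] L with hps
  have hok : OK δ C J ps := ok_path hJ (by omega) hξ hΛ hosc L [] hL1 hco hfib hbd
  set φ := avs (4 * h) L ξ with hφ
  have hφc : Continuous φ := continuous_avs hξ L
  have hpq : pq ps = L.prod ^ N := pq_path L []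
  have hlen : ps.length = N * L.length := length_path L []
  have hprodinv : Inv μ (L.prod ^ N) := (inv_prod_list L hinv).pow N
  have h1 := corr_cost μ hφc (norm_avs_le hξ1 L) hδ hC hJ ps hok (inv_path L [] hinv) (by
    rw [hpq, inv_integralC hprodinv hφc, integral_avs (by omega) hξ L hinv]
    exact hc)
  rw [hpq, hlen] at h1
  refine le_trans ?_ h1
  apply mul_le_mul_of_nonneg_left _ (by positivity)
  apply Real.exp_le_exp.mpr
  have hes : esum μ (4 * h) ξ [] L ≤ 1 := by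
    have h2 := esum_le (μ := μ) (show 0 < 4 * h by omega) hξ L [] (by simp) hinv
    have h3 := N2_le_one (μ := μ) hξ hξ1
    have h4 : 0 ≤ N2 μ (avs (4 * h) ([] ++ L) ξ) := N2_nonneg _
    rw [avs_nil] at h2
    linarith
  have h2 := CS_path (μ := μ) (N := N) hh hξ φ L [] hinv hℓ rfl
  have h3 : CS μ φ ps ≤ 64 * N * ℓ * ((N / h : ℕ) + 5 : ℝ) ^ 2 := by
    refine le_trans h2 ?_
    exact mul_le_of_le_one_right (by positivity) hes
  rw [neg_div, neg_div, neg_le_neg_iff, div_le_div_iff₀ (by positivity) (by positivity)]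
  nlinarith [pow_pos hδ 3]

end Pool.Agent.H237.Zero
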