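import Mathlib
import Pool.Agent.H237.Zero.Main
import Pool.Agent.H237.Zero.Order
import Pool.Agent.H237.Primes.Compare

/-!
# The averages of a character over the powers of an integer
-/

namespace Pool.Agent.H237.Zero

open MeasureTheory Set Filter Topology Pool.Agent.H237.Gap Pool.Agent.H237.Primes
open scoped ComplexConjugate

/-- The sum of a character over the fractions with denominator `q`. -/
lemma sum_fourier {q : ℕ} (hq : 0 < q) (c : ℤ) :
    ∑ j ∈ Finset.range q, (fourier c ((((j : ℝ) / q : ℝ)) : UnitAddCircle) : ℂ) =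
      if (q : ℤ) ∣ c then (q : ℂ) else 0 := by
  have hqR : (q : ℝ) ≠ 0 := by exact_mod_cast hq.ne'
  set ζ : ℂ := (fourier c (((1 / q : ℝ)) : UnitAddCircle) : ℂ) with hζ
  have h1 : ∀ j : ℕ, (fourier c ((((j : ℝ) / q : ℝ)) : UnitAddCircle) : ℂ) = ζ ^ j := by
    intro j
    have e : ((((j : ℝ) / q : ℝ)) : UnitAddCircle) = j • (((1 / q : ℝ)) : UnitAddCircle) := by
      rw [div_eq_mul_one_div, ← nsmul_eq_mul]
      rfl
    rw [e, hζ, fourier_apply, fourier_apply, smul_comm, AddCircle.toCircle_nsmul]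
    push_cast
    rfl
  rw [Finset.sum_congr rfl fun j _ => h1 j]
  have hζq : ζ ^ q = 1 := by
    rw [← h1 q, div_self hqR]
    have : (((1 : ℝ)) : UnitAddCircle) = 0 := AddCircle.coe_period 1
    rw [this, fourier_eval_zero]
  have hzero : c • (((1 / q : ℝ)) : UnitAddCircle) = 0 ↔ (q : ℤ) ∣ c := by
    have e : c • (((1 / q : ℝ)) : UnitAddCircle) = (((c : ℝ) / q : ℝ) : UnitAddCircle) := by
      rw [div_eq_mul_one_div (c : ℝ), ← zsmul_eq_mul]
      rfl
    rw [e, AddCircle.coe_eq_zero_iff]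
    constructor
    · rintro ⟨m, hm⟩
      refine ⟨m, ?_⟩
      rw [zsmul_eq_mul, mul_one, eq_div_iff hqR] at hm
      have h2 : ((c : ℤ) : ℝ) = (((q : ℤ) * m : ℤ) : ℝ) := by
        push_cast
        linarith
      exact_mod_cast h2
    · rintro ⟨m, rfl⟩
      refine ⟨m, ?_⟩
      rw [zsmul_eq_mul, mul_one]
      push_cast
      field_simp
  split_ifs with h
  · have h2 : ζ = 1 := by
      rw [hζ, fourier_apply, hzero.mpr h, AddCircle.toCircle_zero]
      rfl
    rw [h2]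
    simp
  · have h2 : ζ ≠ 1 := by
      intro h3
      apply h
      rw [← hzero]
      apply AddCircle.injective_toCircle (one_ne_zero)
      rw [hζ, fourier_apply] at h3
      rw [AddCircle.toCircle_zero]
      exact_mod_cast Circle.coe_eq_one.mp h3
    rw [geom_sum_eq h2, hζq, sub_self, zero_div]

lemma fourier_add_right (c : ℤ) (x y : UnitAddCircle) :
    (fourier c (x + y) : ℂ) = fourier c x * fourier c y := by
  rw [fourier_apply, fourier_apply, fourier_apply, smul_add, AddCircle.toCircle_add]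
  exact Circle.coe_mul _ _

lemma conj_fourier (c : ℤ) (x : UnitAddCircle) : conj (fourier c x : ℂ) = fourier (-c) x :=
  fourier_neg.symm

lemma normSq_xi (g K : ℕ) (n : ℤ) (x : UnitAddCircle) :
    ((‖Av g K (fun y => (fourier n y : ℂ)) x‖ ^ 2 : ℝ) : ℂ) = ((K : ℂ) ^ 2)⁻¹ *
      ∑ a ∈ Finset.range K, ∑ b ∈ Finset.range K,
        (fourier (n * ((g : ℤ) ^ a - (g : ℤ) ^ b)) x : ℂ) := by
  have h1 : ((‖Av g K (fun y => (fourier n y : ℂ)) x‖ ^ 2 : ℝ) : ℂ) =
      Av g K (fun y => (fourier n y : ℂ)) x * conj (Av g K (fun y => (fourier n y : ℂ)) x) := by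
    rw [Complex.mul_conj, Complex.normSq_eq_norm_sq]
  rw [h1]
  unfold Av
  rw [map_mul, map_inv₀, Complex.conj_natCast, map_sum, mul_mul_mul_comm, Finset.sum_mul_sum]
  congr 1
  · rw [sq, mul_inv]
  · apply Finset.sum_congr rfl
    intro a _
    apply Finset.sum_congr rfl
    intro b _
    dsimp only
    rw [conj_fourier, fourier_nsmul, fourier_nsmul, ← fourier_add]
    congr 2
    push_cast
    ring

/-- The fibre bound for the averages of a character. -/
lemma fib_xi {q g K Δ : ℕ} (hq : 0 < q) (hK : 0 < K) (hΔ : 0 < Δ) (hΔK : Δ ≤ K) {n : ℤ}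
    (h : ∀ a b : ℕ, b < a → (q : ℤ) ∣ n * ((g : ℤ) ^ a - (g : ℤ) ^ b) → Δ ≤ a - b) :
    Fib q (2 * q / Δ) (Av g K (fun y => (fourier n y : ℂ))) := by
  classical
  intro x
  have hKR : (0 : ℝ) < K := by exact_mod_cast hK
  have hΔR : (0 : ℝ) < Δ := by exact_mod_cast hΔ
  have hqR : (0 : ℝ) < q := by exact_mod_cast hq
  have h1 : ((∑ j ∈ Finset.range q, ‖Av g K (fun y => (fourier n y : ℂ))
      (x + (((j : ℝ) / q : ℝ) : UnitAddCircle))‖ ^ 2 : ℝ) : ℂ) =
      ((K : ℂ) ^ 2)⁻¹ * ∑ a ∈ Finset.range K, ∑ b ∈ Finset.range K,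
        ((fourier (n * ((g : ℤ) ^ a - (g : ℤ) ^ b)) x : ℂ) *
          if (q : ℤ) ∣ n * ((g : ℤ) ^ a - (g : ℤ) ^ b) then (q : ℂ) else 0) := by
    rw [Complex.ofReal_sum, Finset.sum_congr rfl fun j _ => normSq_xi g K n _, ← Finset.mul_sum,
      Finset.sum_comm]
    congr 1
    apply Finset.sum_congr rfl
    intro a _
    rw [Finset.sum_comm]
    apply Finset.sum_congr rfl
    intro b _
    rw [← sum_fourier hq, Finset.mul_sum]
    apply Finset.sum_congr rfl
    intro j _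
    exact fourier_add_right _ _ _
  have h2 : ∑ j ∈ Finset.range q, ‖Av g K (fun y => (fourier n y : ℂ))
      (x + (((j : ℝ) / q : ℝ) : UnitAddCircle))‖ ^ 2 ≤
      ((K : ℝ) ^ 2)⁻¹ * ∑ a ∈ Finset.range K, ∑ b ∈ Finset.range K,
        (if (q : ℤ) ∣ n * ((g : ℤ) ^ a - (g : ℤ) ^ b) then (q : ℝ) else 0) := by
    have h3 : ∑ j ∈ Finset.range q, ‖Av g K (fun y => (fourier n y : ℂ))
      (x + (((j : ℝ) / q : ℝ) : UnitAddCircle))‖ ^ 2 =
      ‖((∑ j ∈ Finset.range q, ‖Av g K (fun y => (fourier n y : ℂ))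
      (x + (((j : ℝ) / q : ℝ) : UnitAddCircle))‖ ^ 2 : ℝ) : ℂ)‖ := by
      rw [Complex.norm_real, Real.norm_of_nonneg]
      exact Finset.sum_nonneg fun _ _ => sq_nonneg _
    rw [h3, h1, norm_mul, norm_inv, norm_pow, Complex.norm_natCast]
    apply mul_le_mul_of_nonneg_left _ (by positivity)
    refine le_trans (norm_sum_le _ _) (Finset.sum_le_sum fun a _ => ?_)
    refine le_trans (norm_sum_le _ _) (Finset.sum_le_sum fun b _ => ?_)
    rw [norm_mul, norm_fourier_one, one_mul]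
    split_ifs
    · rw [Complex.norm_natCast]
    · rw [norm_zero]
  refine le_trans h2 ?_
  have h3 : ∀ b ∈ Finset.range K, ∑ a ∈ Finset.range K,
      (if (q : ℤ) ∣ n * ((g : ℤ) ^ a - (g : ℤ) ^ b) then (q : ℝ) else 0) ≤ q * (2 * K / Δ) := by
    intro b _
    rw [← Finset.sum_filter, Finset.sum_const, nsmul_eq_mul, mul_comm]
    apply mul_le_mul_of_nonneg_left _ hqR.le
    set S := (Finset.range K).filter
      (fun a : ℕ => (q : ℤ) ∣ n * ((g : ℤ) ^ a - (g : ℤ) ^ b)) with hS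
    have hinj : Set.InjOn (fun a => a / Δ) (S : Set ℕ) := by
      have key : ∀ a ∈ S, ∀ a' ∈ S, a' < a → a / Δ ≠ a' / Δ := by
        intro a ha a' ha' hlt heq
        rw [hS, Finset.mem_filter] at ha ha'
        have h4 : (q : ℤ) ∣ n * ((g : ℤ) ^ a - (g : ℤ) ^ a') := by
          have := dvd_sub ha.2 ha'.2
          have e : n * ((g : ℤ) ^ a - (g : ℤ) ^ a') = n * ((g : ℤ) ^ a - (g : ℤ) ^ b) -
            n * ((g : ℤ) ^ a' - (g : ℤ) ^ b) := by ring
          rw [e]
          exact this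
        have h5 := h a a' hlt h4
        have h6 : a' + Δ ≤ a := by omega
        have h7 : (a' + Δ) / Δ ≤ a / Δ := Nat.div_le_div_right h6
        rw [Nat.add_div_right _ hΔ] at h7
        omega
      intro a ha a' ha' heq
      rcases lt_trichotomy a a' with h4 | h4 | h4
      · exact absurd heq.symm (key a' ha' a ha h4)
      · exact h4
      · exact absurd heq (key a ha a' ha' h4)
    have hcard : S.card ≤ K / Δ + 1 := by
      rw [← Finset.card_image_of_injOn hinj]
      refine le_trans (Finset.card_le_card (t := Finset.range (K / Δ + 1)) ?_)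
        (Finset.card_range _).le
      intro z hz
      rw [Finset.mem_image] at hz
      obtain ⟨a, ha, rfl⟩ := hz
      rw [hS, Finset.mem_filter, Finset.mem_range] at ha
      rw [Finset.mem_range]
      have := Nat.div_le_div_right (c := Δ) ha.1.le
      omega
    have h4 : (S.card : ℝ) ≤ ((K / Δ : ℕ) : ℝ) + 1 := by exact_mod_cast hcard
    have h5 : ((K / Δ : ℕ) : ℝ) ≤ (K : ℝ) / Δ := Nat.cast_div_le
    have h6 : (1 : ℝ) ≤ (K : ℝ) / Δ := by
      rw [one_le_div hΔR]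
      exact_mod_cast hΔK
    have h7 : 2 * (K : ℝ) / Δ = K / Δ + K / Δ := by ring
    linarith
  rw [Finset.sum_comm]
  have h4 := Finset.sum_le_sum h3
  rw [Finset.sum_const, Finset.card_range, nsmul_eq_mul] at h4
  calc ((K : ℝ) ^ 2)⁻¹ * ∑ b ∈ Finset.range K, ∑ a ∈ Finset.range K,
        (if (q : ℤ) ∣ n * ((g : ℤ) ^ a - (g : ℤ) ^ b) then (q : ℝ) else 0) ≤
        ((K : ℝ) ^ 2)⁻¹ * (K * (q * (2 * K / Δ))) := mul_le_mul_of_nonneg_left h4 (by positivity)
    _ = 2 * q / Δ := by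
        field_simp

/-- The fibre bound modulo a power of `p`. -/
lemma fib_pow {p g m K W : ℕ} {n : ℤ} (hp : 2 ≤ p) (hO : OrdB g p W) (hW : 0 < W)
    (hgp : Nat.Coprime g p) (hn : n ≠ 0) (hK : p ^ m ≤ K) (hbig : n.natAbs * W ≤ p ^ m) :
    Fib (p ^ m) (4 * (n.natAbs * W : ℕ)) (Av g K (fun y => (fourier n y : ℂ))) := by
  set M := n.natAbs * W with hM
  have hM0 : 0 < M := Nat.mul_pos (Int.natAbs_pos.mpr hn) hW
  have hq0 : 0 < p ^ m := pow_pos (by omega) _
  have hΔ : 0 < p ^ m / M := Nat.div_pos hbig hM0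
  have hΔR : (0 : ℝ) < ((p ^ m / M : ℕ) : ℝ) := by exact_mod_cast hΔ
  have h1 := fib_xi hq0 (lt_of_lt_of_le hq0 hK) hΔ
    (le_trans (Nat.div_le_self _ _) hK) (n := n) (g := g) (by
      intro a b hab hdvd
      push_cast at hdvd
      exact Nat.div_le_of_le_mul (order_bound hO hgp hn hab hdvd))
  intro x
  refine le_trans (h1 x) ?_
  rw [div_le_iff₀ hΔR]
  have h2 : p ^ m < M * (p ^ m / M) + M := by
    have h3 := Nat.div_add_mod (p ^ m) M
    have h4 := Nat.mod_lt (p ^ m) hM0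
    omega
  have h3 : M ≤ M * (p ^ m / M) := Nat.le_mul_of_pos_right _ hΔ
  have h4 : p ^ m ≤ 2 * (M * (p ^ m / M)) := by omega
  have h5 : ((p ^ m : ℕ) : ℝ) ≤ 2 * ((M : ℝ) * ((p ^ m / M : ℕ) : ℝ)) := by exact_mod_cast h4
  calc 2 * ((p ^ m : ℕ) : ℝ) ≤ 2 * (2 * ((M : ℝ) * ((p ^ m / M : ℕ) : ℝ))) := by linarith
    _ = 4 * (M : ℝ) * ((p ^ m / M : ℕ) : ℝ) := by ring

lemma osc_fourier (n : ℤ) : Osc (2 * Real.pi * n.natAbs) (fun y => (fourier n y : ℂ)) := by
  intro x y
  have h1 : (fourier n x : ℂ) - fourier n y = fourier n y * (fourier n (x - y) - 1) := by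
    rw [mul_sub, mul_one, ← fourier_add_right, add_sub_cancel]
  rw [h1, norm_mul, norm_fourier_one, one_mul]
  rcases Int.natAbs_eq n with h | h
  · have h2 := norm_fourier_sub_one n.natAbs (x - y)
    rw [← h] at h2
    exact h2
  · have h2 := norm_fourier_sub_one n.natAbs (x - y)
    have h3 : (fourier n (x - y) : ℂ) - 1 =
        conj ((fourier (n.natAbs : ℤ) (x - y) : ℂ) - 1) := by
      rw [map_sub (starRingEnd ℂ), map_one (starRingEnd ℂ), conj_fourier, ← h]
    rw [h3, RCLike.norm_conj]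
    exact h2

end Pool.Agent.H237.Zero
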