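import Mathlib
import Pool.Agent.H237.Zero.Xi

/-!
# The correlation of an invariant measure at one scale
-/

namespace Pool.Agent.H237.Zero

open MeasureTheory Set Filter Topology Pool.Agent.H237.Gap

/-- **The correlation at one scale.** -/
theorem one_scale {μ : Measure UnitAddCircle} [IsProbabilityMeasure μ] {g W : ℕ} (hg : 2 ≤ g)
    (hW : 1 ≤ W) {S : Finset ℕ} (hS2 : ∀ p ∈ S, 2 ≤ p) (hco : (S : Set ℕ).Pairwise Nat.Coprime)
    (hgS : ∀ p ∈ S, Nat.Coprime g p) (hO : ∀ p ∈ S, OrdB g p W)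
    (hinvg : Inv μ g) (hinv : ∀ p ∈ S, Inv μ p) {n : ℤ}
    (hn : n ≠ 0) {δ : ℝ} (hδ : 0 < δ) (hc : 4 * δ ≤ ‖∫ x, (fourier n x : ℂ) ∂μ‖) {z τ : ℝ}
    (hz : ∀ p ∈ S, (p : ℝ) ≤ z) {R : ℕ} (hR : 1 ≤ R) (hk : R ^ 3 ≤ S.card)
    (hτ1 : Real.log z ≤ τ)
    (hτ2 : R * Real.log (16 * (n.natAbs * (W : ℝ)) / δ ^ 2 + 1) ≤ τ) {Y : ℝ}
    (hY1 : R * Real.exp (2 * τ) * Real.log g ≤ Y) (hY2 : R * S.card * τ ≤ Y) :
    δ ^ 3 / (2 * Real.pi * n.natAbs) * Real.exp (-((6272 / δ ^ 3 + 19) / R * Y)) ≤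
      (μ.prod μ).real {w | ‖w.1 - w.2‖ < Real.exp (-Y)} := by
  classical
  have hRR : (1 : ℝ) ≤ R := by exact_mod_cast hR
  have hkN : 1 ≤ S.card := le_trans (Nat.one_le_pow _ _ hR) hk
  have hkR : (1 : ℝ) ≤ S.card := by exact_mod_cast hkN
  have hkR3 : (R : ℝ) ^ 3 ≤ S.card := by exact_mod_cast hk
  have hgR : (2 : ℝ) ≤ g := by exact_mod_cast hg
  have hn1 : 1 ≤ n.natAbs := Int.natAbs_pos.mpr hn
  have hnR : (1 : ℝ) ≤ n.natAbs := by exact_mod_cast hn1
  have hlg : 0 < Real.log g := Real.log_pos (by linarith)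
  obtain ⟨p₀, hp₀⟩ : S.Nonempty := Finset.card_pos.mp (by omega)
  have hz2 : 2 ≤ z := le_trans (by exact_mod_cast hS2 p₀ hp₀) (hz p₀ hp₀)
  have hlz : 0 < Real.log z := Real.log_pos (by linarith)
  have hδ1 : 4 * δ ≤ 1 := by
    refine le_trans hc (le_trans (norm_integral_le_integral_norm _) ?_)
    simp only [Primes.norm_fourier_one]
    simp
  set M : ℝ := n.natAbs * (W : ℝ) with hM
  have hgz : (1 : ℝ) ≤ (W : ℝ) := by exact_mod_cast hW
  have hM1 : 1 ≤ M := by nlinarith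
  set C' : ℝ := 16 * M / δ ^ 2 + 1 with hC'
  have hC'1 : 1 < C' := by
    have : 0 < 16 * M / δ ^ 2 := by positivity
    linarith
  have hC'M : M ≤ C' := by
    have h1 : M ≤ 16 * M / δ ^ 2 := by
      have hd1 : δ ≤ 1 := by linarith
      have hd2 : δ ^ 2 ≤ 1 := pow_le_one₀ hδ.le hd1
      have hM0 : 0 ≤ M := by linarith
      rw [le_div_iff₀ (by positivity)]
      calc M * δ ^ 2 ≤ M * 1 := mul_le_mul_of_nonneg_left hd2 hM0
        _ ≤ 16 * M := by linarith
    linarith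
  have hlC' : 0 < Real.log C' := Real.log_pos hC'1
  have hτ0 : 0 < τ := lt_of_lt_of_le (by positivity) hτ2
  set m : ℕ → ℕ := fun p => ⌈τ / Real.log p⌉₊ with hm
  have hlow : ∀ p ∈ S, τ ≤ m p * Real.log p := by
    intro p hp
    have hp2 : (2 : ℝ) ≤ p := by exact_mod_cast hS2 p hp
    have hlp : 0 < Real.log p := Real.log_pos (by linarith)
    have h1 : τ / Real.log p ≤ m p := Nat.le_ceil _
    rwa [div_le_iff₀ hlp] at h1
  set ℓ : ℝ := τ + Real.log z with hℓ
  have hup : ∀ p ∈ S, m p * Real.log p ≤ ℓ := by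
    intro p hp
    have hp2 : (2 : ℝ) ≤ p := by exact_mod_cast hS2 p hp
    have hlp : 0 < Real.log p := Real.log_pos (by linarith)
    have h1 : (m p : ℝ) < τ / Real.log p + 1 := Nat.ceil_lt_add_one (by positivity)
    have h2 : Real.log p ≤ Real.log z := Real.log_le_log (by linarith) (hz p hp)
    have h3 : τ / Real.log p * Real.log p = τ := by field_simp
    nlinarith
  have hlogq : ∀ p ∈ S, Real.log ((p ^ m p : ℕ) : ℝ) = m p * Real.log p := by
    intro p _
    rw [Nat.cast_pow, Real.log_pow]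
  have hqpos : ∀ p ∈ S, (0 : ℝ) < ((p ^ m p : ℕ) : ℝ) := by
    intro p hp
    have := hS2 p hp
    exact_mod_cast pow_pos (by omega : 0 < p) _
  set L : List ℕ := S.toList.map (fun p => p ^ m p) with hL
  have hmem : ∀ q ∈ L, ∃ p ∈ S, q = p ^ m p := by
    intro q hq
    rw [hL, List.mem_map] at hq
    obtain ⟨p, hp, rfl⟩ := hq
    exact ⟨p, Finset.mem_toList.mp hp, rfl⟩
  have hLlen : L.length = S.card := by rw [hL, List.length_map, Finset.length_toList]
  have hLprod : L.prod = ∏ p ∈ S, p ^ m p := Finset.prod_map_toList _ _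
  have hL1 : ∀ q ∈ L, 1 ≤ q := by
    intro q hq
    obtain ⟨p, hp, rfl⟩ := hmem q hq
    have := hS2 p hp
    exact Nat.one_le_pow _ _ (by omega)
  have hPpos : 0 < L.prod := prod_pos_list L hL1
  have hPR : (0 : ℝ) < L.prod := by exact_mod_cast hPpos
  have hlogP : Real.log L.prod = ∑ p ∈ S, m p * Real.log p := by
    rw [hLprod, Nat.cast_prod, Real.log_prod (fun p hp => (hqpos p hp).ne')]
    exact Finset.sum_congr rfl hlogq
  have hlogPlow : S.card * τ ≤ Real.log L.prod := by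
    rw [hlogP]
    have := Finset.sum_le_sum hlow
    rwa [Finset.sum_const, nsmul_eq_mul] at this
  have hlogPup : Real.log L.prod ≤ S.card * ℓ := by
    rw [hlogP]
    have := Finset.sum_le_sum hup
    rwa [Finset.sum_const, nsmul_eq_mul] at this
  have hLco : L.Pairwise Nat.Coprime := by
    rw [hL, List.pairwise_map]
    apply List.Nodup.pairwise_of_forall_ne (Finset.nodup_toList S)
    intro a ha b hb hab
    exact Nat.Coprime.pow _ _ (hco (Finset.mem_toList.mp ha) (Finset.mem_toList.mp hb) hab)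
  have hLinv : ∀ q ∈ L, Inv μ q := by
    intro q hq
    obtain ⟨p, hp, rfl⟩ := hmem q hq
    exact (hinv p hp).pow _
  set K : ℕ := ⌊Real.exp ℓ⌋₊ with hK
  have hqK : ∀ p ∈ S, p ^ m p ≤ K := by
    intro p hp
    apply Nat.le_floor
    rw [← Real.log_le_iff_le_exp (hqpos p hp), hlogq p hp]
    exact hup p hp
  have hK1 : 1 ≤ K := by
    have := hqK p₀ hp₀
    have h2 := hS2 p₀ hp₀
    exact le_trans (Nat.one_le_pow _ _ (by omega)) this
  set ξ : UnitAddCircle → ℂ := Av g K (fun y => (fourier n y : ℂ)) with hξ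
  have hfc : Continuous fun y : UnitAddCircle => (fourier n y : ℂ) := by fun_prop
  have hξc : Continuous ξ := continuous_Av hfc
  have hξ1 : ∀ x, ‖ξ x‖ ≤ 1 := norm_Av_le fun x => (Primes.norm_fourier_one n x).le
  have hMp : ((n.natAbs * W : ℕ) : ℝ) = M := by
    rw [hM]
    push_cast
    rfl
  have hfib : ∀ q ∈ L, Fib q (4 * M) ξ := by
    intro q hq
    obtain ⟨p, hp, rfl⟩ := hmem q hq
    intro x
    refine le_trans (fib_pow (hS2 p hp) (hO p hp) hW (hgS p hp) hn (hqK p hp) ?_ x) ?_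
    · have h1 : ((n.natAbs * W : ℕ) : ℝ) ≤ ((p ^ m p : ℕ) : ℝ) := by
        rw [hMp]
        refine le_trans hC'M ?_
        rw [← Real.log_le_log_iff (by linarith) (hqpos p hp), hlogq p hp]
        refine le_trans ?_ (hlow p hp)
        refine le_trans ?_ hτ2
        exact le_mul_of_one_le_left hlC'.le hRR
      exact_mod_cast h1
    · rw [hMp]
  set Λ : ℝ := (g : ℝ) ^ K * (2 * Real.pi * n.natAbs) with hΛ
  have hpi := Real.pi_gt_three
  have hgK : 1 ≤ (g : ℝ) ^ K := one_le_pow₀ (by linarith)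
  have hΛ1 : 1 ≤ Λ := by
    have hpn1 : 1 ≤ 2 * Real.pi * n.natAbs := by
      calc (1 : ℝ) ≤ 2 * Real.pi * 1 := by linarith
        _ ≤ 2 * Real.pi * n.natAbs := mul_le_mul_of_nonneg_left hnR (by positivity)
    exact one_le_mul_of_one_le_of_one_le hgK hpn1
  have hosc : Osc Λ ξ := (osc_fourier n).av (by positivity) (by omega)
  -- the number of steps
  set k : ℝ := (S.card : ℝ) with hkdef
  have hkτ : 0 < k * τ := by positivity
  set N : ℕ := ⌈Y / (k * τ)⌉₊ with hN
  have hYR : R * (k * τ) ≤ Y := by linarith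
  have hY0 : 0 < Y := lt_of_lt_of_le (by positivity) hYR
  have hNlow : Y / (k * τ) ≤ N := Nat.le_ceil _
  have hNup : (N : ℝ) ≤ 2 * (Y / (k * τ)) := by
    have h1 : (N : ℝ) < Y / (k * τ) + 1 := Nat.ceil_lt_add_one (by positivity)
    have h2 : 1 ≤ Y / (k * τ) := by
      rw [le_div_iff₀ hkτ, one_mul]
      nlinarith
    linarith
  have hNR : R ≤ N := by
    have h1 : (R : ℝ) ≤ Y / (k * τ) := by rwa [le_div_iff₀ hkτ]
    exact_mod_cast le_trans h1 hNlow
  set h : ℕ := N / R with hh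
  have hh0 : 0 < h := Nat.div_pos hNR hR
  have hhN : (h : ℝ) ≤ N / R := Nat.cast_div_le
  have hNh : ((N / h : ℕ) : ℝ) ≤ 2 * R := by
    have h1 : N < 2 * R * h := by
      have h2 := Nat.div_add_mod N R
      have h3 := Nat.mod_lt N (show 0 < R by omega)
      rw [← hh] at h2
      have h4 : R ≤ R * h := Nat.le_mul_of_pos_right _ hh0
      have h5 : 2 * R * h = R * h + R * h := by ring
      omega
    have h2 : N / h ≤ 2 * R := Nat.div_le_of_le_mul (by
      have : h * (2 * R) = 2 * R * h := by ring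
      omega)
    exact_mod_cast h2
  set x : ℝ := 2 / δ * ((L.prod : ℝ) ^ (4 * h) * Λ) with hx
  have hP1 : (1 : ℝ) ≤ L.prod := by exact_mod_cast hPpos
  have hPh : 1 ≤ (L.prod : ℝ) ^ (4 * h) := one_le_pow₀ hP1
  have hx1 : 1 ≤ x := by
    have h1 : 1 ≤ 2 / δ := by
      rw [le_div_iff₀ hδ]
      linarith
    have h2 : 1 ≤ (L.prod : ℝ) ^ (4 * h) * Λ := by nlinarith
    rw [hx]
    nlinarith
  set J : ℕ := ⌈x⌉₊ with hJ
  have hJx : x ≤ J := Nat.le_ceil _
  have hJ2 : (J : ℝ) ≤ 2 * x := by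
    have : (J : ℝ) < x + 1 := Nat.ceil_lt_add_one (by linarith)
    linarith
  have hJ0 : 0 < J := by
    rw [hJ]
    exact Nat.ceil_pos.mpr (by linarith)
  have hJR : (0 : ℝ) < J := by exact_mod_cast hJ0
  have hℓ0 : 0 < ℓ := by positivity
  have hmain := corr_dirs (μ := μ) (C := 4 * M) (N := N) hδ (by positivity) hJ0 hh0 hξc hξ1
    (by linarith : 0 ≤ Λ) hosc L hL1 hLco hLinv hfib hℓ0.le (by
      intro q hq
      obtain ⟨p, hp, rfl⟩ := hmem q hq
      rw [hlogq p hp]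
      exact hup p hp) (by
      have : δ / 2 * x = (L.prod : ℝ) ^ (4 * h) * Λ := by
        rw [hx]
        field_simp
      rw [← this]
      exact mul_le_mul_of_nonneg_left hJx (by positivity)) (by
      rw [hξ, integral_Av hinvg hK1 hfc]
      exact hc)
  rw [hLlen] at hmain
  have hC'eq : 4 * (4 * M) / δ ^ 2 + 1 = C' := by
    rw [hC']
    ring
  rw [hC'eq] at hmain
  -- the radius
  have hrad : (μ.prod μ).real {w | ‖w.1 - w.2‖ < 1 / ((J * L.prod ^ N : ℕ) : ℝ)} ≤
      (μ.prod μ).real {w | ‖w.1 - w.2‖ < Real.exp (-Y)} := by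
    refine measureReal_mono ?_ (measure_ne_top _ _)
    intro w hw
    have hw' : ‖w.1 - w.2‖ < 1 / ((J * L.prod ^ N : ℕ) : ℝ) := hw
    change ‖w.1 - w.2‖ < Real.exp (-Y)
    refine lt_of_lt_of_le hw' ?_
    rw [Real.exp_neg, ← one_div]
    apply one_div_le_one_div_of_le (Real.exp_pos _)
    have h1 : Real.exp Y ≤ (L.prod : ℝ) ^ N := by
      rw [← Real.le_log_iff_exp_le (by positivity), Real.log_pow]
      have h2 : Y ≤ N * (k * τ) := by rwa [div_le_iff₀ hkτ] at hNlow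
      exact le_trans h2 (mul_le_mul_of_nonneg_left hlogPlow (Nat.cast_nonneg _))
    push_cast
    have h2 : (1 : ℝ) ≤ J := by exact_mod_cast hJ0
    have h3 : 0 < (L.prod : ℝ) ^ N := by positivity
    push_cast at h1 h3
    nlinarith
  set κ := (μ.prod μ).real {w | ‖w.1 - w.2‖ < Real.exp (-Y)} with hκ
  have hκ0 : 0 ≤ κ := measureReal_nonneg
  have hC'pow : 0 < C' ^ (N * S.card) := by positivity
  have h1 : 4 * δ ^ 2 * Real.exp (-(32 * N * ℓ * ((N / h : ℕ) + 5 : ℝ) ^ 2) / δ ^ 3) ≤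
      κ * (2 * x * C' ^ (N * S.card)) := by
    refine le_trans hmain ?_
    apply mul_le_mul hrad _ (by positivity) hκ0
    exact mul_le_mul_of_nonneg_right hJ2 hC'pow.le
  -- the exponents
  set A : ℝ := 32 * N * ℓ * ((N / h : ℕ) + 5 : ℝ) ^ 2 / δ ^ 3 with hA
  have hℓ2 : ℓ ≤ 2 * τ := by linarith
  have hRY : 0 ≤ Y / R := by positivity
  have hA1 : A ≤ 6272 / δ ^ 3 * (Y / R) := by
    have h2 : ((N / h : ℕ) + 5 : ℝ) ^ 2 ≤ (7 * R) ^ 2 := by
      apply pow_le_pow_left₀ (by positivity)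
      linarith
    have h3 : (N : ℝ) * ℓ ≤ 4 * (Y / k) := by
      calc (N : ℝ) * ℓ ≤ 2 * (Y / (k * τ)) * (2 * τ) := mul_le_mul hNup hℓ2 hℓ0.le (by positivity)
        _ = 4 * (Y / k) := by field_simp; ring
    have h4 : 32 * N * ℓ * ((N / h : ℕ) + 5 : ℝ) ^ 2 ≤ 32 * (4 * (Y / k)) * (7 * R) ^ 2 := by
      calc 32 * N * ℓ * ((N / h : ℕ) + 5 : ℝ) ^ 2 = 32 * (N * ℓ) * ((N / h : ℕ) + 5 : ℝ) ^ 2 := by
            ring
        _ ≤ 32 * (4 * (Y / k)) * (7 * R) ^ 2 :=
            mul_le_mul (by linarith) h2 (by positivity) (by positivity)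
    have h5 : 32 * (4 * (Y / k)) * (7 * R) ^ 2 ≤ 6272 * (Y / R) := by
      have h6 : (R : ℝ) ^ 2 / k ≤ 1 / R := by
        rw [div_le_div_iff₀ (by positivity) (by positivity)]
        nlinarith
      calc 32 * (4 * (Y / k)) * (7 * (R : ℝ)) ^ 2 = 6272 * Y * (R ^ 2 / k) := by ring
        _ ≤ 6272 * Y * (1 / R) := mul_le_mul_of_nonneg_left h6 (by positivity)
        _ = 6272 * (Y / R) := by ring
    rw [hA, div_le_iff₀ (by positivity)]
    calc 32 * N * ℓ * ((N / h : ℕ) + 5 : ℝ) ^ 2 ≤ 6272 * (Y / R) := le_trans h4 h5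
      _ = 6272 / δ ^ 3 * (Y / R) * δ ^ 3 := by field_simp
  have hA2 : 4 * h * Real.log L.prod ≤ 16 * (Y / R) := by
    calc 4 * (h : ℝ) * Real.log L.prod ≤ 4 * (N / R) * (k * (2 * τ)) := by
          apply mul_le_mul _ _ (Real.log_nonneg hP1) (by positivity)
          · linarith
          · refine le_trans hlogPup (mul_le_mul_of_nonneg_left hℓ2 (by positivity))
      _ ≤ 4 * ((2 * (Y / (k * τ))) / R) * (k * (2 * τ)) := by
          apply mul_le_mul_of_nonneg_right _ (by positivity)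
          apply mul_le_mul_of_nonneg_left _ (by norm_num)
          exact div_le_div_of_nonneg_right hNup (by positivity)
      _ = 16 * (Y / R) := by field_simp; ring
  have hA3 : K * Real.log g ≤ Y / R := by
    rw [le_div_iff₀ (by positivity)]
    have h2 : (K : ℝ) ≤ Real.exp (2 * τ) := le_trans (Nat.floor_le (Real.exp_pos _).le)
      (Real.exp_le_exp.mpr hℓ2)
    calc K * Real.log g * R ≤ Real.exp (2 * τ) * Real.log g * R := by
          apply mul_le_mul_of_nonneg_right _ (by positivity)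
          exact mul_le_mul_of_nonneg_right h2 hlg.le
      _ = R * Real.exp (2 * τ) * Real.log g := by ring
      _ ≤ Y := hY1
  have hA4 : N * k * Real.log C' ≤ 2 * (Y / R) := by
    have h2 : Real.log C' ≤ τ / R := by
      rw [le_div_iff₀ (by positivity)]
      linarith
    calc N * k * Real.log C' ≤ (2 * (Y / (k * τ))) * k * (τ / R) := by
          apply mul_le_mul _ h2 hlC'.le (by positivity)
          exact mul_le_mul_of_nonneg_right hNup (by positivity)
      _ = 2 * (Y / R) := by field_simp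
  -- conclusion
  have hxeq : 2 * x * C' ^ (N * S.card) = 4 / δ * (2 * Real.pi * n.natAbs) *
      Real.exp (4 * h * Real.log L.prod + K * Real.log g + N * k * Real.log C') := by
    rw [Real.exp_add, Real.exp_add]
    have e1 : Real.exp (4 * h * Real.log L.prod) = (L.prod : ℝ) ^ (4 * h) := by
      rw [show 4 * (h : ℝ) * Real.log L.prod = ((4 * h : ℕ) : ℝ) * Real.log L.prod by push_cast; ring,
        Real.exp_nat_mul, Real.exp_log hPR]
    have e2 : Real.exp (K * Real.log g) = (g : ℝ) ^ K := by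
      rw [Real.exp_nat_mul, Real.exp_log (by linarith)]
    have e3 : Real.exp (N * k * Real.log C') = C' ^ (N * S.card) := by
      rw [show (N : ℝ) * k * Real.log C' = ((N * S.card : ℕ) : ℝ) * Real.log C' by
        rw [hkdef]; push_cast; ring, Real.exp_nat_mul, Real.exp_log (by linarith)]
    rw [e1, e2, e3, hx, hΛ]
    ring
  rw [hxeq] at h1
  set E : ℝ := 4 * h * Real.log L.prod + K * Real.log g + N * k * Real.log C' with hE
  have hAE : A + E ≤ (6272 / δ ^ 3 + 19) / R * Y := by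
    have e : (6272 / δ ^ 3 + 19) / R * Y = 6272 / δ ^ 3 * (Y / R) + 19 * (Y / R) := by ring
    rw [e, hE]
    linarith
  have h2 : 4 * δ ^ 2 * Real.exp (-A) ≤ κ * (4 / δ * (2 * Real.pi * n.natAbs) * Real.exp E) := by
    have e : -A = -(32 * N * ℓ * ((N / h : ℕ) + 5 : ℝ) ^ 2) / δ ^ 3 := by
      rw [hA]
      ring
    rw [e]
    exact h1
  have hpn : 0 < 2 * Real.pi * n.natAbs := by positivity
  have h3 : δ ^ 3 / (2 * Real.pi * n.natAbs) * Real.exp (-(A + E)) ≤ κ := by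
    rw [neg_add, Real.exp_add, Real.exp_neg E]
    rw [div_mul_eq_mul_div, div_le_iff₀ hpn]
    have hEpos := Real.exp_pos E
    rw [← mul_assoc, mul_inv_le_iff₀ hEpos]
    have h4 : δ / 4 * (4 * δ ^ 2 * Real.exp (-A)) ≤
        δ / 4 * (κ * (4 / δ * (2 * Real.pi * n.natAbs) * Real.exp E)) :=
      mul_le_mul_of_nonneg_left h2 (by positivity)
    have e1 : δ / 4 * (4 * δ ^ 2 * Real.exp (-A)) = δ ^ 3 * Real.exp (-A) := by ring
    have e2 : δ / 4 * (κ * (4 / δ * (2 * Real.pi * n.natAbs) * Real.exp E)) =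
        κ * (2 * Real.pi * n.natAbs) * Real.exp E := by
      field_simp
    rw [e1, e2] at h4
    exact h4
  refine le_trans ?_ h3
  apply mul_le_mul_of_nonneg_left _ (by positivity)
  apply Real.exp_le_exp.mpr
  linarith

end Pool.Agent.H237.Zero
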