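import Mathlib
import Pool.Agent.H237.Zero.Growth

/-!
# The growth of the semigroup and of its generators
-/

namespace Pool.Agent.H237.Zero

open Set Filter Topology Pool.Agent.H237.Gap Pool.Agent.H237.Rare

lemma card_SF' {P : Set ℕ} (hP : ∀ p ∈ P, 2 ≤ p) {δ : ℝ} (hδ : 0 < δ) {t₀ x : ℕ} (hx : 1 ≤ x)
    (ht₀ : t₀ ≤ x) (h : ∀ t : ℕ, t₀ ≤ t → t ≤ x → cnt P t ≤ (t : ℝ) ^ δ) :
    ((SF P x).card : ℝ) ≤
      Real.exp ((1 - (2 : ℝ) ^ (-(2 * δ)))⁻¹ * (t₀ + 2)) * (x : ℝ) ^ (2 * δ) := by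
  classical
  set c : ℝ := (1 - (2 : ℝ) ^ (-(2 * δ)))⁻¹ with hc
  have h2lt : (2 : ℝ) ^ (-(2 * δ)) < 1 :=
    Real.rpow_lt_one_of_one_lt_of_neg (by norm_num) (by linarith)
  have hc0 : 0 < c := by
    rw [hc, inv_pos]
    linarith
  have hxR : (1 : ℝ) ≤ x := by exact_mod_cast hx
  set A : Finset ℕ := (Finset.range (x + 1)).filter (· ∈ P) with hA
  have hA2 : ∀ p ∈ A, 2 ≤ p := fun p hp => hP p (Finset.mem_filter.mp hp).2
  have hsub : SF P x ⊆ SF (A : Set ℕ) x := by
    intro n hn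
    rw [mem_SF] at hn ⊢
    refine ⟨hn.1, ?_⟩
    have h1 := (closure_le hP hn.2).2 x hn.1.2
    have h2 : {p ∈ P | p ≤ x} = (A : Set ℕ) := by
      ext p
      rw [hA, Finset.coe_filter]
      simp only [Finset.mem_range, mem_ofPred_eq]
      constructor
      · rintro ⟨h3, h4⟩
        exact ⟨by omega, h3⟩
      · rintro ⟨h3, h4⟩
        exact ⟨h4, by omega⟩
    rwa [h2] at h1
  have hcard : ∀ t : ℕ, ((A.filter (· ≤ t)).card : ℝ) ≤ cnt P t := by
    intro t
    rw [← card_upto]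
    have h3 : A.filter (· ≤ t) ⊆ upto P t := by
      intro p hp
      rw [Finset.mem_filter, hA, Finset.mem_filter] at hp
      rw [mem_upto]
      exact ⟨hp.1.2, by exact_mod_cast hp.2⟩
    exact_mod_cast Finset.card_le_card h3
  have hsp := sum_sparse hδ A hA2 t₀ (by
    intro t ht
    rcases le_total t x with h1 | h1
    · exact le_trans (hcard t) (h t ht h1)
    · have h2 : A.filter (· ≤ t) = A.filter (· ≤ x) := by
        apply Finset.filter_congr
        intro p hp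
        rw [hA, Finset.mem_filter, Finset.mem_range] at hp
        constructor
        · intro _
          omega
        · intro _
          omega
      rw [h2]
      refine le_trans (hcard x) (le_trans (h x ht₀ le_rfl) ?_)
      exact Real.rpow_le_rpow (by positivity) (by exact_mod_cast h1) hδ.le)
  have hprod : ∏ p ∈ A, (1 - (p : ℝ) ^ (-(2 * δ)))⁻¹ ≤ Real.exp (c * (t₀ + 2)) := by
    calc ∏ p ∈ A, (1 - (p : ℝ) ^ (-(2 * δ)))⁻¹ ≤ ∏ p ∈ A, Real.exp (c * (p : ℝ) ^ (-(2 * δ))) := by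
          apply Finset.prod_le_prod
          · intro p hp
            have hpR : (2 : ℝ) ≤ p := by exact_mod_cast hA2 p hp
            have h1 : (p : ℝ) ^ (-(2 * δ)) < 1 :=
              Real.rpow_lt_one_of_one_lt_of_neg (by linarith) (by linarith)
            exact inv_nonneg.mpr (by linarith)
          · intro p hp
            have hpR : (2 : ℝ) ≤ p := by exact_mod_cast hA2 p hp
            set t := (p : ℝ) ^ (-(2 * δ)) with ht
            have h1 : t ≤ (2 : ℝ) ^ (-(2 * δ)) :=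
              Real.rpow_le_rpow_of_nonpos (by norm_num) hpR (by linarith)
            have h0 : 0 ≤ t := by positivity
            have h2 : (1 - t)⁻¹ ≤ c := by
              rw [hc]
              apply inv_anti₀ (by linarith)
              linarith
            have h3 : (1 - t)⁻¹ = 1 + t * (1 - t)⁻¹ := by
              have : (1 - t) ≠ 0 := by linarith
              field_simp
              ring
            rw [h3]
            have h4 : t * (1 - t)⁻¹ ≤ c * t := by
              rw [mul_comm]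
              exact mul_le_mul_of_nonneg_right h2 h0
            have h5 := Real.add_one_le_exp (c * t)
            linarith
      _ = Real.exp (c * ∑ p ∈ A, (p : ℝ) ^ (-(2 * δ))) := by
          rw [← Real.exp_sum, Finset.mul_sum]
      _ ≤ _ := Real.exp_le_exp.mpr (mul_le_mul_of_nonneg_left hsp hc0.le)
  calc ((SF P x).card : ℝ) = ∑ n ∈ SF P x, 1 := by simp
    _ ≤ ∑ n ∈ SF P x, (x : ℝ) ^ (2 * δ) * (n : ℝ) ^ (-(2 * δ)) := by
        apply Finset.sum_le_sum
        intro n hn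
        rw [mem_SF] at hn
        have hn1 : (1 : ℝ) ≤ n := by exact_mod_cast hn.1.1
        have hn2 : (n : ℝ) ≤ x := by exact_mod_cast hn.1.2
        rw [Real.rpow_neg (by positivity), ← div_eq_mul_inv, one_le_div (by positivity)]
        exact Real.rpow_le_rpow (by positivity) hn2 (by positivity)
    _ = (x : ℝ) ^ (2 * δ) * ∑ n ∈ SF P x, (n : ℝ) ^ (-(2 * δ)) := by rw [Finset.mul_sum]
    _ ≤ (x : ℝ) ^ (2 * δ) * ∑ n ∈ SF (A : Set ℕ) x, (n : ℝ) ^ (-(2 * δ)) := by
        apply mul_le_mul_of_nonneg_left _ (by positivity)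
        exact Finset.sum_le_sum_of_subset_of_nonneg hsub (fun n _ _ => by positivity)
    _ ≤ (x : ℝ) ^ (2 * δ) * Real.exp (c * (t₀ + 2)) := by
        apply mul_le_mul_of_nonneg_left _ (by positivity)
        exact le_trans (rankin (2 * δ) (by positivity) x A hA2) hprod
    _ = _ := mul_comm _ _

lemma const_le {δ : ℝ} (hδ : 0 < δ) (hδ1 : δ ≤ 1 / 2) : (1 - (2 : ℝ) ^ (-(2 * δ)))⁻¹ ≤ 2 / δ := by
  set v := 2 * δ * Real.log 2 with hv
  have hl2 : 0.6931471803 < Real.log 2 := Real.log_two_gt_d9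
  have hl2' : Real.log 2 < 0.6931471808 := Real.log_two_lt_d9
  have hv0 : 0 < v := by positivity
  have hv1 : v ≤ 1 := by nlinarith
  have h1 : (2 : ℝ) ^ (-(2 * δ)) = Real.exp (-v) := by
    rw [Real.rpow_def_of_pos (by norm_num), hv]
    congr 1
    ring
  have h2 : Real.exp (-v) ≤ 1 / (1 + v) := by
    rw [Real.exp_neg, ← one_div]
    apply one_div_le_one_div_of_le (by linarith)
    have := Real.add_one_le_exp v
    linarith
  have h3 : δ / 2 ≤ 1 - Real.exp (-v) := by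
    have h4 : 1 / (1 + v) ≤ 1 - v / 2 := by
      rw [div_le_iff₀ (by linarith)]
      nlinarith
    have h5 : δ / 2 ≤ v / 2 := by
      rw [hv]
      nlinarith
    linarith
  rw [h1]
  calc (1 - Real.exp (-v))⁻¹ ≤ (δ / 2)⁻¹ := inv_anti₀ (by positivity) h3
    _ = 2 / δ := by rw [inv_div]

/-- The number of generators from the number of elements of the semigroup. -/
lemma growth_of_semigroup {P : Set ℕ} (hP : ∀ p ∈ P, 2 ≤ p) {c c' : ℝ} (hc0 : 0 ≤ c) (hc1 : c ≤ 1)
    (hcc : c < c') (hc' : c' ≤ 1)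
    (h : ∃ᶠ x : ℝ in atTop, Real.exp (Real.log x / Real.log (Real.log (Real.log x)) ^ c) ≤
      ({n ∈ (Submonoid.closure P : Set ℕ) | (n : ℝ) ≤ x}.ncard : ℝ)) :
    ∃ᶠ x : ℝ in atTop, Real.exp (Real.log x / Real.log (Real.log x) ^ c') ≤ cnt P x := by
  by_contra hcon
  rw [not_frequently] at hcon
  have h1 : ∀ᶠ x : ℝ in atTop, cnt P x < Real.exp (Real.log x / Real.log (Real.log x) ^ c') :=
    hcon.mono fun x hx => not_le.mp hx
  obtain ⟨T, hT⟩ := eventually_atTop.mp h1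
  have eℓ : ∀ᶠ ℓ : ℝ in atTop, Real.log ℓ ≤ ℓ ^ (1 / 8 : ℝ) ∧ (33 : ℝ) ≤ ℓ ^ (1 / 4 : ℝ) ∧
      T ≤ Real.sqrt ℓ ∧ 9 ≤ ℓ := by
    have := isLittleO_log_rpow_atTop (show (0 : ℝ) < 1 / 8 by norm_num)
    have h2 := this.bound (show (0 : ℝ) < 1 by norm_num)
    filter_upwards [h2, (tendsto_rpow_atTop (show (0 : ℝ) < 1 / 4 by norm_num)).eventually
      (eventually_ge_atTop (33 : ℝ)), Real.tendsto_sqrt_atTop.eventually (eventually_ge_atTop T),
      eventually_ge_atTop (9 : ℝ)] with ℓ h3 h4 h5 h6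
    refine ⟨?_, h4, h5, h6⟩
    rw [one_mul, Real.norm_of_nonneg (Real.log_nonneg (by linarith)),
      Real.norm_of_nonneg (by positivity)] at h3
    exact h3
  have eV : ∀ᶠ V : ℝ in atTop, (8 : ℝ) ≤ V ^ (c' - c) ∧ 2 ≤ V :=
    ((tendsto_rpow_atTop (show (0 : ℝ) < c' - c by linarith)).eventually
      (eventually_ge_atTop (8 : ℝ))).and (eventually_ge_atTop 2)
  obtain ⟨x, hx, ⟨hℓ1, hℓ2, hℓ3, hℓ4⟩, ⟨hV1, hV2⟩, hx1⟩ := (h.and_eventually
    ((Real.tendsto_log_atTop.eventually eℓ).and ((tendsto_LLL.eventually eV).and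
      (eventually_ge_atTop (1 : ℝ))))).exists
  set ℓ := Real.log x with hℓ
  set L := Real.log ℓ with hL
  set V := Real.log L with hV
  have hx0 : 0 < x := by linarith
  have hℓ0 : 0 < ℓ := by linarith
  have hVc1 : 1 ≤ V ^ c := Real.one_le_rpow (by linarith) hc0
  have hVcV : V ^ c ≤ V := by
    calc V ^ c ≤ V ^ (1 : ℝ) := Real.rpow_le_rpow_of_exponent_le (by linarith) hc1
      _ = V := Real.rpow_one V
  have hL0 : 0 < L := by
    by_contra hcon2
    push Not at hcon2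
    have h2 : V ≤ 0 := by
      rcases eq_or_lt_of_le hcon2 with h3 | h3
      · rw [hV, h3, Real.log_zero]
      · -- `log` of a negative number
        have h4 : L = Real.log ℓ := hL
        have h5 : 0 ≤ Real.log ℓ := Real.log_nonneg (by linarith)
        linarith
    linarith
  have hVL : V ≤ L := by
    have := Real.log_le_sub_one_of_pos hL0
    linarith
  set η : ℝ := 1 / (4 * V ^ c) with hη
  have hη0 : 0 < η := by positivity
  have hη1 : η ≤ 1 / 2 := by
    rw [hη]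
    apply one_div_le_one_div_of_le (by norm_num)
    linarith
  have hηV : 1 / (4 * V) ≤ η := by
    rw [hη]
    apply one_div_le_one_div_of_le (by positivity)
    linarith
  set t₀ := ⌈Real.sqrt ℓ⌉₊ with ht₀
  set X := ⌊x⌋₊ with hX
  have hsq0 : 0 ≤ Real.sqrt ℓ := Real.sqrt_nonneg _
  have hsq3 : 3 ≤ Real.sqrt ℓ := by
    rw [show (3 : ℝ) = Real.sqrt 9 by
      rw [show (9 : ℝ) = 3 ^ 2 by norm_num]
      rw [Real.sqrt_sq (by norm_num)]]
    exact Real.sqrt_le_sqrt hℓ4
  have hsqsq : Real.sqrt ℓ * Real.sqrt ℓ = ℓ := Real.mul_self_sqrt hℓ0.le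
  have ht₀R : (t₀ : ℝ) < Real.sqrt ℓ + 1 := Nat.ceil_lt_add_one hsq0
  have ht₀X : t₀ ≤ X := by
    apply Nat.le_floor
    have h2 : ℓ ≤ x - 1 := Real.log_le_sub_one_of_pos hx0
    nlinarith
  have hX1 : 1 ≤ X := by
    rw [hX, Nat.one_le_floor_iff]
    exact hx1
  have hcard := card_SF' hP hη0 hX1 ht₀X (by
    intro t ht1 _
    have ht2 : Real.sqrt ℓ ≤ t := le_trans (Nat.le_ceil _) (by exact_mod_cast ht1)
    have htpos : (0 : ℝ) < t := by linarith
    refine le_trans (hT t (le_trans hℓ3 ht2)).le ?_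
    rw [Real.rpow_def_of_pos htpos]
    apply Real.exp_le_exp.mpr
    have hlt0 : 0 ≤ Real.log t := Real.log_nonneg (by linarith)
    rw [div_eq_mul_one_div]
    apply mul_le_mul_of_nonneg_left _ hlt0
    have h3 : L / 2 ≤ Real.log t := by
      rw [hL, ← Real.log_sqrt hℓ0.le]
      exact Real.log_le_log (by linarith) ht2
    have h4 : V / 2 ≤ Real.log (Real.log t) := by
      have h5 : Real.log (L / 2) ≤ Real.log (Real.log t) := Real.log_le_log (by positivity) h3
      rw [Real.log_div hL0.ne' (by norm_num)] at h5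
      have hl2' : Real.log 2 < 0.6931471808 := Real.log_two_lt_d9
      linarith
    have hc'0 : 0 < c' := by linarith
    rw [hη]
    apply one_div_le_one_div_of_le (by positivity)
    calc 4 * V ^ c ≤ (V ^ (c' - c) / 2) * V ^ c :=
          mul_le_mul_of_nonneg_right (by linarith) (by positivity)
      _ = V ^ c' / 2 := by
          rw [div_mul_eq_mul_div, ← Real.rpow_add (by linarith)]
          congr 2
          ring
      _ ≤ V ^ c' / 2 ^ c' := by
          apply div_le_div_of_nonneg_left (by positivity) (by positivity)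
          calc (2 : ℝ) ^ c' ≤ 2 ^ (1 : ℝ) := Real.rpow_le_rpow_of_exponent_le (by norm_num) hc'
            _ = 2 := Real.rpow_one 2
      _ = (V / 2) ^ c' := (Real.div_rpow (by linarith) (by norm_num) _).symm
      _ ≤ Real.log (Real.log t) ^ c' := Real.rpow_le_rpow (by linarith) h4 hc'0.le)
  have h3 : ({n ∈ (Submonoid.closure P : Set ℕ) | (n : ℝ) ≤ x}.ncard : ℝ) ≤
      ((SF P X).card : ℝ) := by
    rw [← Set.ncard_coe_finset]
    have h4 : {n ∈ (Submonoid.closure P : Set ℕ) | (n : ℝ) ≤ x} ⊆ (SF P X : Set ℕ) := by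
      intro n hn
      rw [Finset.mem_coe, mem_SF]
      exact ⟨⟨(closure_le hP hn.1).1, Nat.le_floor hn.2⟩, hn.1⟩
    exact_mod_cast Set.ncard_le_ncard h4 (Finset.finite_toSet _)
  have h4 : Real.exp (4 * η * ℓ) ≤ Real.exp (2 / η * (t₀ + 2) + 2 * η * ℓ) := by
    have e1 : 4 * η * ℓ = ℓ / V ^ c := by
      rw [hη]
      field_simp
    have h5 : (X : ℝ) ^ (2 * η) ≤ Real.exp (2 * η * ℓ) := by
      calc (X : ℝ) ^ (2 * η) ≤ x ^ (2 * η) :=
            Real.rpow_le_rpow (by positivity) (Nat.floor_le hx0.le) (by positivity)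
        _ = Real.exp (2 * η * ℓ) := by
            rw [Real.rpow_def_of_pos hx0]
            congr 1
            ring
    rw [e1, Real.exp_add]
    refine le_trans hx (le_trans h3 (le_trans hcard ?_))
    apply mul_le_mul _ h5 (by positivity) (Real.exp_pos _).le
    apply Real.exp_le_exp.mpr
    exact mul_le_mul_of_nonneg_right (const_le hη0 hη1) (by positivity)
  rw [Real.exp_le_exp] at h4
  have h5 : η ^ 2 * ℓ ≤ t₀ + 2 := by
    have h6 : 2 * η * ℓ ≤ 2 / η * (t₀ + 2) := by linarith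
    rw [div_mul_eq_mul_div, le_div_iff₀ hη0] at h6
    nlinarith
  have h6 : ℓ ≤ 32 * (V ^ 2 * Real.sqrt ℓ) := by
    have h7 : (1 / (4 * V)) ^ 2 ≤ η ^ 2 := pow_le_pow_left₀ (by positivity) hηV 2
    have h8 : (1 / (4 * V)) ^ 2 * ℓ ≤ 2 * Real.sqrt ℓ := by
      have := mul_le_mul_of_nonneg_right h7 hℓ0.le
      linarith
    have h9 : (1 / (4 * V)) ^ 2 * ℓ = ℓ / (16 * V ^ 2) := by
      field_simp
      ring
    rw [h9, div_le_iff₀ (by positivity)] at h8
    linarith
  have h7 : V ^ 2 ≤ ℓ ^ (1 / 4 : ℝ) := by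
    calc V ^ 2 ≤ (ℓ ^ (1 / 8 : ℝ)) ^ 2 := pow_le_pow_left₀ (by linarith) (by linarith) 2
      _ = ℓ ^ (1 / 4 : ℝ) := by
          rw [← Real.rpow_natCast, ← Real.rpow_mul hℓ0.le]
          norm_num
  have h8 : ℓ ≤ 32 * (ℓ ^ (1 / 4 : ℝ) * Real.sqrt ℓ) := by
    refine le_trans h6 (mul_le_mul_of_nonneg_left ?_ (by norm_num))
    exact mul_le_mul_of_nonneg_right h7 hsq0
  have h9 : ℓ = ℓ ^ (1 / 4 : ℝ) * (ℓ ^ (1 / 4 : ℝ) * Real.sqrt ℓ) := by
    rw [Real.sqrt_eq_rpow, ← Real.rpow_add hℓ0, ← Real.rpow_add hℓ0]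
    norm_num
  have h10 : 0 < ℓ ^ (1 / 4 : ℝ) * Real.sqrt ℓ := by positivity
  have h11 : 33 * (ℓ ^ (1 / 4 : ℝ) * Real.sqrt ℓ) ≤
      ℓ ^ (1 / 4 : ℝ) * (ℓ ^ (1 / 4 : ℝ) * Real.sqrt ℓ) := mul_le_mul_of_nonneg_right hℓ2 h10.le
  linarith

end Pool.Agent.H237.Zero
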