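import Mathlib
import Pool.Agent.H237.Rare.Tail

/-!
# The mass of a small punctured ball, uniformly in the density
-/

namespace Pool.Agent.H237.Zero

open MeasureTheory Set Filter Topology Pool.Agent.H237.Gap Pool.Agent.H237.Rare
  Pool.Agent.H237.Sieve

lemma eventually_good_unif (j₀ : ℕ) : ∀ᶠ k : ℕ in atTop, ∀ δ : ℝ, 0 < δ →
    1 / δ ≤ (k : ℝ) ^ (1 / 8 : ℝ) → Good δ j₀ k := by
  have h1 : ∀ᶠ z : ℝ in atTop, Real.log z ≤ z ^ (1 / 4 : ℝ) := by
    have := isLittleO_log_rpow_atTop (show (0 : ℝ) < 1 / 4 by norm_num)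
    have h2 := this.bound (show (0 : ℝ) < 1 by norm_num)
    filter_upwards [h2, eventually_ge_atTop (1 : ℝ)] with z hz hz1
    rw [one_mul, Real.norm_of_nonneg (Real.log_nonneg hz1),
      Real.norm_of_nonneg (by positivity)] at hz
    exact hz
  have h2 : ∀ᶠ z : ℝ in atTop, (500 : ℝ) ≤ z ^ (1 / 8 : ℝ) :=
    (tendsto_rpow_atTop (show (0 : ℝ) < 1 / 8 by norm_num)).eventually (eventually_ge_atTop _)
  have e0 : ∀ᶠ z : ℝ in atTop, ∀ D : ℝ, 0 ≤ D → D ≤ 4 * z ^ (1 / 8 : ℝ) →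
      (17 * (6 + 4 * D) + 5 * D * (3 + Real.log (Real.log z)) + D) / z ≤ 1 / Real.sqrt z := by
    filter_upwards [h1, h2, eventually_ge_atTop (Real.exp 1)] with z hz1 hz2 hz3 D hD0 hD
    have hz0 : 0 < z := lt_of_lt_of_le (Real.exp_pos _) hz3
    have hlz : 1 ≤ Real.log z := by rwa [Real.le_log_iff_exp_le hz0]
    have h3 : Real.log (Real.log z) ≤ Real.log z := by
      have := Real.log_le_sub_one_of_pos (show 0 < Real.log z by linarith)
      linarith
    set u := z ^ (1 / 8 : ℝ) with hu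
    have hw : z ^ (1 / 4 : ℝ) = u * u := by
      rw [hu, ← Real.rpow_add hz0]
      norm_num
    rw [hw] at hz1
    have hw2 : (u * u) * (u * u) = Real.sqrt z := by
      rw [← hw, ← Real.rpow_add hz0, Real.sqrt_eq_rpow]
      norm_num
    have hs : Real.sqrt z * Real.sqrt z = z := Real.mul_self_sqrt hz0.le
    have hs0 : 0 < Real.sqrt z := Real.sqrt_pos.mpr hz0
    rw [div_le_div_iff₀ hz0 hs0, one_mul]
    calc (17 * (6 + 4 * D) + 5 * D * (3 + Real.log (Real.log z)) + D) * Real.sqrt z ≤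
          ((u * u) * (u * u)) * Real.sqrt z := by
          apply mul_le_mul_of_nonneg_right _ hs0.le
          have hu0 : 0 < u := by linarith
          have hlog : Real.log (Real.log z) ≤ u * u := le_trans h3 hz1
          have h5 : 5 * D * (3 + Real.log (Real.log z)) ≤ 5 * D * (3 + u * u) :=
            mul_le_mul_of_nonneg_left (by linarith) (by positivity)
          have h6 : 5 * D * (3 + u * u) ≤ 5 * (4 * u) * (3 + u * u) :=
            mul_le_mul_of_nonneg_right (by linarith) (by positivity)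
          have h7 : 17 * (6 + 4 * D) + 5 * D * (3 + Real.log (Real.log z)) + D ≤
              102 + 336 * u + 20 * (u * (u * u)) := by nlinarith
          have h8 : 102 + 336 * u + 20 * (u * (u * u)) ≤ 500 * (u * (u * u)) := by
            have h9 : (1 : ℝ) ≤ u * u := by nlinarith
            have h10 : u ≤ u * (u * u) := le_mul_of_one_le_right hu0.le h9
            nlinarith
          have h9 : 500 * (u * (u * u)) ≤ u * (u * (u * u)) :=
            mul_le_mul_of_nonneg_right hz2 (by positivity)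
          have h10 : u * (u * (u * u)) = (u * u) * (u * u) := by ring
          linarith
      _ = z := by rw [hw2, hs]
  have h3 : ∀ᶠ z : ℝ in atTop, (1 : ℝ) ≤ z ^ (1 / 8 : ℝ) := h2.mono fun z hz => by linarith
  filter_upwards [eventually_goodk, tendsto_natCast_atTop_atTop.eventually e0,
    eventually_ge_atTop j₀, tendsto_natCast_atTop_atTop.eventually h3] with k h1 h2 h3 h4 δ hδ hδk
  refine ⟨h1.big, ?_, ?_, ?_⟩
  · have h4 : (k : ℝ) ≤ ⌈5 * Real.exp (1 / 1000 * (k : ℝ))⌉₊ := by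
      have h5 : 5 * Real.exp (1 / 1000 * (k : ℝ)) ≤ ⌈5 * Real.exp (1 / 1000 * (k : ℝ))⌉₊ :=
        Nat.le_ceil _
      have := h1.kK
      have := Real.exp_pos (1 / 1000 * (k : ℝ))
      linarith
    have h5 : k ≤ ⌈5 * Real.exp (1 / 1000 * (k : ℝ))⌉₊ := by exact_mod_cast h4
    omega
  · refine le_trans ?_ h1.err
    have h4 : (0 : ℝ) ≤ (⌈5 * Real.exp (1 / 1000 * (k : ℝ))⌉₊ : ℝ) * (1 / 2) ^ (k / 256) := by
      positivity
    linarith
  · apply h2 (DD δ) (DD_nonneg δ)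
    unfold DD
    have h5 : (⌈1 / δ⌉₊ : ℝ) < 1 / δ + 1 := Nat.ceil_lt_add_one (by positivity)
    linarith

/-- **The mass of a punctured ball of radius `1 / (2 y)`, uniformly.** -/
theorem tail_unif {P : Set ℕ} (hP2 : ∀ p ∈ P, 2 ≤ p) (hco : P.Pairwise Nat.Coprime)
    (hP : Dense3 P) :
    ∃ k₀ : ℕ, ∀ (δ : ℝ) (A : Finset ℕ) (y : ℕ), 0 < δ → (A : Set ℕ) ⊆ P → (∀ p ∈ A, p ≤ y) →
      δ * Real.log y ≤ Real.log A.card → 1 / δ ≤ (A.card : ℝ) ^ (1 / 8 : ℝ) → k₀ ≤ A.card →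
      ∀ ν : Measure UnitAddCircle, IsProbabilityMeasure ν → (∀ p ∈ P, Inv ν p) →
      ν.real {x | x ≠ 0 ∧ ‖x‖ < 1 / (2 * y)} ≤ 1 / Real.sqrt A.card := by
  obtain ⟨j₀, hj₀1, hsets⟩ := exists_sets hP
  obtain ⟨k₀, hk₀⟩ := eventually_atTop.mp (eventually_good_unif j₀)
  exact ⟨k₀, fun δ A y hδ hAP hAy hlg hδk hkk ν hν hinvP =>
    tail_core hP2 hco hj₀1 hsets hδ A y hAP hAy hlg (hk₀ _ hkk δ hδ hδk) ν hν hinvP⟩

end Pool.Agent.H237.Zero
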